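import Pool.Agent.Helper589_TypeII.Coprime

/-!
Maximal invariant subgroups of prime index p with p dividing their order: affine action on the
quotient.
-/

namespace Pool.Agent.Helper589TypeII

variable {A : Type} [AddCommGroup A]

lemma mem_of_card_nsmul [Finite A] [IsAddCyclic A] {C : AddSubgroup A} {o : A}
    (ho : Nat.card C • o = 0) : o ∈ C := by
  classical
  have := Fintype.ofFinite A
  set S : Finset A := Finset.univ.filter (fun a : A => Nat.card C • a = 0) with hS
  have h2 : S.card ≤ Nat.card C := IsAddCyclic.card_nsmul_eq_zero_le Nat.card_pos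
  set U : Finset A := Finset.univ.filter (fun a : A => a ∈ C) with hU
  have h3 : U ⊆ S := by
    intro a ha
    rw [hU, Finset.mem_filter] at ha
    rw [hS, Finset.mem_filter]
    refine ⟨Finset.mem_univ _, ?_⟩
    have := card_nsmul_eq_zero' (x := (⟨a, ha.2⟩ : C))
    exact congrArg Subtype.val this
  have h4 : U.card = Nat.card C := by
    rw [hU, ← Fintype.card_subtype, Nat.card_eq_fintype_card]
  have h5 : U = S := Finset.eq_of_subset_of_card_le h3 (by rw [h4]; exact h2)
  have h6 : o ∈ U := by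
    rw [h5, hS, Finset.mem_filter]
    exact ⟨Finset.mem_univ _, ho⟩
  rw [hU, Finset.mem_filter] at h6
  exact h6.2

lemma card_nsmul_of_mem {C : AddSubgroup A} {o : A} (ho : o ∈ C) : Nat.card C • o = 0 := by
  have := card_nsmul_eq_zero' (x := (⟨o, ho⟩ : C))
  exact congrArg Subtype.val this

/-- Data on the p-part of A. -/
structure PP (A : Type) [AddCommGroup A] (p e N' : ℕ) (π : ℤ) : Prop where
  prime : p.Prime
  card : Nat.card A = p ^ e * N'
  cop : ¬ p ∣ N'
  one : ((p : ℤ) ^ e) ∣ π - 1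
  zero : (N' : ℤ) ∣ π

lemma exists_PP [Finite A] {p : ℕ} (hp : p.Prime) : ∃ e N' π, PP A p e N' π := by
  obtain ⟨e, N', hN', hc⟩ := Nat.exists_eq_pow_mul_and_not_dvd (n := Nat.card A)
    Nat.card_pos.ne' p hp.ne_one
  have h1 : IsCoprime ((p : ℤ) ^ e) (N' : ℤ) := by
    apply IsCoprime.pow_left
    rw [Nat.isCoprime_iff_coprime]
    exact (Nat.Prime.coprime_iff_not_dvd hp).2 hN'
  obtain ⟨u, v, huv⟩ := h1
  refine ⟨e, N', v * N', hp, hc, hN', ⟨-u, ?_⟩, ⟨v, by ring⟩⟩
  linear_combination huv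

lemma exists_zsmul_sub_mem [Finite A] {p : ℕ} (hp : p.Prime) {C : AddSubgroup A}
    (hi : C.index = p) {z : A} (hz : z ∉ C) (z' : A) : ∃ k : ℤ, k • z - z' ∈ C := by
  have : Fact p.Prime := ⟨hp⟩
  have h1 : Nat.card (A ⧸ C) = p := hi
  have h2 : AddSubgroup.zmultiples (QuotientAddGroup.mk z : A ⧸ C) = ⊤ := by
    apply zmultiples_eq_top_of_prime_card h1
    rw [Ne, QuotientAddGroup.eq_zero_iff]
    exact hz
  have h3 : (QuotientAddGroup.mk z' : A ⧸ C) ∈ AddSubgroup.zmultiples
      (QuotientAddGroup.mk z : A ⧸ C) := by rw [h2]; exact AddSubgroup.mem_top _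
  obtain ⟨k, hk⟩ := AddSubgroup.mem_zmultiples_iff.1 h3
  refine ⟨k, ?_⟩
  rw [← QuotientAddGroup.eq_zero_iff, QuotientAddGroup.mk_sub, QuotientAddGroup.mk_zsmul, hk,
    sub_self]

lemma exists_mult [Finite A] {p : ℕ} (hp : p.Prime) {C : AddSubgroup A}
    (hi : C.index = p) {z z' : A} (hz : z ∉ C) (hz' : z' ∉ C) :
    ∃ b : ℤ, IsCoprime b (Nat.card A : ℤ) ∧ b • z - z' ∈ C := by
  obtain ⟨e, N', π, h⟩ := exists_PP (A := A) hp
  obtain ⟨k, hk⟩ := exists_zsmul_sub_mem hp hi hz z'
  have hpz : ∀ z : A, p • z ∈ C := by intro z; rw [← hi]; exact index_nsmul_mem C z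
  have hpk : ¬ (p : ℤ) ∣ k := by
    rintro ⟨k', rfl⟩
    apply hz'
    have h1 : z' = (↑p * k') • z - ((↑p * k') • z - z') := by abel
    rw [h1]
    apply C.sub_mem _ hk
    rw [mul_comm, mul_smul, natCast_zsmul]
    exact C.zsmul_mem (hpz z) k'
  have hpN : p ∣ Nat.card A := by
    rw [← hi]; exact AddSubgroup.index_dvd_card C
  have he : e ≠ 0 := by
    rintro rfl
    have h1 := h.card
    rw [pow_zero, one_mul] at h1
    apply h.cop
    rw [← h1]; exact hpN
  have hpπ : (p : ℤ) ∣ π - 1 := dvd_trans (dvd_pow_self _ he) h.one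
  refine ⟨1 + (k - 1) * π, ?_, ?_⟩
  · rw [h.card]
    push_cast
    apply IsCoprime.mul_right
    · apply IsCoprime.pow_right
      have h1 : IsCoprime k (p : ℤ) := by
        rw [isCoprime_comm]
        exact (Prime.coprime_iff_not_dvd (Nat.prime_iff_prime_int.1 hp)).2 hpk
      obtain ⟨s, hs⟩ := hpπ
      have h2 : 1 + (k - 1) * π = k + (p : ℤ) * (s * (k - 1)) := by
        have : π = 1 + p * s := by linear_combination hs
        rw [this]; ring
      rw [h2]
      exact h1.add_mul_left_left _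
    · obtain ⟨s, hs⟩ := h.zero
      rw [hs]
      refine ⟨1, -((k - 1) * s), by ring⟩
  · have h2 : (1 + (k - 1) * π) • z - z' = (k • z - z') + ((π - 1) * (k - 1)) • z := by
      have : 1 + (k - 1) * π = k + (π - 1) * (k - 1) := by ring
      rw [this, add_smul]; abel
    rw [h2]
    apply C.add_mem hk
    obtain ⟨s, hs⟩ := hpπ
    rw [hs]
    have : (p : ℤ) * s * (k - 1) = (s * (k - 1)) * p := by ring
    rw [this, mul_smul, natCast_zsmul]
    exact C.zsmul_mem (hpz z) _

/-- inverse multiplier -/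
lemma exists_inv_mult [Finite A] {b : ℤ} (hb : IsCoprime b (Nat.card A : ℤ)) :
    ∃ b' : ℤ, IsCoprime b' (Nat.card A : ℤ) ∧ ∀ z : A, b • b' • z = z ∧ b' • b • z = z := by
  obtain ⟨s, t, hst⟩ := hb
  refine ⟨s, ⟨b, t, by linear_combination hst⟩, fun z => ?_⟩
  have h1 : (s * b) • z = z := by
    have : s * b = 1 + (-t) * (Nat.card A : ℤ) := by linear_combination hst
    rw [this, add_smul, one_smul, zsmul_card_eq_zero, add_zero]
  constructor
  · rw [← mul_smul, mul_comm]; exact h1
  · rw [← mul_smul]; exact h1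

lemma lrad_eq_zero [Finite A] {G : Subgroup (Equiv.Perm A)} {C : AddSubgroup A}
    (hR : RadTriv G C) {p : ℕ} (hp : p.Prime) (hi : C.index = p) :
    ∀ z, z ∉ C → ∀ l ∈ lrad G C z, l = 0 := by
  intro z hz l hl
  apply hR l hl.1
  intro z' hz'
  obtain ⟨b, hb, hbz⟩ := exists_mult hp hi hz hz'
  obtain ⟨b', hb', hbb⟩ := exists_inv_mult (A := A) hb
  refine ⟨hl.1, fun T hT u hu => ?_⟩
  have h1 : b' • l ∈ lrad G C z := AddSubgroup.zsmul_mem _ hl b'
  have h2 := h1.2 _ (hT.smul hb) (b' • u) (by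
    have h3 : b' • u - z = b' • (u - b • z) := by rw [smul_sub, (hbb z).2]
    rw [h3]
    apply C.zsmul_mem
    have h4 : u - b • z = (u - z') - (b • z - z') := by abel
    rw [h4]
    exact C.sub_mem hu hbz)
  have h5 : b • b' • u ∈ T ↔ b • (b' • u + b' • l) ∈ T := h2
  rw [smul_add, (hbb u).1, (hbb l).1] at h5
  exact h5

section Affine

variable [Finite A] {G : Subgroup (Equiv.Perm A)} {C : AddSubgroup A}
  (hC : IsInv G (C : Set A)) (hlr : ∀ z, z ∉ C → ∀ l ∈ lrad G C z, l = 0) {p : ℕ}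
  (hp : p.Prime) (hi : C.index = p) (hpC : p ∣ Nat.card C)

include hC hlr hi hpC in
/-- affine action -/
lemma affine {g : Equiv.Perm A} (hg : g ∈ G) {y y' : A} (hy : y' - y ∉ C) (j : ℤ) :
    g (y' + j • (Nat.card C • (y' - y))) = g y' + j • (Nat.card C • (g y' - g y)) := by
  set n : ℕ := Nat.card C with hn
  have hN : Nat.card A = n * p := by rw [← hi]; exact (AddSubgroup.card_mul_index C).symm
  have hb : IsCoprime (1 + j * n : ℤ) (Nat.card A : ℤ) := by
    obtain ⟨s, hs⟩ := hpC
    refine ⟨1 - j * n, j ^ 2 * s, ?_⟩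
    rw [hN]; push_cast
    have : (n : ℤ) = p * s := by exact_mod_cast hs
    linear_combination (j ^ 2 * n) * (-this)
  have hgy : g y' - g y ∉ C := fun h => hy ((hC g hg y y').2 h)
  have hCn : ∀ c ∈ C, n • c = 0 := fun c hc => card_nsmul_of_mem hc
  have hnC : ∀ c : A, n • c ∈ C := by
    intro c
    obtain ⟨s, hs⟩ := hpC
    rw [hs, mul_comm, mul_smul]
    apply C.nsmul_mem
    rw [← hi]; exact index_nsmul_mem C c
  have hD : g (y' + j • (n • (y' - y))) - (g y' + j • (n • (g y' - g y))) ∈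
      lrad G C (g y' + j • (n • (g y' - g y)) - g y) := by
    refine ⟨?_, fun T hT u hu => ?_⟩
    · have h1 : g (y' + j • (n • (y' - y))) - g y' ∈ C := by
        apply (hC g hg _ _).1
        rw [add_sub_cancel_left]
        exact C.zsmul_mem (hnC _) j
      have h2 : j • (n • (g y' - g y)) ∈ C := C.zsmul_mem (hnC _) j
      have h3 := C.sub_mem h1 h2
      convert h3 using 1; abel
    · obtain ⟨v, hv⟩ : ∃ v, g v = g y' + j • (n • (g y' - g y)) - u :=
        ⟨g⁻¹ (g y' + j • (n • (g y' - g y)) - u), by simp⟩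
      have hvy : g y - g v ∈ C := by
        rw [hv]
        convert hu using 1; abel
      have hvy2 : y - v ∈ C := (hC g hg v y).2 hvy
      have e1 : (1 + j * n : ℤ) • (y' - v) ∈ T ↔ (1 + j * n : ℤ) • (g y' - g v) ∈ T :=
        (hT.smul hb) g hg v y'
      have e2 : (1 + j * n : ℤ) • (y' - v) = y' + j • (n • (y' - y)) - v := by
        have h1 : y' - v = (y' - y) + (y - v) := by abel
        rw [add_smul, one_smul, mul_smul, natCast_zsmul]
        nth_rewrite 2 [h1]
        rw [smul_add n, hCn _ hvy2, add_zero]; abel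
      have e3 : (1 + j * n : ℤ) • (g y' - g v) = u := by
        have h1 : g y' - g v = (g y' - g y) + (g y - g v) := by abel
        rw [add_smul, one_smul, mul_smul, natCast_zsmul]
        nth_rewrite 2 [h1]
        rw [smul_add n, hCn _ hvy, add_zero, hv]; abel
      rw [e2, e3] at e1
      rw [← e1]
      have e4 : y' + j • (n • (y' - y)) - v ∈ T ↔ g (y' + j • (n • (y' - y))) - g v ∈ T :=
        hT g hg v _
      rw [e4, hv]
      have e5 : g (y' + j • n • (y' - y)) - (g y' + j • n • (g y' - g y) - u) =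
        u + (g (y' + j • n • (y' - y)) - (g y' + j • n • (g y' - g y))) := by abel
      rw [e5]
  have h1 := hlr _ (by
    intro h
    apply hgy
    have h2 := C.sub_mem h (C.zsmul_mem (hnC (g y' - g y)) j)
    convert h2 using 1; abel) _ hD
  exact sub_eq_zero.1 h1

include hC hlr hp hi hpC in
/-- elements with two fixed points act trivially on the quotient -/
lemma graded_of_fix [IsAddCyclic A] {g : Equiv.Perm A} (hg : g ∈ G) (h0 : g 0 = 0) {x : A}
    (hx : x ∉ C) (hgx : g x = x) (y : A) : g y - y ∈ C := by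
  have hg0 : ∀ c ∈ C, g c ∈ C := by
    intro c hc
    have := (hC g hg 0 c).1 (by rw [sub_zero]; exact hc)
    rwa [h0, sub_zero] at this
  by_cases hy : y ∈ C
  · exact C.sub_mem (hg0 y hy) hy
  by_cases hxy : x - y ∈ C
  · have h1 : g x - g y ∈ C := (hC g hg y x).1 hxy
    rw [hgx] at h1
    have h2 := C.sub_mem hxy h1
    convert h2 using 1; abel
  -- the main case
  set n : ℕ := Nat.card C with hn
  have hN : Nat.card A = n * p := by rw [← hi]; exact (AddSubgroup.card_mul_index C).symm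
  have hmem : ∀ z : A, n • z = 0 → z ∈ C := fun z hz => mem_of_card_nsmul hz
  have hω : n • x ≠ 0 := fun h => hx (hmem x h)
  -- n (x - y) is a multiple of n x
  obtain ⟨k, hk⟩ := exists_zsmul_sub_mem hp hi hx (x - y)
  have h1 : k • (n • x) = n • (x - y) := by
    have h2 := card_nsmul_of_mem hk
    rw [← hn, smul_sub, sub_eq_zero] at h2
    rw [← h2, smul_comm]
  have h2 := affine hC hlr hi hpC hg (y := 0) (y' := x) (by rwa [sub_zero]) k
  rw [← hn, h0, hgx, sub_zero, h1] at h2
  have h3 := affine hC hlr hi hpC hg (y := y) (y' := x) hxy 1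
  rw [← hn, one_smul, one_smul, hgx, h2] at h3
  have h4 : n • (g y - y) = 0 := by
    have h5 := add_left_cancel h3
    rw [← sub_eq_zero, ← smul_sub] at h5
    convert h5 using 2; abel
  exact hmem _ h4

include hC hlr hp hi hpC in
/-- elements of order p are central for graded groups -/
lemma omega_central [IsAddCyclic A]
    (hgr : ∀ g ∈ G, ∀ x y, (g y - g x) - (y - x) ∈ C) {o : A} (ho : p • o = 0)
    {g : Equiv.Perm A} (hg : g ∈ G) (y : A) : g (y + o) = g y + o := by
  have : Fact p.Prime := ⟨hp⟩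
  set n : ℕ := Nat.card C with hn
  have hne : C ≠ ⊤ := by
    intro h
    rw [h, AddSubgroup.index_top] at hi
    exact hp.one_lt.ne hi
  obtain ⟨x, hx⟩ : ∃ x, x ∉ C := by
    by_contra hcon
    push Not at hcon
    exact hne (by ext z; simp [hcon z])
  have hω : n • x ≠ 0 := fun h => hx (mem_of_card_nsmul h)
  have hpω : p • (n • x) = 0 := by
    rw [← mul_smul, mul_comm, ← hi, hn, AddSubgroup.card_mul_index]
    exact card_nsmul_eq_zero'
  have hcard : p ∣ Nat.card (AddSubgroup.zmultiples (n • x)) := by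
    rw [Nat.card_zmultiples, addOrderOf_eq_prime hpω hω]
  obtain ⟨j, hj⟩ := AddSubgroup.mem_zmultiples_iff.1 (mem_of_nsmul_prime hp hcard ho)
  have h1 := affine hC hlr hi hpC hg (y := y - x) (y' := y) (by rwa [sub_sub_cancel]) j
  rw [← hn, sub_sub_cancel, hj] at h1
  rw [h1]
  congr 1
  rw [← hj]
  congr 1
  have h2 := card_nsmul_of_mem (hgr g hg (y - x) y)
  rw [sub_sub_cancel, ← hn, smul_sub, sub_eq_zero] at h2
  exact h2

end Affine

end Pool.Agent.Helper589TypeII
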