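import Mathlib

/-!
Permutations of a finite abelian group preserving a difference set: Schur's multiplier theorem
and the p-power trick.
-/

namespace Pool.Agent.Helper589TypeII

section Pres

variable {A : Type} [AddCommGroup A]

/-- The permutation g preserves the relation y - x ∈ T. -/
def Pres (g : Equiv.Perm A) (T : Set A) : Prop := ∀ x y, y - x ∈ T ↔ g y - g x ∈ T

/-- The permutation g preserves the function f of differences. -/
def PresF {R : Type} (g : Equiv.Perm A) (f : A → R) : Prop := ∀ x y, f (g y - g x) = f (y - x)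

lemma PresF.mul {R : Type} [CommSemiring R] [Finite A] {g : Equiv.Perm A}
    {f h : AddMonoidAlgebra R A} (hf : PresF g f.coeff) (hh : PresF g h.coeff) :
    PresF g (f * h).coeff := by
  classical
  have := Fintype.ofFinite A
  have key : ∀ z, (f * h).coeff z = ∑ a : A, f.coeff a * h.coeff (z - a) := by
    intro z
    rw [AddMonoidAlgebra.coeff_mul_apply_left, Finsupp.sum_fintype]
    · refine Finset.sum_congr rfl fun a _ => ?_
      congr 2
      abel
    · intro a; simp
  intro x y
  rw [key, key]
  have e1 : ∑ a : A, f.coeff a * h.coeff (y - x - a)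
      = ∑ a : A, f.coeff (a - x) * h.coeff (y - x - (a - x)) :=
    (Equiv.sum_comp (Equiv.subRight x) (fun a => f.coeff a * h.coeff (y - x - a))).symm
  have e2 : ∑ a : A, f.coeff a * h.coeff (g y - g x - a)
      = ∑ a : A, f.coeff (g a - g x) * h.coeff (g y - g x - (g a - g x)) :=
    (Equiv.sum_comp (g.trans (Equiv.subRight (g x)))
      (fun a => f.coeff a * h.coeff (g y - g x - a))).symm
  rw [e1, e2]
  refine Finset.sum_congr rfl fun a _ => ?_
  rw [hf x a]
  congr 1
  have := hh a y
  convert this using 2 <;> abel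

lemma PresF.one {R : Type} [CommSemiring R] {g : Equiv.Perm A} :
    PresF g (1 : AddMonoidAlgebra R A).coeff := by
  classical
  intro x y
  rw [AddMonoidAlgebra.one_def, AddMonoidAlgebra.coeff_single, Finsupp.single_apply,
    Finsupp.single_apply]
  congr 1
  apply propext
  constructor
  · intro h
    have : y = x := g.injective (sub_eq_zero.1 h.symm)
    rw [this, sub_self]
  · intro h
    have : y = x := sub_eq_zero.1 h.symm
    rw [this, sub_self]

lemma PresF.pow {R : Type} [CommSemiring R] [Finite A] {g : Equiv.Perm A}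
    {f : AddMonoidAlgebra R A} (hf : PresF g f.coeff) (n : ℕ) : PresF g (f ^ n).coeff := by
  induction n with
  | zero => rw [pow_zero]; exact PresF.one
  | succ n ih => rw [pow_succ]; exact ih.mul hf

open Classical in
/-- number of t in T with q t = z -/
noncomputable def fib [Fintype A] (q : ℕ) (T : Set A) (z : A) : ℕ :=
  (Finset.univ.filter (fun t => t ∈ T ∧ q • t = z)).card

lemma exists_of_fib_ne [Fintype A] {q : ℕ} {T : Set A} {z : A} (h : (fib q T z : ZMod q) ≠ 0) :
    ∃ t ∈ T, q • t = z := by
  classical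
  by_contra hcon
  push Not at hcon
  apply h
  have : fib q T z = 0 := by
    rw [fib, Finset.card_eq_zero, Finset.filter_eq_empty_iff]
    rintro t - ⟨ht, ht2⟩
    exact hcon t ht ht2
  rw [this, Nat.cast_zero]

lemma fib_eq_one [Fintype A] {q : ℕ} {T : Set A} {z t₀ : A}
    (h : ∀ t, (t ∈ T ∧ q • t = z) ↔ t = t₀) : fib q T z = 1 := by
  classical
  rw [fib, Finset.card_eq_one]
  refine ⟨t₀, ?_⟩
  ext u
  simp only [Finset.mem_filter, Finset.mem_univ, true_and, Finset.mem_singleton]
  exact h u

lemma fib_pres [Fintype A] {q : ℕ} (hq : q.Prime) {g : Equiv.Perm A} {T : Set A}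
    (hT : Pres g T) : PresF g (fun z => (fib q T z : ZMod q)) := by
  classical
  have : Fact q.Prime := ⟨hq⟩
  have : CharP (AddMonoidAlgebra (ZMod q) A) q :=
    charP_of_injective_algebraMap (algebraMap (ZMod q) (AddMonoidAlgebra (ZMod q) A)).injective q
  set f : AddMonoidAlgebra (ZMod q) A :=
    ∑ t ∈ Finset.univ.filter (fun t => t ∈ T), AddMonoidAlgebra.single t 1 with hf
  have hfz : ∀ z, f.coeff z = if z ∈ T then 1 else 0 := by
    intro z
    rw [hf, AddMonoidAlgebra.coeff_sum, Finsupp.finsetSum_apply]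
    simp only [AddMonoidAlgebra.coeff_single, Finsupp.single_apply]
    rw [Finset.sum_ite_eq']
    simp
  have hfp : PresF g f.coeff := by
    intro x y
    rw [hfz, hfz]
    simp only [hT x y]
  have hpow : f ^ q = ∑ t ∈ Finset.univ.filter (fun t => t ∈ T),
      AddMonoidAlgebra.single (q • t) (1 : ZMod q) := by
    rw [hf, sum_pow_char]
    refine Finset.sum_congr rfl fun t _ => ?_
    rw [AddMonoidAlgebra.single_pow, one_pow]
  have h2 := hfp.pow q
  have h3 : ∀ z, (f ^ q).coeff z = (fib q T z : ZMod q) := by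
    intro z
    rw [hpow, AddMonoidAlgebra.coeff_sum, Finsupp.finsetSum_apply]
    simp only [AddMonoidAlgebra.coeff_single, Finsupp.single_apply]
    rw [← Finset.sum_filter, Finset.sum_const, nsmul_eq_mul, mul_one, fib, Finset.filter_filter]
  intro x y
  have h4 := h2 x y
  rw [h3, h3] at h4
  exact h4

/-- the p-power trick -/
lemma pres_fib [Fintype A] {q : ℕ} (hq : q.Prime) {g : Equiv.Perm A} {T : Set A}
    (hT : Pres g T) : Pres g {z | (fib q T z : ZMod q) ≠ 0} := by
  intro x y
  have : (fib q T (g y - g x) : ZMod q) = fib q T (y - x) := fib_pres hq hT x y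
  change (fib q T (y - x) : ZMod q) ≠ 0 ↔ (fib q T (g y - g x) : ZMod q) ≠ 0
  rw [← this]

lemma zsmul_card_eq_zero [Finite A] (c : ℤ) (z : A) : (c * (Nat.card A : ℤ)) • z = 0 := by
  rw [mul_smul]
  have : ((Nat.card A : ℕ) : ℤ) • z = 0 := by
    rw [natCast_zsmul]; exact card_nsmul_eq_zero'
  rw [this, smul_zero]

lemma pres_image_prime [Finite A] {q : ℕ} (hq : q.Prime) (hqA : (Nat.card A).Coprime q)
    {g : Equiv.Perm A} {T : Set A} (hT : Pres g T) : Pres g {z | ∃ t ∈ T, q • t = z} := by
  classical
  have := Fintype.ofFinite A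
  have : Fact q.Prime := ⟨hq⟩
  have hinj : ∀ a b : A, q • a = q • b → a = b := fun a b h =>
    (nsmulCoprime hqA).injective h
  have h1 := pres_fib hq hT
  have h2 : {z | (fib q T z : ZMod q) ≠ 0} = {z | ∃ t ∈ T, q • t = z} := by
    ext z
    change (fib q T z : ZMod q) ≠ 0 ↔ ∃ t ∈ T, q • t = z
    constructor
    · intro h
      exact exists_of_fib_ne h
    · rintro ⟨t, ht, rfl⟩
      have : fib q T (q • t) = 1 := by
        refine fib_eq_one (t₀ := t) fun u => ?_
        constructor
        · rintro ⟨-, hu⟩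
          exact hinj _ _ hu
        · rintro rfl
          exact ⟨ht, rfl⟩
      rw [this, Nat.cast_one]
      exact one_ne_zero
  rw [h2] at h1
  exact h1

lemma pres_image [Finite A] (k : ℕ) : (Nat.card A).Coprime k →
    ∀ {g : Equiv.Perm A} {T : Set A}, Pres g T → Pres g {z | ∃ t ∈ T, k • t = z} := by
  induction k using induction_on_primes with
  | zero =>
    intro hk g T _ x y
    rw [Nat.coprime_zero_right] at hk
    have : Subsingleton A := (Nat.card_eq_one_iff_unique.1 hk).1
    rw [Subsingleton.elim (g y - g x) (y - x)]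
  | one =>
    intro _ g T hT x y
    simpa using hT x y
  | prime_mul p a hp ih =>
    intro hk g T hT
    have h1 := ih (Nat.Coprime.coprime_mul_left_right hk) hT
    have h2 := pres_image_prime hp (Nat.Coprime.coprime_mul_right_right hk) h1
    intro x y
    have h3 := h2 x y
    have h4 : ∀ z, z ∈ {z | ∃ t ∈ {z | ∃ t ∈ T, a • t = z}, p • t = z} ↔
        z ∈ {z | ∃ t ∈ T, (p * a) • t = z} := by
      intro z
      constructor
      · rintro ⟨_, ⟨t, ht, rfl⟩, rfl⟩
        exact ⟨t, ht, by rw [mul_smul]⟩
      · rintro ⟨t, ht, rfl⟩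
        exact ⟨a • t, ⟨t, ht, rfl⟩, by rw [mul_smul]⟩
    rw [h4, h4] at h3
    exact h3

/-- Schur's multiplier theorem -/
lemma pres_smul [Finite A] {k : ℤ} (hk : IsCoprime k (Nat.card A : ℤ)) {g : Equiv.Perm A}
    {T : Set A} (hT : Pres g T) : Pres g {z | k • z ∈ T} := by
  obtain ⟨a, b, hab⟩ := hk
  have hpos : (0 : ℤ) < Nat.card A := by exact_mod_cast Nat.card_pos
  set n : ℤ := (Nat.card A : ℤ) with hn
  set k' : ℕ := (a % n).toNat with hk'
  have hk'z : (k' : ℤ) = a % n := Int.toNat_of_nonneg (Int.emod_nonneg _ hpos.ne')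
  have hk'a : (k' : ℤ) = a - n * (a / n) := by rw [hk'z, Int.emod_def]
  have h1 : (k' : ℤ) * k = 1 + (-b - k * (a / n)) * n := by
    rw [hk'a]; linear_combination hab
  have hcop : (Nat.card A).Coprime k' := by
    rw [← Nat.isCoprime_iff_coprime]
    refine ⟨-(-b - k * (a / n)), k, ?_⟩
    rw [← hn]; linear_combination h1
  have h2 := pres_image k' hcop hT
  have h3 : ∀ z, z ∈ {z | ∃ t ∈ T, k' • t = z} ↔ z ∈ {z | k • z ∈ T} := by
    intro z
    constructor
    · rintro ⟨t, ht, rfl⟩
      change k • (k' • t) ∈ T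
      have : k • (k' • t) = t := by
        rw [← natCast_zsmul, ← mul_smul, mul_comm, h1, add_smul, one_smul, hn,
          zsmul_card_eq_zero, add_zero]
      rw [this]; exact ht
    · intro h
      refine ⟨k • z, h, ?_⟩
      rw [← natCast_zsmul, ← mul_smul, h1, add_smul, one_smul, hn,
          zsmul_card_eq_zero, add_zero]
  intro x y
  have h4 := h2 x y
  rw [h3, h3] at h4
  exact h4

end Pres

end Pool.Agent.Helper589TypeII
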