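import Pool.Agent.Helper589_TypeII.Radical

/-!
Maximal invariant subgroups with trivial radical and coprime index and order.
-/

namespace Pool.Agent.Helper589TypeII

variable {A : Type} [AddCommGroup A]

lemma two_nsmul_half [Finite A] (hodd : Odd (Nat.card A)) (d : A) :
    2 • (((Nat.card A + 1) / 2) • d) = d := by
  obtain ⟨k, hk⟩ := hodd
  have h1 : 2 * ((Nat.card A + 1) / 2) = Nat.card A + 1 := by omega
  rw [← mul_smul, h1, add_smul, one_smul, card_nsmul_eq_zero', zero_add]

lemma two_nsmul_inj [Finite A] (hodd : Odd (Nat.card A)) {a b : A} (h : 2 • a = 2 • b) : a = b :=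
  (nsmulCoprime (Nat.Coprime.symm (Nat.coprime_two_left.2 hodd))).injective h

open Classical in
lemma two_trick [Fintype A] (hodd : Odd (Nat.card A)) (H : AddSubgroup A) (T : Set A) {d : A}
    (hd : d ∈ H) :
    ((Finset.univ.filter (fun u => u ∈ H ∧ u ∈ T ∧ d - u ∈ T)).card : ZMod 2) = 1 ↔
      ((Nat.card A + 1) / 2) • d ∈ T := by
  set e : A := ((Nat.card A + 1) / 2) • d with he
  have he2 : 2 • e = d := two_nsmul_half hodd d
  have he3 : e + e = d := by rw [← two_nsmul, he2]
  have heH : e ∈ H := H.nsmul_mem hd _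
  set F := Finset.univ.filter (fun u => u ∈ H ∧ u ∈ T ∧ d - u ∈ T) with hF
  have h1 : ((F.filter (fun u => ¬ u = e)).card : ZMod 2) = 0 := by
    rw [Finset.cast_card]
    refine Finset.sum_involution (fun u _ => d - u) ?_ ?_ ?_ ?_
    · intro a _; decide
    · intro a ha _ h
      rw [Finset.mem_filter] at ha
      apply ha.2
      apply two_nsmul_inj hodd
      rw [he2, two_nsmul]
      nth_rewrite 1 [← h]
      abel
    · intro a ha
      rw [Finset.mem_filter, hF, Finset.mem_filter] at ha ⊢
      refine ⟨⟨Finset.mem_univ _, H.sub_mem hd ha.1.2.1, ha.1.2.2.2, ?_⟩, ?_⟩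
      · rw [sub_sub_cancel]; exact ha.1.2.2.1
      · intro h
        apply ha.2
        have : a = d - e := by rw [← h]; abel
        rw [this, ← he3]; abel
    · intro a _; abel
  have h2 := Finset.card_filter_add_card_filter_not (s := F) (fun u => u = e)
  have h3 : (F.card : ZMod 2) = ((F.filter (fun u => u = e)).card : ZMod 2) := by
    rw [← h2]; push_cast; rw [h1, add_zero]
  rw [h3]
  by_cases h : e ∈ T
  · have : F.filter (fun u => u = e) = {e} := by
      ext u
      rw [Finset.mem_filter, hF, Finset.mem_filter, Finset.mem_singleton]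
      constructor
      · rintro ⟨_, h⟩; exact h
      · rintro rfl
        refine ⟨⟨Finset.mem_univ _, heH, h, ?_⟩, rfl⟩
        have : d - e = e := by rw [← he3]; abel
        rw [this]; exact h
    rw [this]
    simp [h]
  · have : F.filter (fun u => u = e) = ∅ := by
      rw [Finset.filter_eq_empty_iff]
      rintro u hu rfl
      rw [hF, Finset.mem_filter] at hu
      exact h hu.2.2.1
    rw [this]
    simp [h]

/-- Integer acting as the projection onto C along the complement. -/
structure Kappa (C : AddSubgroup A) (κ : ℤ) : Prop where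
  mem : ∀ z : A, κ • z ∈ C
  fix : ∀ c ∈ C, κ • c = c
  kill : ∀ c : A, C.index • c = 0 → κ • c = 0
  compl : ∀ z : A, C.index • (z - κ • z) = 0
  cop1 : IsCoprime (1 - 2 * κ) (Nat.card A : ℤ)
  cop2 : IsCoprime (1 + κ) (Nat.card A : ℤ)

lemma exists_kappa [Finite A] (hodd : Odd (Nat.card A)) (C : AddSubgroup A)
    (hco : Nat.Coprime C.index (Nat.card C)) : ∃ κ : ℤ, Kappa C κ := by
  obtain ⟨a, b, hab⟩ := (Nat.isCoprime_iff_coprime.2 hco)
  set n : ℤ := (C.index : ℤ) with hn
  set c : ℤ := (Nat.card C : ℤ) with hc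
  have hN : (Nat.card A : ℤ) = c * n := by
    rw [hc, hn]; exact_mod_cast (AddSubgroup.card_mul_index C).symm
  have hnz : ∀ z : A, n • z ∈ C := by
    intro z
    rw [hn, natCast_zsmul]; exact index_nsmul_mem C z
  have hcz : ∀ z ∈ C, c • z = 0 := by
    intro z hz
    rw [hc, natCast_zsmul]
    have := card_nsmul_eq_zero' (x := (⟨z, hz⟩ : C))
    exact congrArg Subtype.val this
  have hNz : ∀ z : A, (c * n) • z = 0 := by
    intro z
    rw [← hN, natCast_zsmul]; exact card_nsmul_eq_zero'
  obtain ⟨h, hh⟩ : ∃ h : ℤ, c = 2 * h + 1 := by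
    have h1 : Odd (Nat.card C) := by
      have h2 : Nat.card C ∣ Nat.card A := AddSubgroup.card_addSubgroup_dvd_card C
      exact Odd.of_dvd_nat hodd h2
    obtain ⟨k, hk⟩ := h1
    exact ⟨k, by rw [hc, hk]; push_cast; ring⟩
  refine ⟨a * n, ⟨?_, ?_, ?_, ?_, ?_, ?_⟩⟩
  · intro z
    rw [mul_smul]; exact C.zsmul_mem (hnz z) a
  · intro z hz
    have : a * n = 1 - b * c := by linear_combination hab
    rw [this, sub_smul, one_smul, mul_smul, hcz z hz, smul_zero, sub_zero]
  · intro z hz
    rw [mul_smul, hn, natCast_zsmul, hz, smul_zero]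
  · intro z
    rw [← natCast_zsmul, ← hn]
    have : n • (z - (a * n) • z) = (b * (c * n)) • z := by
      have h1 : n • (z - (a * n) • z) = (n * (1 - a * n)) • z := by
        rw [mul_smul n, sub_smul 1, one_smul]
      rw [h1]
      congr 1
      linear_combination (-n) * hab
    rw [this, mul_smul, hNz, smul_zero]
  · refine ⟨1 - 2 * (a * n), 4 * a * b, ?_⟩
    rw [hN]
    linear_combination (4 * a * n) * hab
  · refine ⟨1 + a * n * h, -(a * h) + a * b * h - a * h * 0 + (-a) + a * h, ?_⟩
    rw [hN]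
    have hab' : b * c = 1 - a * n := by linear_combination hab
    have e1 : (1 + a * n * h) * (1 + a * n) + (-(a * h) + a * b * h - a * h * 0 + (-a) + a * h) * (c * n)
        = 1 + a * n + a * n * h + (a * n) * (a * n) * h + (a * n) * h * (b * c) - a * n * c := by ring
    rw [e1, hab', hh]
    ring

lemma two_nsmul_eq (z : A) : 2 • z = z + z := two_nsmul z

section GCL

variable [Finite A] (hodd : Odd (Nat.card A)) {G : Subgroup (Equiv.Perm A)} {C : AddSubgroup A}
  (hC : IsInv G (C : Set A)) {κ : ℤ} (hκ : Kappa C κ)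

include hodd hC hκ

/-- parity of the number of suitable two-step walks -/
lemma gcl_count {T : Set A} {y d c : A} (hd : d ∈ C) (hc : C.index • c = 0) :
    (((Set.ncard {z | z - y - c ∈ C ∧ (1 + κ) • (z - y) ∈ T ∧
      (1 + κ) • ((1 - 2 * κ) • (z - (y + d))) ∈ T} : ℕ) : ZMod 2) = 1) ↔ d + c ∈ T := by
  classical
  have := Fintype.ofFinite A
  set T' : Set A := {u | (1 + κ) • (u + c) ∈ T} with hT'
  have h1 := two_trick hodd C T' hd
  have hcκ : κ • c = 0 := hκ.kill c hc
  have h2 : ((Nat.card A + 1) / 2) • d ∈ T' ↔ d + c ∈ T := by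
    set e : A := ((Nat.card A + 1) / 2) • d with he
    have he2 : 2 • e = d := two_nsmul_half hodd d
    have heC : e ∈ C := C.nsmul_mem hd _
    change (1 + κ) • (e + c) ∈ T ↔ d + c ∈ T
    have : (1 + κ) • (e + c) = d + c := by
      rw [add_smul, one_smul, smul_add, hcκ, hκ.fix e heC, add_zero, ← he2, two_nsmul]
      abel
    rw [this]
  rw [h2] at h1
  rw [← h1]
  have h3 : Set.ncard {z | z - y - c ∈ C ∧ (1 + κ) • (z - y) ∈ T ∧
      (1 + κ) • ((1 - 2 * κ) • (z - (y + d))) ∈ T} =
      (Finset.univ.filter (fun u => u ∈ C ∧ u ∈ T' ∧ d - u ∈ T')).card := by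
    rw [← Set.ncard_coe_finset]
    apply Set.ncard_congr (fun z _ => z - y - c)
    · rintro z ⟨h4, h5, h6⟩
      rw [Finset.coe_filter]
      refine ⟨Finset.mem_univ _, h4, ?_, ?_⟩
      · change (1 + κ) • (z - y - c + c) ∈ T
        rw [sub_add_cancel]; exact h5
      · change (1 + κ) • (d - (z - y - c) + c) ∈ T
        have : (1 - 2 * κ) • (z - (y + d)) = d - (z - y - c) + c := by
          have e1 : z - (y + d) = ((z - y - c) - d) + c := by abel
          rw [e1, smul_add, sub_smul 1, sub_smul 1, one_smul, one_smul, mul_smul, mul_smul, hcκ,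
            hκ.fix _ (C.sub_mem h4 hd), smul_zero, sub_zero, two_zsmul]
          abel
        rw [← this]; exact h6
    · intro a b _ _ h
      have : a - (y + c) = b - (y + c) := by
        have e1 : a - (y + c) = a - y - c := by abel
        have e2 : b - (y + c) = b - y - c := by abel
        rw [e1, e2]; exact h
      exact sub_left_injective this
    · intro u hu
      rw [Finset.coe_filter] at hu
      obtain ⟨-, h4, h5, h6⟩ := hu
      refine ⟨y + c + u, ⟨?_, ?_, ?_⟩, by abel⟩
      · have : y + c + u - y - c = u := by abel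
        rw [this]; exact h4
      · have : y + c + u - y = u + c := by abel
        rw [this]; exact h5
      · have : (1 - 2 * κ) • (y + c + u - (y + d)) = d - u + c := by
          have e1 : y + c + u - (y + d) = (u - d) + c := by abel
          rw [e1, smul_add, sub_smul 1, sub_smul 1, one_smul, one_smul, mul_smul, mul_smul, hcκ,
            hκ.fix _ (C.sub_mem h4 hd), smul_zero, sub_zero, two_zsmul]
          abel
        rw [this]; exact h6
  rw [h3]

lemma gcl {g : Equiv.Perm A} (hg : g ∈ G) {T : Set A} (hT : IsInv G T) {y d c c' : A}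
    (hd : d ∈ C) (hc : C.index • c = 0) (hc' : C.index • c' = 0)
    (hcc : g (y + c) - g y - c' ∈ C) :
    d + c ∈ T ↔ (g (y + d) - g y) + c' ∈ T := by
  have hd' : g (y + d) - g y ∈ C := (hC g hg y (y + d)).1 (by rw [add_sub_cancel_left]; exact hd)
  rw [← gcl_count hodd hC hκ (T := T) (y := y) hd hc,
    ← gcl_count hodd hC hκ (T := T) (y := g y) hd' hc']
  have h1 : Set.ncard {z | z - y - c ∈ C ∧ (1 + κ) • (z - y) ∈ T ∧
      (1 + κ) • ((1 - 2 * κ) • (z - (y + d))) ∈ T} =
    Set.ncard {z | z - g y - c' ∈ C ∧ (1 + κ) • (z - g y) ∈ T ∧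
      (1 + κ) • ((1 - 2 * κ) • (z - (g y + (g (y + d) - g y)))) ∈ T} := by
    have hT1 : IsInv G {z | (1 + κ) • z ∈ T} := hT.smul hκ.cop2
    have hT2 : IsInv G {z | (1 + κ) • ((1 - 2 * κ) • z) ∈ T} := hT1.smul hκ.cop1
    have key : ∀ z, (z - y - c ∈ C ∧ (1 + κ) • (z - y) ∈ T ∧
        (1 + κ) • ((1 - 2 * κ) • (z - (y + d))) ∈ T) ↔
        (g z - g y - c' ∈ C ∧ (1 + κ) • (g z - g y) ∈ T ∧
        (1 + κ) • ((1 - 2 * κ) • (g z - (g y + (g (y + d) - g y)))) ∈ T) := by
      intro z
      rw [add_sub_cancel]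
      have e1 : z - y - c ∈ C ↔ g z - g y - c' ∈ C := by
        have e2 : z - (y + c) ∈ C ↔ g z - g (y + c) ∈ C := hC g hg (y + c) z
        have e3 : z - y - c = z - (y + c) := by abel
        have e4 : g z - g y - c' = (g z - g (y + c)) + (g (y + c) - g y - c') := by abel
        rw [e3, e2, e4]
        exact (AddSubgroup.add_mem_cancel_right _ hcc).symm
      have e5 : (1 + κ) • (z - y) ∈ T ↔ (1 + κ) • (g z - g y) ∈ T := hT1 g hg y z
      have e6 : (1 + κ) • ((1 - 2 * κ) • (z - (y + d))) ∈ T ↔
        (1 + κ) • ((1 - 2 * κ) • (g z - g (y + d))) ∈ T := hT2 g hg (y + d) z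
      rw [e1, e5, e6]
    apply Set.ncard_congr (fun z _ => g z)
    · intro z hz
      exact (key z).1 hz
    · intro a b _ _ h
      exact g.injective h
    · intro b hb
      refine ⟨g⁻¹ b, (key _).2 ?_, by simp⟩
      have : g (g⁻¹ b) = b := by simp
      rw [this]; exact hb
  rw [h1]

lemma gcl_rad {g : Equiv.Perm A} (hg : g ∈ G) {y c c' : A}
    (hc : C.index • c = 0) (hc' : C.index • c' = 0)
    (hcc : g (y + c) - g y - c' ∈ C) :
    g y + c' - g (y + c) ∈ lrad G C c' := by
  refine ⟨?_, fun T hT u hu => ?_⟩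
  · have := C.neg_mem hcc
    convert this using 1; abel
  · obtain ⟨v, hv⟩ : ∃ v, g v = g (y + c) - u := ⟨g⁻¹ (g (y + c) - u), by simp⟩
    have e1 : g v - g y ∈ C := by
      rw [hv]
      have := C.sub_mem hcc hu
      convert this using 1; abel
    have hvy : v - y ∈ C := (hC g hg y v).2 e1
    have hd : y - v ∈ C := by rw [← neg_sub]; exact C.neg_mem hvy
    have e2 : u = g (y + c) - g v := by rw [hv]; abel
    have e3 : u + (g y + c' - g (y + c)) = (g y - g v) + c' := by rw [hv]; abel
    rw [e3, e2]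
    have e4 : (y + c) - v ∈ T ↔ g (y + c) - g v ∈ T := hT g hg v (y + c)
    rw [← e4]
    have e5 : y + c - v = (y - v) + c := by abel
    rw [e5]
    have e6 := gcl hodd hC hκ hg hT (y := v) hd hc hc' (by
      have h1 : g (v + c) - g (y + c) ∈ C := by
        apply (hC g hg (y + c) (v + c)).1
        rw [add_sub_add_right_eq_sub]; exact hvy
      have h2 := C.add_mem (C.sub_mem h1 e1) hcc
      convert h2 using 1; abel)
    rw [add_sub_cancel] at e6
    exact e6

end GCL

/-- Product action modulo the trivial radical. -/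
theorem coprime_action [Finite A] [IsAddCyclic A] (hodd : Odd (Nat.card A))
    {G : Subgroup (Equiv.Perm A)} {C : AddSubgroup A} (hC : IsMaxInv G C) (hR : RadTriv G C)
    (hco : Nat.Coprime C.index (Nat.card C)) {g : Equiv.Perm A} (hg : g ∈ G) {c : A}
    (hc : C.index • c = 0) (y : A) : C.index • (g (y + c) - g y) = 0 := by
  obtain ⟨κ, hκ⟩ := exists_kappa hodd C hco
  -- for each prime q the q-part vanishes
  have hq : ∀ q : ℕ, q.Prime → q ∣ Nat.card C →
      ∃ r : ℕ, r.Coprime q ∧ r • (C.index • (g (y + c) - g y)) = 0 := by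
    intro q hq hqC
    let P : AddSubgroup A :=
      { carrier := {c | ∀ y, ∃ r : ℕ, r.Coprime q ∧ r • (C.index • (g (y + c) - g y)) = 0}
        zero_mem' := by
          intro y
          exact ⟨1, Nat.coprime_one_left q, by simp⟩
        add_mem' := by
          intro a b ha hb y
          obtain ⟨r, hr, hr2⟩ := ha y
          obtain ⟨s, hs, hs2⟩ := hb (y + a)
          refine ⟨r * s, Nat.Coprime.mul_left hr hs, ?_⟩
          have : g (y + (a + b)) - g y = (g (y + a + b) - g (y + a)) + (g (y + a) - g y) := by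
            rw [← add_assoc]; abel
          rw [this, smul_add, smul_add, mul_smul, hs2, smul_zero, zero_add, mul_comm, mul_smul,
            hr2, smul_zero]
        neg_mem' := by
          intro a ha y
          obtain ⟨r, hr, hr2⟩ := ha (y + -a)
          refine ⟨r, hr, ?_⟩
          rw [neg_add_cancel_right] at hr2
          have : g (y + -a) - g y = -(g y - g (y + -a)) := by abel
          rw [this, smul_neg, smul_neg, hr2, neg_zero] }
    let f : A →+ A := AddMonoidHom.id A - (zsmulAddGroupHom κ)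
    have hf : ∀ z, f z = z - κ • z := fun z => rfl
    have h1 : AddSubgroup.closure (rset G C q) ≤ P.comap f := by
      rw [AddSubgroup.closure_le]
      intro z hz y
      rw [hf]
      set c₀ : A := z - κ • z with hc₀
      have hc0 : C.index • c₀ = 0 := hκ.compl z
      have hc0r : c₀ ∈ rset G C q := by
        rw [hc₀, sub_eq_add_neg]
        exact rset_add hz (C.neg_mem (hκ.mem z))
      set c' : A := (g (y + c₀) - g y) - κ • (g (y + c₀) - g y) with hc'
      have hc'0 : C.index • c' = 0 := hκ.compl _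
      have hcc : g (y + c₀) - g y - c' ∈ C := by
        rw [hc', sub_sub_cancel]; exact hκ.mem _
      have hl := gcl_rad hodd hC.1 hκ hg hc0 hc'0 hcc
      have hc'r : c' ∈ rset G C q := by
        have h2 : g (y + c₀) - g y ∈ rset G C q := by
          apply (rset_inv hC.1 q g hg y (y + c₀)).1
          rw [add_sub_cancel_left]; exact hc0r
        rw [hc', sub_eq_add_neg]
        exact rset_add h2 (C.neg_mem (hκ.mem _))
      refine ⟨Nat.card (lrad G C c'), ?_, ?_⟩
      · exact ((Nat.Prime.coprime_iff_not_dvd hq).2 hc'r.2).symm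
      · have h3 : g (y + c₀) - g y = c' - (g y + c' - g (y + c₀)) := by abel
        rw [h3, smul_sub, hc'0, zero_sub, smul_neg, smul_comm]
        have h4 : Nat.card (lrad G C c') • (g y + c' - g (y + c₀)) = 0 := by
          have := card_nsmul_eq_zero' (x := (⟨_, hl⟩ : lrad G C c'))
          exact congrArg Subtype.val this
        rw [h4, smul_zero, neg_zero]
    rw [closure_rset hC hR hq hqC] at h1
    have h2 := h1 (AddSubgroup.mem_top c)
    have h3 : f c = c := by rw [hf, hκ.kill c hc, sub_zero]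
    have h4 : f c ∈ P := h2
    rw [h3] at h4
    exact h4 y
  set E : A := C.index • (g (y + c) - g y) with hE
  have hEC : E ∈ C := index_nsmul_mem C _
  by_contra hne
  have h1 : addOrderOf E ≠ 1 := by
    rw [Ne, AddMonoid.addOrderOf_eq_one_iff]; exact hne
  obtain ⟨q, hqp, hqd⟩ := Nat.exists_prime_and_dvd h1
  have h2 : addOrderOf E ∣ Nat.card C := by
    have h3 : addOrderOf (⟨E, hEC⟩ : C) = addOrderOf E :=
      (AddSubgroup.addOrderOf_coe (⟨E, hEC⟩ : C)).symm
    rw [← h3]; exact addOrderOf_dvd_natCard _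
  obtain ⟨r, hr, hr2⟩ := hq q hqp (dvd_trans hqd h2)
  have h3 : addOrderOf E ∣ r := addOrderOf_dvd_of_nsmul_eq_zero hr2
  have h4 : q ∣ r := dvd_trans hqd h3
  have h5 := Nat.Coprime.eq_one_of_dvd hr.symm h4
  exact hqp.one_lt.ne' h5

end Pool.Agent.Helper589TypeII
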