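import Pool.Agent.Helper589_TypeII.Quot

/-!
Existence of good elements outside the maximal invariant subgroup.
-/

namespace Pool.Agent.Helper589TypeII

variable {A : Type} [AddCommGroup A]

/-- good elements -/
def Good (G : Subgroup (TW A)) (C L : AddSubgroup A) (x' : A) : Prop :=
  ∀ σ ∈ G, σ.g 0 = 0 → σ.g x' = x' → ∀ c ∈ C, σ.g (c + x') - σ.g c - x' ∈ L

/-- G is minimal with translations and a nonzero type function. -/
def MinG (G : Subgroup (TW A)) : Prop :=
  ∀ H : Subgroup (TW A), H ≤ G → (∀ a, TW.tr a ∈ H) → (∃ σ ∈ H, ∃ x, σ.w x ≠ 0) → G ≤ H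

lemma odd_quot [Finite A] (hodd : Odd (Nat.card A)) (L : AddSubgroup A) :
    Odd (Nat.card (A ⧸ L)) :=
  Odd.of_dvd_nat hodd (AddSubgroup.card_quotient_dvd_card L)

lemma TW_pow_g (σ : TW A) (n : ℕ) (x : A) : (σ ^ n).g x = (σ.g ^ n) x := by
  induction n generalizing x with
  | zero => rfl
  | succ n ih => rw [pow_succ, pow_succ, TW.mul_g, Equiv.Perm.mul_apply, Equiv.Perm.mul_apply, ih]

lemma TW_pow_w (σ : TW A) (h0 : σ.g 0 = 0) (n : ℕ) :
    (σ ^ n).g 0 = 0 ∧ (σ ^ n).w 0 = n * σ.w 0 := by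
  induction n with
  | zero => simp
  | succ n ih =>
    obtain ⟨ih1, ih2⟩ := ih
    refine ⟨?_, ?_⟩
    · rw [pow_succ, TW.mul_g, Equiv.Perm.mul_apply, h0, ih1]
    · rw [pow_succ, TW.mul_w, h0, ih2]; push_cast; ring

lemma lift_pow {L : AddSubgroup A} {τ : TW A} {γ : Equiv.Perm (A ⧸ L)}
    (hγ : ∀ x : A, γ (x : A ⧸ L) = ((τ.g x : A) : A ⧸ L)) (n : ℕ) :
    ∀ x : A, (γ ^ n) (x : A ⧸ L) = (((τ ^ n).g x : A) : A ⧸ L) := by
  induction n with
  | zero => intro x; rfl
  | succ n ih =>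
    intro x
    rw [pow_succ, pow_succ, Equiv.Perm.mul_apply, hγ, ih, TW.mul_g, Equiv.Perm.mul_apply]

lemma mk_congr {G : Subgroup (TW A)} {L : AddSubgroup A} (hL : TInv G (L : Set A)) {σ : TW A}
    (hσ : σ ∈ G) {a b : A} (hab : (a : A ⧸ L) = b) : ((σ.g a : A) : A ⧸ L) = (σ.g b : A) := by
  rw [QuotientAddGroup.eq] at hab ⊢
  have h1 : σ.g b - σ.g a ∈ L := (hL σ hσ a b).1 (by
    change b - a ∈ L
    convert hab using 1; abel)
  convert h1 using 1; abel

/-- elements commuting with o modulo L -/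
def comG {G : Subgroup (TW A)} {L : AddSubgroup A} (hL : TInv G (L : Set A)) (o : A) :
    Subgroup (TW A) where
  carrier := {σ | σ ∈ G ∧ ∀ y, ((σ.g (y + o) : A) : A ⧸ L) = (σ.g y : A) + (o : A ⧸ L)}
  one_mem' := ⟨G.one_mem, fun y => rfl⟩
  mul_mem' := by
    rintro σ τ ⟨hσ, hσ'⟩ ⟨hτ, hτ'⟩
    refine ⟨G.mul_mem hσ hτ, fun y => ?_⟩
    have h1 := hτ' y
    rw [← QuotientAddGroup.mk_add] at h1
    have h2 := mk_congr hL hσ h1
    rw [TW.mul_g, Equiv.Perm.mul_apply, Equiv.Perm.mul_apply, h2, hσ']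
  inv_mem' := by
    rintro σ ⟨hσ, hσ'⟩
    refine ⟨G.inv_mem hσ, fun y => ?_⟩
    have h1 := hσ' (σ.g⁻¹ y)
    have h2 : σ.g (σ.g⁻¹ y) = y := by simp
    rw [h2, ← QuotientAddGroup.mk_add] at h1
    have h3 := mk_congr hL (G.inv_mem hσ) h1
    rw [TW.inv_g] at h3 ⊢
    rw [show σ.g⁻¹ (σ.g (σ.g⁻¹ y + o)) = σ.g⁻¹ y + o from by simp] at h3
    rw [← h3, QuotientAddGroup.mk_add]

lemma mem_comG {G : Subgroup (TW A)} {L : AddSubgroup A} (hL : TInv G (L : Set A)) (o : A)
    (σ : TW A) : σ ∈ comG hL o ↔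
      σ ∈ G ∧ ∀ y, ((σ.g (y + o) : A) : A ⧸ L) = (σ.g y : A) + (o : A ⧸ L) := Iff.rfl

/-- elements acting trivially on A/C up to translation -/
def grG (G : Subgroup (TW A)) (C : AddSubgroup A) : Subgroup (TW A) where
  carrier := {σ | σ ∈ G ∧ ∀ x y, (σ.g y - σ.g x) - (y - x) ∈ C}
  one_mem' := ⟨G.one_mem, fun x y => by simp [C.zero_mem]⟩
  mul_mem' := by
    rintro σ τ ⟨hσ, hσ'⟩ ⟨hτ, hτ'⟩
    refine ⟨G.mul_mem hσ hτ, fun x y => ?_⟩
    have h1 := C.add_mem (hσ' (τ.g x) (τ.g y)) (hτ' x y)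
    rw [TW.mul_g, Equiv.Perm.mul_apply, Equiv.Perm.mul_apply]
    convert h1 using 1; abel
  inv_mem' := by
    rintro σ ⟨hσ, hσ'⟩
    refine ⟨G.inv_mem hσ, fun x y => ?_⟩
    have h1 := C.neg_mem (hσ' (σ.g⁻¹ x) (σ.g⁻¹ y))
    rw [TW.inv_g]
    have h2 : σ.g (σ.g⁻¹ y) = y := by simp
    have h3 : σ.g (σ.g⁻¹ x) = x := by simp
    rw [h2, h3] at h1
    convert h1 using 1; abel

section

variable [Finite A] (hodd : Odd (Nat.card A)) {G : Subgroup (TW A)} {C L : AddSubgroup A}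
  (h : RD G C L)

include hodd h

lemma good_coprime [IsAddCyclic A]
    (hco : Nat.Coprime (C.map (QuotientAddGroup.mk' L)).index
      (Nat.card (C.map (QuotientAddGroup.mk' L)))) :
    ∃ x', x' ∉ C ∧ Good G C L x' ∧ Good G C L (-x') := by
  have hcyc : IsAddCyclic (A ⧸ L) := quot_cyclic L
  have hoddB := odd_quot hodd L
  obtain ⟨κ, hκ⟩ := exists_kappa hoddB _ hco
  obtain ⟨z, hz⟩ : ∃ z, z ∉ C := by
    by_contra hcon
    push Not at hcon
    exact h.neC (by ext z; simp [hcon z])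
  set n := (C.map (QuotientAddGroup.mk' L)).index with hn
  set zb : A ⧸ L := (z : A ⧸ L) with hzb
  obtain ⟨x', hx'⟩ := QuotientAddGroup.mk_surjective (zb - κ • zb)
  have hnx : n • (x' : A ⧸ L) = 0 := by rw [hx']; exact hκ.compl zb
  have hx'C : x' ∉ C := by
    rw [← h.mem_Cb, hx']
    intro h1
    apply hz
    rw [← h.mem_Cb, ← hzb]
    have h2 := AddSubgroup.add_mem _ h1 (hκ.mem zb)
    rwa [sub_add_cancel] at h2
  have key : ∀ x' : A, n • (x' : A ⧸ L) = 0 → Good G C L x' := by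
    intro x' hx' σ hσ h0 hx c hc
    obtain ⟨γ, hγ, hγ2⟩ := exists_lift h.invL hσ
    have h1 := coprime_action hoddB h.maxInv h.radTriv hco hγ hx' (c : A ⧸ L)
    rw [← hn, ← QuotientAddGroup.mk_add, hγ2, hγ2] at h1
    have hD : σ.g (c + x') - σ.g c - x' ∈ C := by
      have h2 : σ.g (c + x') - σ.g x' ∈ C := (h.invC σ hσ x' (c + x')).1 (by
        change c + x' - x' ∈ C
        rwa [add_sub_cancel_right])
      have h3 : σ.g c - σ.g 0 ∈ C := (h.invC σ hσ 0 c).1 (by
        change c - 0 ∈ C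
        rwa [sub_zero])
      rw [h0, sub_zero] at h3
      rw [hx] at h2
      have h4 := C.sub_mem h2 h3
      convert h4 using 1; abel
    rw [← QuotientAddGroup.eq_zero_iff]
    set D : A ⧸ L := ((σ.g (c + x') - σ.g c - x' : A) : A ⧸ L) with hDd
    have h2 : n • D = 0 := by
      rw [hDd, QuotientAddGroup.mk_sub, QuotientAddGroup.mk_sub, smul_sub, hx', sub_zero]
      exact h1
    have h3 : Nat.card (C.map (QuotientAddGroup.mk' L)) • D = 0 :=
      card_nsmul_of_mem ((h.mem_Cb _).2 hD)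
    have h4 := Nat.dvd_gcd (addOrderOf_dvd_of_nsmul_eq_zero h2) (addOrderOf_dvd_of_nsmul_eq_zero h3)
    rw [Nat.Coprime] at hco
    rw [hco, Nat.dvd_one] at h4
    exact AddMonoid.addOrderOf_eq_one_iff.1 h4
  exact ⟨x', hx'C, key x' hnx, key (-x') (by rw [QuotientAddGroup.mk_neg, smul_neg, hnx, neg_zero])⟩

variable (hb : TW.bsub G ≤ C) (hmin : MinG G)

include hb hmin

lemma n1_graded [IsAddCyclic A] {p : ℕ} (hp : p.Prime)
    (hi : (C.map (QuotientAddGroup.mk' L)).index = p)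
    (hpC : p ∣ Nat.card (C.map (QuotientAddGroup.mk' L))) :
    ∀ γ ∈ qgrp G L, ∀ x y, (γ y - γ x) - (y - x) ∈ C.map (QuotientAddGroup.mk' L) := by
  have hcyc : IsAddCyclic (A ⧸ L) := quot_cyclic L
  have hlr := lrad_eq_zero h.radTriv hp hi
  obtain ⟨z, hz⟩ : ∃ z, z ∉ C := by
    by_contra hcon
    push Not at hcon
    exact h.neC (by ext z; simp [hcon z])
  have hGH : G ≤ grG G C := by
    apply hmin
    · intro σ hσ; exact hσ.1
    · intro a
      refine ⟨h.tr a, fun x y => ?_⟩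
      rw [TW.tr_g, TW.tr_g]
      have : a + y - (a + x) - (y - x) = 0 := by abel
      rw [this]; exact C.zero_mem
    · obtain ⟨x', hx', σ, hσ, h0, h1, h2, -⟩ :=
        TW.exists_twist hodd G h.tr (fun h1 => hz (hb h1))
      have hx'C : x' ∉ C := by
        rcases hx' with rfl | rfl
        · exact hz
        · intro h3; apply hz; have := C.neg_mem h3; rwa [neg_neg] at this
      refine ⟨σ, ⟨hσ, ?_⟩, 0, by rw [h2]; decide⟩
      obtain ⟨γ, hγ, hγ2⟩ := exists_lift h.invL hσ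
      have h3 : γ 0 = 0 := by
        have := hγ2 0
        rw [h0] at this
        exact this
      have h4 : γ (x' : A ⧸ L) = (x' : A ⧸ L) := by rw [hγ2, h1]
      have h5 := graded_of_fix h.maxInv.1 hlr hp hi hpC hγ h3
        (x := (x' : A ⧸ L)) (by rw [h.mem_Cb]; exact hx'C) h4
      have h6 : ∀ y, σ.g y - y ∈ C := by
        intro y
        have h7 := h5 (y : A ⧸ L)
        rwa [hγ2, ← QuotientAddGroup.mk_sub, h.mem_Cb] at h7
      intro x y
      have h7 := C.sub_mem (h6 y) (h6 x)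
      convert h7 using 1; abel
  rintro γ ⟨σ, hσ, hσ2⟩ x y
  induction x using QuotientAddGroup.induction_on with
  | H x =>
    induction y using QuotientAddGroup.induction_on with
    | H y =>
      rw [hσ2, hσ2, ← QuotientAddGroup.mk_sub, ← QuotientAddGroup.mk_sub,
        ← QuotientAddGroup.mk_sub, h.mem_Cb]
      exact (hGH hσ).2 x y

lemma n1_step [IsAddCyclic A] {p e N' k : ℕ} {π : ℤ} {V : AddSubgroup (A ⧸ L)}
    (hL : Lad (qgrp G L) (C.map (QuotientAddGroup.mk' L)) V p e N' π k) {v : A ⧸ L}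
    (hv : p ^ (k + 1) • v = 0) : v ∈ cenSub (qgrp G L) := by
  have hcyc : IsAddCyclic (A ⧸ L) := quot_cyclic L
  have hoddB := odd_quot hodd L
  obtain ⟨z, hz⟩ : ∃ z, z ∉ C := by
    by_contra hcon
    push Not at hcon
    exact h.neC (by ext z; simp [hcon z])
  have hz' : (z : A ⧸ L) ∉ C.map (QuotientAddGroup.mk' L) := by rw [h.mem_Cb]; exact hz
  set ob : A ⧸ L := ((p : ℤ) ^ (e - k - 1) * π) • (z : A ⧸ L) with hob
  obtain ⟨o, ho⟩ := QuotientAddGroup.mk_surjective ob
  have hdef : ∀ γ ∈ qgrp G L, ∀ y, γ (y + ob) - γ y - ob ∈ cenSub (qgrp G L) := by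
    intro γ hγ y g hg y'
    exact hL.cen g hg y' _ (hL.defect hz' hγ y)
  obtain ⟨jb, hjb, hjb2⟩ := hL.period hz'
  have hjP : jb ∈ perSub (qgrp G L) ob := hjb2
  have hPinv := perSub_inv hdef (qgrp_tr h.tr)
  rw [qgrp_inv_iff h.invL] at hPinv
  have hGH : G ≤ comG h.invL o := by
    apply hmin
    · intro σ hσ; exact hσ.1
    · intro a
      refine ⟨h.tr a, fun y => ?_⟩
      rw [TW.tr_g, TW.tr_g, ← add_assoc, QuotientAddGroup.mk_add]
    · obtain ⟨j, hj⟩ := QuotientAddGroup.mk_surjective jb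
      have hjC : j ∉ C := by rw [← h.mem_Cb, hj]; exact hjb
      obtain ⟨x', hx', σ, hσ, h0, h1, h2, h3⟩ :=
        TW.exists_twist hodd G h.tr (fun h1 => hjC (hb h1))
      have hx'P : (x' : A ⧸ L) ∈ perSub (qgrp G L) ob := by
        rcases hx' with rfl | rfl
        · rw [hj]; exact hjP
        · rw [QuotientAddGroup.mk_neg, hj]; exact (perSub _ _).neg_mem hjP
      set τ : TW A := TW.tr (-x') * σ⁻¹ * TW.tr x' * σ with hτ
      have hτG : τ ∈ G := G.mul_mem (G.mul_mem (G.mul_mem (h.tr _) (G.inv_mem hσ)) (h.tr _)) hσ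
      have hσi : σ.g⁻¹ x' = x' := by rw [Equiv.Perm.inv_eq_iff_eq, h1]
      have hτg : ∀ y, τ.g y = -x' + σ.g⁻¹ (x' + σ.g y) := by
        intro y
        rw [hτ]
        simp [TW.mul_g, TW.inv_g]
      have hτ0 : τ.g 0 = 0 := by rw [hτg, h0, add_zero, hσi, neg_add_cancel]
      have hτw : τ.w 0 = 1 := by
        rw [hτ]
        simp [h0, h2, hσi, h3]
      have hτP : ∀ y, ((τ.g y - y : A) : A ⧸ L) ∈ perSub (qgrp G L) ob := by
        intro y
        have h4 := (hPinv σ⁻¹ (G.inv_mem hσ) (σ.g y) (x' + σ.g y)).1 (by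
          change ((x' + σ.g y - σ.g y : A) : A ⧸ L) ∈ perSub (qgrp G L) ob
          rw [add_sub_cancel_right]; exact hx'P)
        have h5 : ((σ.g⁻¹ (x' + σ.g y) - σ.g⁻¹ (σ.g y) : A) : A ⧸ L) ∈
          perSub (qgrp G L) ob := h4
        rw [show σ.g⁻¹ (σ.g y) = y from by simp] at h5
        have h6 := (perSub (qgrp G L) ob).sub_mem h5 hx'P
        rw [← QuotientAddGroup.mk_sub] at h6
        convert h6 using 2
        rw [hτg]; abel
      obtain ⟨γ, hγ, hγ2⟩ := exists_lift h.invL hτG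
      have hγP : ∀ y, γ y - y ∈ perSub (qgrp G L) ob := by
        intro y
        induction y using QuotientAddGroup.induction_on with
        | H y => rw [hγ2, ← QuotientAddGroup.mk_sub]; exact hτP y
      have hγn := lift_pow hγ2
      obtain ⟨s, m, hm, hsm⟩ := Nat.exists_eq_two_pow_mul_odd (n := orderOf τ)
        (orderOf_pos τ).ne'
      have hdp := fun n => (defect_pow hdef hγ hγP n).2
      have hz0 : ∀ y, m • (γ (y + ob) - γ y - ob) = 0 := by
        intro y
        have h4 := hdp (orderOf τ) y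
        have h5 : ∀ x : A ⧸ L, (γ ^ orderOf τ) x = x := by
          intro x
          induction x using QuotientAddGroup.induction_on with
          | H x => rw [hγn, pow_orderOf_eq_one]; rfl
        rw [h5, h5, hsm, mul_smul] at h4
        have h6 : (2 ^ s) • (m • (γ (y + ob) - γ y - ob)) = 0 := by
          rw [← h4]; abel
        have h7 : Nat.Coprime (Nat.card (A ⧸ L)) (2 ^ s) :=
          Nat.Coprime.pow_right s (Nat.Coprime.symm (Nat.coprime_two_left.2 hoddB))
        exact (nsmulCoprime h7).injective (by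
          change (2 ^ s) • (m • (γ (y + ob) - γ y - ob)) = (2 ^ s) • (0 : A ⧸ L)
          rw [h6, smul_zero])
      refine ⟨τ ^ m, ⟨G.pow_mem hτG m, fun y => ?_⟩, 0, ?_⟩
      · rw [← hγn, ← hγn, QuotientAddGroup.mk_add, ho]
        have h4 := hdp m (y : A ⧸ L)
        rw [hz0] at h4
        rw [sub_sub, sub_eq_zero] at h4
        exact h4
      · rw [(TW_pow_w τ hτ0 m).2, hτw, mul_one]
        obtain ⟨t, rfl⟩ := hm
        push_cast
        have : (2 : ZMod 2) = 0 := by decide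
        rw [this, zero_mul, zero_add]
        decide
  apply hL.next hz' _ hv
  rintro γ ⟨σ, hσ, hσ2⟩ y
  induction y using QuotientAddGroup.induction_on with
  | H y =>
    rw [← hob, ← ho, ← QuotientAddGroup.mk_add, hσ2, hσ2]
    exact (hGH hσ).2 y

lemma n1_central [IsAddCyclic A] {p e N' : ℕ} {π : ℤ}
    (hPP : PP (A ⧸ L) p e N' π)
    (hi : (C.map (QuotientAddGroup.mk' L)).index = p)
    (hpC : p ∣ Nat.card (C.map (QuotientAddGroup.mk' L))) (k : ℕ) (hk1 : 1 ≤ k) :
    k ≤ e → ∀ v : A ⧸ L, p ^ k • v = 0 → v ∈ cenSub (qgrp G L) := by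
  have hcyc : IsAddCyclic (A ⧸ L) := quot_cyclic L
  have hoddB := odd_quot hodd L
  have hgr := n1_graded hodd h hb hmin hPP.prime hi hpC
  have hlr := lrad_eq_zero h.radTriv hPP.prime hi
  have hpodd : Odd p := by
    apply Odd.of_dvd_nat hoddB
    rw [← hi]; exact AddSubgroup.index_dvd_card _
  induction k, hk1 using Nat.le_induction with
  | base =>
    intro _ v hv g hg y
    rw [pow_one] at hv
    exact omega_central h.maxInv.1 hlr hPP.prime hi hpC hgr hv hg y
  | succ k hk1 ih =>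
    intro hk v hv
    have ih' := ih (by omega)
    let V : AddSubgroup (A ⧸ L) := (nsmulAddMonoidHom (p ^ k)).ker
    have hV : ∀ v, v ∈ V ↔ p ^ k • v = 0 := fun v => Iff.rfl
    have hLad : Lad (qgrp G L) (C.map (QuotientAddGroup.mk' L)) V p e N' π k :=
      { tr := qgrp_tr h.tr
        gr := hgr
        lr := hlr
        pp := hPP
        podd := hpodd
        idx := hi
        k1 := hk1
        ke := by omega
        memV := hV
        cen := fun g hg y v hv => ih' v ((hV v).1 hv) g hg y }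
    exact n1_step hodd h hb hmin hLad hv

theorem exists_good [IsAddCyclic A] : ∃ x', x' ∉ C ∧ Good G C L x' ∧ Good G C L (-x') := by
  have hcyc : IsAddCyclic (A ⧸ L) := quot_cyclic L
  by_cases hco : Nat.Coprime (C.map (QuotientAddGroup.mk' L)).index
      (Nat.card (C.map (QuotientAddGroup.mk' L)))
  · exact good_coprime hodd h hco
  · rw [Nat.Prime.not_coprime_iff_dvd] at hco
    obtain ⟨p, hp, hpi, hpC⟩ := hco
    have hi := index_eq_prime h.maxInv h.radTriv hp hpC hpi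
    obtain ⟨e, N', π, hPP⟩ := exists_PP (A := A ⧸ L) hp
    have hpN : p ∣ Nat.card (A ⧸ L) := dvd_trans hpi (AddSubgroup.index_dvd_card _)
    have he : 1 ≤ e := by
      rcases Nat.eq_zero_or_pos e with h1 | h1
      · exfalso
        have h2 := hPP.card
        rw [h1, pow_zero, one_mul] at h2
        apply hPP.cop
        rw [← h2]; exact hpN
      · exact h1
    have hcen := n1_central hodd h hb hmin hPP hi hpC e he le_rfl
    obtain ⟨z, hz⟩ : ∃ z, z ∉ C := by
      by_contra hcon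
      push Not at hcon
      exact h.neC (by ext z; simp [hcon z])
    obtain ⟨x', hx'⟩ := QuotientAddGroup.mk_surjective (π • (z : A ⧸ L))
    have hx'C : x' ∉ C := by
      rw [← h.mem_Cb, hx']
      intro h1
      apply hz
      rw [← h.mem_Cb]
      obtain ⟨s, hs⟩ := hPP.one
      have h2 : (p : ℤ) ^ e = p ^ (e - 1) * p := by
        rw [← pow_succ]; congr 1; omega
      have h3 : (z : A ⧸ L) = π • (z : A ⧸ L) - (s * p ^ (e - 1)) • ((p : ℤ) • (z : A ⧸ L)) := by
        rw [← mul_smul, ← sub_smul]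
        have : π - s * (p : ℤ) ^ (e - 1) * p = 1 := by
          rw [h2] at hs
          linear_combination hs
        rw [this, one_smul]
      rw [h3]
      apply AddSubgroup.sub_mem _ h1
      apply AddSubgroup.zsmul_mem
      rw [natCast_zsmul, ← hi]
      exact index_nsmul_mem _ _
    have hx'0 : p ^ e • (x' : A ⧸ L) = 0 := by
      rw [hx']
      obtain ⟨s, hs⟩ := hPP.zero
      rw [← natCast_zsmul, ← mul_smul, hs]
      have : ((p ^ e : ℕ) : ℤ) * (N' * s) = s * (Nat.card (A ⧸ L) : ℤ) := by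
        rw [hPP.card]; push_cast; ring
      rw [this, zsmul_card_eq_zero]
    have key : ∀ x' : A, p ^ e • (x' : A ⧸ L) = 0 → Good G C L x' := by
      intro x' hx' σ hσ _ _ c _
      obtain ⟨γ, hγ, hγ2⟩ := exists_lift h.invL hσ
      have h1 := hcen _ hx' γ hγ (c : A ⧸ L)
      rw [← QuotientAddGroup.mk_add, hγ2, hγ2] at h1
      rw [← QuotientAddGroup.eq_zero_iff, QuotientAddGroup.mk_sub, QuotientAddGroup.mk_sub, h1,
        add_sub_cancel_left, sub_self]
    exact ⟨x', hx'C, key x' hx'0,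
      key (-x') (by rw [QuotientAddGroup.mk_neg, smul_neg, hx'0, neg_zero])⟩

end

end Pool.Agent.Helper589TypeII
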