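import Pool.Agent.Helper589_TypeII.Basic

/-!
Invariant difference sets of a permutation group containing the translations.
-/

namespace Pool.Agent.Helper589TypeII

variable {A : Type} [AddCommGroup A]

/-- T is a G-invariant difference set. -/
def IsInv (G : Subgroup (Equiv.Perm A)) (T : Set A) : Prop := ∀ g ∈ G, Pres g T

lemma isInv_of_imp {G : Subgroup (Equiv.Perm A)} {T : Set A}
    (h : ∀ g ∈ G, ∀ x y, y - x ∈ T → g y - g x ∈ T) : IsInv G T := by
  intro g hg x y
  refine ⟨h g hg x y, fun h1 => ?_⟩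
  have h2 := h g⁻¹ (G.inv_mem hg) _ _ h1
  simpa using h2

lemma IsInv.smul [Finite A] {G : Subgroup (Equiv.Perm A)} {T : Set A} (hT : IsInv G T) {k : ℤ}
    (hk : IsCoprime k (Nat.card A : ℤ)) : IsInv G {z | k • z ∈ T} :=
  fun g hg => pres_smul hk (hT g hg)

lemma IsInv.closure {G : Subgroup (Equiv.Perm A)} {T : Set A} (hT : IsInv G T) :
    IsInv G (AddSubgroup.closure T : Set A) := by
  apply isInv_of_imp
  intro g hg
  have key : ∀ z ∈ AddSubgroup.closure T, ∀ x, g (x + z) - g x ∈ AddSubgroup.closure T := by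
    intro z hz
    induction hz using AddSubgroup.closure_induction with
    | mem z hz =>
      intro x
      apply AddSubgroup.subset_closure
      rw [← hT g hg x (x + z), add_sub_cancel_left]
      exact hz
    | zero => intro x; simp
    | add a b _ _ ha hb =>
      intro x
      have h3 := AddSubgroup.add_mem _ (ha x) (hb (x + a))
      convert h3 using 1
      rw [← add_assoc]; abel
    | neg a _ ha =>
      intro x
      have h3 := AddSubgroup.neg_mem _ (ha (x + -a))
      convert h3 using 1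
      rw [neg_add_cancel_right]; abel
  intro x y h
  have := key _ h x
  rwa [add_sub_cancel] at this

lemma IsInv.sup {G : Subgroup (Equiv.Perm A)} {H K : AddSubgroup A} (hH : IsInv G (H : Set A))
    (hK : IsInv G (K : Set A)) : IsInv G ((H ⊔ K : AddSubgroup A) : Set A) := by
  have h1 : IsInv G ((H : Set A) ∪ K) := by
    intro g hg x y
    rw [Set.mem_union, Set.mem_union, hH g hg x y, hK g hg x y]
  have h2 := h1.closure
  have h3 : AddSubgroup.closure ((H : Set A) ∪ K) = H ⊔ K := by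
    rw [AddSubgroup.closure_union, AddSubgroup.closure_eq, AddSubgroup.closure_eq]
  rwa [h3] at h2

lemma IsInv.compl {G : Subgroup (Equiv.Perm A)} {T : Set A} (hT : IsInv G T) : IsInv G Tᶜ := by
  intro g hg x y
  rw [Set.mem_compl_iff, Set.mem_compl_iff, hT g hg x y]

lemma IsInv.inter {G : Subgroup (Equiv.Perm A)} {T S : Set A} (hT : IsInv G T) (hS : IsInv G S) :
    IsInv G (T ∩ S) := by
  intro g hg x y
  rw [Set.mem_inter_iff, Set.mem_inter_iff, hT g hg x y, hS g hg x y]

/-- the orbit of x under the stabilizer of 0 -/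
def orb (G : Subgroup (Equiv.Perm A)) (x : A) : Set A := {z | ∃ g ∈ G, g 0 = 0 ∧ g x = z}

lemma mem_orb_self (G : Subgroup (Equiv.Perm A)) (x : A) : x ∈ orb G x := ⟨1, G.one_mem, rfl, rfl⟩

lemma orb_inv {G : Subgroup (Equiv.Perm A)} (hA : ∀ a, Equiv.addLeft a ∈ G) (x : A) :
    IsInv G (orb G x) := by
  apply isInv_of_imp
  rintro g hg y y' ⟨h, hh, h0, h1⟩
  refine ⟨Equiv.addLeft (- g y) * g * Equiv.addLeft y * h,
      G.mul_mem (G.mul_mem (G.mul_mem (hA _) hg) (hA _)) hh, ?_, ?_⟩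
  · simp [h0]
  · simp only [Equiv.Perm.mul_apply, Equiv.coe_addLeft, h1]
    rw [add_sub_cancel]
    abel

lemma orb_subset {G : Subgroup (Equiv.Perm A)} {T : Set A} (hT : IsInv G T) {x : A} (hx : x ∈ T) :
    orb G x ⊆ T := by
  rintro z ⟨g, hg, h0, rfl⟩
  have := (hT g hg 0 x).1 (by simpa using hx)
  simpa [h0] using this

lemma orb_eq {G : Subgroup (Equiv.Perm A)} {x z : A} (hz : z ∈ orb G x) : orb G z = orb G x := by
  obtain ⟨g, hg, h0, rfl⟩ := hz
  have hg0 : g⁻¹ 0 = 0 := by rw [Equiv.Perm.inv_eq_iff_eq, h0]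
  ext w
  constructor
  · rintro ⟨h, hh, h1, rfl⟩
    exact ⟨h * g, G.mul_mem hh hg, by simp [h0, h1], rfl⟩
  · rintro ⟨h, hh, h1, rfl⟩
    exact ⟨h * g⁻¹, G.mul_mem hh (G.inv_mem hg), by rw [Equiv.Perm.mul_apply, hg0, h1], by simp⟩

/-- Twins: translations by l preserve all invariant sets on the coset z + C. -/
def lrad (G : Subgroup (Equiv.Perm A)) (C : AddSubgroup A) (z : A) : AddSubgroup A where
  carrier := {l | l ∈ C ∧ ∀ T, IsInv G T → ∀ u, u - z ∈ C → (u ∈ T ↔ u + l ∈ T)}
  zero_mem' := ⟨C.zero_mem, fun T _ u _ => by rw [add_zero]⟩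
  add_mem' := by
    rintro a b ⟨ha, ha'⟩ ⟨hb, hb'⟩
    refine ⟨C.add_mem ha hb, fun T hT u hu => ?_⟩
    rw [ha' T hT u hu, ← add_assoc]
    apply hb' T hT
    have : u + a - z = (u - z) + a := by abel
    rw [this]
    exact C.add_mem hu ha
  neg_mem' := by
    rintro a ⟨ha, ha'⟩
    refine ⟨C.neg_mem ha, fun T hT u hu => ?_⟩
    have h1 : u + -a - z ∈ C := by
      have : u + -a - z = (u - z) + -a := by abel
      rw [this]
      exact C.add_mem hu (C.neg_mem ha)
    have h2 := ha' T hT (u + -a) h1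
    rw [neg_add_cancel_right] at h2
    exact h2.symm

lemma mem_lrad {G : Subgroup (Equiv.Perm A)} {C : AddSubgroup A} {z l : A} :
    l ∈ lrad G C z ↔ l ∈ C ∧ ∀ T, IsInv G T → ∀ u, u - z ∈ C → (u ∈ T ↔ u + l ∈ T) := Iff.rfl

lemma lrad_le (G : Subgroup (Equiv.Perm A)) (C : AddSubgroup A) (z : A) : lrad G C z ≤ C :=
  fun _ h => h.1

lemma lrad_congr (G : Subgroup (Equiv.Perm A)) {C : AddSubgroup A} {z z' : A} (h : z - z' ∈ C) :
    lrad G C z = lrad G C z' := by
  have key : ∀ {z z' : A}, z - z' ∈ C → lrad G C z ≤ lrad G C z' := by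
    rintro z z' h l ⟨hl, hl'⟩
    refine ⟨hl, fun T hT u hu => hl' T hT u ?_⟩
    have : u - z = (u - z') - (z - z') := by abel
    rw [this]
    exact C.sub_mem hu h
  apply le_antisymm (key h) (key _)
  rw [← neg_sub]
  exact C.neg_mem h

lemma lrad_transport {G : Subgroup (Equiv.Perm A)} {C : AddSubgroup A} (hC : IsInv G (C : Set A))
    {g : Equiv.Perm A} (hg : g ∈ G) {a b y : A} (h : b - a ∈ lrad G C (a - y)) :
    g b - g a ∈ lrad G C (g a - g y) := by
  obtain ⟨h1, h2⟩ := h
  refine ⟨(hC g hg a b).1 h1, fun T hT u hu => ?_⟩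
  obtain ⟨v, hv⟩ : ∃ v, g v = g a - u := ⟨g⁻¹ (g a - u), by simp⟩
  have hu2 : u = g a - g v := by rw [hv]; abel
  have hu3 : u + (g b - g a) = g b - g v := by rw [hv]; abel
  rw [hu3, hu2]
  have e1 : a - v ∈ T ↔ g a - g v ∈ T := hT g hg v a
  have e2 : b - v ∈ T ↔ g b - g v ∈ T := hT g hg v b
  rw [← e1, ← e2]
  have h3 : b - v = (a - v) + (b - a) := by abel
  rw [h3]
  apply h2 T hT
  have h4 : a - v - (a - y) = y - v := by abel
  rw [h4]
  have h5 : y - v ∈ (C : Set A) ↔ g y - g v ∈ (C : Set A) := hC g hg v y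
  apply h5.2
  rw [hv]
  have h6 : g y - (g a - u) = u - (g a - g y) := by abel
  rw [h6]
  exact hu

lemma lrad_card {G : Subgroup (Equiv.Perm A)} {C : AddSubgroup A} (hC : IsInv G (C : Set A))
    {g : Equiv.Perm A} (hg : g ∈ G) (x y : A) :
    Nat.card (lrad G C (g y - g x)) = Nat.card (lrad G C (y - x)) := by
  symm
  refine Nat.card_congr
    { toFun := fun l => ⟨g (y + l) - g y, lrad_transport hC hg (by
        rw [add_sub_cancel_left]; exact l.2)⟩
      invFun := fun l => ⟨g⁻¹ (g y + l) - y, ?_⟩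
      left_inv := ?_
      right_inv := ?_ }
  · have h1 : (g y + l) - g y ∈ lrad G C (g y - g x) := by
      rw [add_sub_cancel_left]; exact l.2
    have h2 := lrad_transport hC (G.inv_mem hg) h1
    simpa using h2
  · intro l
    apply Subtype.ext
    simp
  · intro l
    apply Subtype.ext
    simp

/-- Set of differences outside C whose radical has order prime to q. -/
def rset (G : Subgroup (Equiv.Perm A)) (C : AddSubgroup A) (q : ℕ) : Set A :=
  {z | z ∉ C ∧ ¬ q ∣ Nat.card (lrad G C z)}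

lemma rset_inv {G : Subgroup (Equiv.Perm A)} {C : AddSubgroup A} (hC : IsInv G (C : Set A))
    (q : ℕ) : IsInv G (rset G C q) := by
  intro g hg x y
  have h1 : y - x ∈ C ↔ g y - g x ∈ C := hC g hg x y
  change (y - x ∉ C ∧ ¬ q ∣ Nat.card (lrad G C (y - x))) ↔
    (g y - g x ∉ C ∧ ¬ q ∣ Nat.card (lrad G C (g y - g x)))
  rw [h1, lrad_card hC hg]

lemma rset_add {G : Subgroup (Equiv.Perm A)} {C : AddSubgroup A} {q : ℕ} {z c : A}
    (hz : z ∈ rset G C q) (hc : c ∈ C) : z + c ∈ rset G C q := by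
  refine ⟨fun h => hz.1 ?_, ?_⟩
  · have := C.sub_mem h hc
    rwa [add_sub_cancel_right] at this
  · rw [lrad_congr G (z' := z) (by rw [add_sub_cancel_left]; exact hc)]
    exact hz.2

end Pool.Agent.Helper589TypeII
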