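import Pool.Agent.Helper589_TypeII.Affine

/-!
The ladder: centralising the p-part step by step.
-/

namespace Pool.Agent.Helper589TypeII

variable {A : Type} [AddCommGroup A]

lemma mem_orb_iff {G : Subgroup (Equiv.Perm A)} {x z : A} :
    z ∈ orb G x ↔ ∃ g ∈ G, g 0 = 0 ∧ g x = z := Iff.rfl

lemma orb_symm {G : Subgroup (Equiv.Perm A)} {x z : A} (h : z ∈ orb G x) : x ∈ orb G z := by
  rw [orb_eq h]; exact mem_orb_self G x

lemma smul_mem_orb [Finite A] {G : Subgroup (Equiv.Perm A)} (hA : ∀ a, Equiv.addLeft a ∈ G)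
    {b : ℤ} (hb : IsCoprime b (Nat.card A : ℤ)) {x z : A} (h : z ∈ orb G x) :
    b • z ∈ orb G (b • x) := by
  have h1 : IsInv G {w | b • w ∈ orb G (b • x)} := (orb_inv hA (b • x)).smul hb
  exact orb_subset h1 (mem_orb_self G (b • x)) h

/-- Twins for V-periodic invariant sets. -/
def lradV (G : Subgroup (Equiv.Perm A)) (V C : AddSubgroup A) (z : A) : AddSubgroup A where
  carrier := {l | l ∈ C ∧ ∀ T, IsInv G T → (∀ t ∈ T, ∀ v ∈ V, t + v ∈ T) →
    ∀ u, u - z ∈ C → (u ∈ T ↔ u + l ∈ T)}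
  zero_mem' := ⟨C.zero_mem, fun T _ _ u _ => by rw [add_zero]⟩
  add_mem' := by
    rintro a b ⟨ha, ha'⟩ ⟨hb, hb'⟩
    refine ⟨C.add_mem ha hb, fun T hT hV u hu => ?_⟩
    rw [ha' T hT hV u hu, ← add_assoc]
    apply hb' T hT hV
    have : u + a - z = (u - z) + a := by abel
    rw [this]
    exact C.add_mem hu ha
  neg_mem' := by
    rintro a ⟨ha, ha'⟩
    refine ⟨C.neg_mem ha, fun T hT hV u hu => ?_⟩
    have h1 : u + -a - z ∈ C := by
      have : u + -a - z = (u - z) + -a := by abel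
      rw [this]
      exact C.add_mem hu (C.neg_mem ha)
    have h2 := ha' T hT hV (u + -a) h1
    rw [neg_add_cancel_right] at h2
    exact h2.symm

/-- regular elements -/
def Reg (G : Subgroup (Equiv.Perm A)) (C V : AddSubgroup A) (x : A) : Prop :=
  x ∉ C ∧ ∀ v ∈ V, x + v ∈ orb G x → v = 0

/-- the V-saturation of an orbit -/
def sat (G : Subgroup (Equiv.Perm A)) (V : AddSubgroup A) (x : A) : Set A :=
  {t | ∃ v ∈ V, t + v ∈ orb G x}

/-- The standing assumptions of the ladder. -/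
structure Lad (G : Subgroup (Equiv.Perm A)) (C V : AddSubgroup A) (p e N' : ℕ) (π : ℤ)
    (k : ℕ) : Prop where
  tr : ∀ a, Equiv.addLeft a ∈ G
  gr : ∀ g ∈ G, ∀ x y, (g y - g x) - (y - x) ∈ C
  lr : ∀ z, z ∉ C → ∀ l ∈ lrad G C z, l = 0
  pp : PP A p e N' π
  podd : Odd p
  idx : C.index = p
  k1 : 1 ≤ k
  ke : k < e
  memV : ∀ v, v ∈ V ↔ p ^ k • v = 0
  cen : ∀ g ∈ G, ∀ y, ∀ v ∈ V, g (y + v) = g y + v

namespace Lad

variable [Finite A] {G : Subgroup (Equiv.Perm A)} {C V : AddSubgroup A} {p e N' : ℕ}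
  {π : ℤ} {k : ℕ} (h : Lad G C V p e N' π k)

include h

lemma pos : 0 < p := h.pp.prime.pos

lemma cardC : Nat.card C = p ^ (e - 1) * N' := by
  have h1 : Nat.card C * p = p ^ e * N' := by
    rw [← h.idx, AddSubgroup.card_mul_index, h.idx]; exact h.pp.card
  have h2 : p ^ e = p ^ (e - 1) * p := by
    rw [← pow_succ]; congr 1; have := h.ke; omega
  rw [h2] at h1
  have h3 : Nat.card C * p = (p ^ (e - 1) * N') * p := by rw [h1]; ring
  exact Nat.eq_of_mul_eq_mul_right h.pos h3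

lemma inv : IsInv G (C : Set A) := by
  intro g hg x y
  have h1 := h.gr g hg x y
  constructor
  · intro h2
    have h3 := C.add_mem h1 h2
    rwa [sub_add_cancel] at h3
  · intro h2
    have h3 := C.sub_mem h2 h1
    rwa [sub_sub_cancel] at h3

/-- elements killed by p^e are fixed by π -/
lemma pi_fix {z : A} (hz : p ^ e • z = 0) : π • z = z := by
  obtain ⟨s, hs⟩ := h.pp.one
  have h1 : π = 1 + s * ((p ^ e : ℕ) : ℤ) := by push_cast; linear_combination hs
  rw [h1, add_smul, one_smul, mul_smul, natCast_zsmul, hz, smul_zero, add_zero]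

lemma pi_kill (z : A) : p ^ e • (π • z) = 0 := by
  obtain ⟨s, hs⟩ := h.pp.zero
  rw [← natCast_zsmul, ← mul_smul, hs]
  have : ((p ^ e : ℕ) : ℤ) * (N' * s) = s * (Nat.card A : ℤ) := by
    rw [h.pp.card]; push_cast; ring
  rw [this, zsmul_card_eq_zero]

lemma pi_compl (z : A) : N' • (z - π • z) = 0 := by
  obtain ⟨s, hs⟩ := h.pp.one
  have h1 : N' • (z - π • z) = ((-s) * (Nat.card A : ℤ)) • z := by
    have : z - π • z = (1 - π) • z := by rw [sub_smul, one_smul]
    rw [this, ← natCast_zsmul, ← mul_smul]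
    congr 1
    rw [h.pp.card]; push_cast; linear_combination (-(N' : ℤ)) * hs
  rw [h1, zsmul_card_eq_zero]

lemma pi_zero {z : A} (hz : N' • z = 0) : π • z = 0 := by
  obtain ⟨s, hs⟩ := h.pp.zero
  rw [hs, mul_comm, mul_smul, natCast_zsmul, hz, smul_zero]

lemma top_mem {c : A} (hc : c ∈ C) : (((p : ℤ) ^ (e - 1)) * π) • c = 0 := by
  obtain ⟨s, hs⟩ := h.pp.zero
  have h1 := card_nsmul_of_mem hc
  rw [h.cardC] at h1
  have h2 : ((p : ℤ) ^ (e - 1)) * π = s * ((p ^ (e - 1) * N' : ℕ) : ℤ) := by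
    rw [hs]; push_cast; ring
  rw [h2, mul_smul, natCast_zsmul, h1, smul_zero]

lemma epow : (p : ℤ) ^ e = p ^ k * p ^ (e - k - 1) * p := by
  rw [← pow_add, ← pow_succ]
  congr 1
  have := h.ke
  omega

lemma epow1 : (p : ℤ) ^ (e - 1) = p ^ k * p ^ (e - k - 1) := by
  rw [← pow_add]
  congr 1
  have := h.ke
  omega

lemma a_mem {c : A} (hc : c ∈ C) : (((p : ℤ) ^ (e - k - 1)) * π) • c ∈ V := by
  rw [h.memV, ← natCast_zsmul, ← mul_smul]
  have h1 : ((p ^ k : ℕ) : ℤ) * ((p : ℤ) ^ (e - k - 1) * π) = (p : ℤ) ^ (e - 1) * π := by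
    rw [h.epow1]; push_cast; ring
  rw [h1]
  exact h.top_mem hc

lemma cop_mult : IsCoprime (1 + ((p : ℤ) ^ (e - k - 1)) * π) (Nat.card A : ℤ) := by
  have hp : Prime (p : ℤ) := Nat.prime_iff_prime_int.1 h.pp.prime
  rw [h.pp.card]
  push_cast
  apply IsCoprime.mul_right
  · apply IsCoprime.pow_right
    rw [isCoprime_comm]
    apply (Prime.coprime_iff_not_dvd hp).2
    intro hd
    by_cases hk : e - k - 1 = 0
    · rw [hk, pow_zero, one_mul] at hd
      have h1 : (p : ℤ) ∣ π - 1 := dvd_trans (dvd_pow_self _ (by have := h.ke; omega)) h.pp.one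
      have h2 : (p : ℤ) ∣ 2 := by
        have h3 : (2 : ℤ) = (1 + π) - (π - 1) := by ring
        rw [h3]; exact dvd_sub hd h1
      have h3 : p ∣ 2 := by exact_mod_cast h2
      have h4 := (Nat.prime_dvd_prime_iff_eq h.pp.prime Nat.prime_two).1 h3
      have := h.podd
      rw [h4] at this
      exact absurd this (by decide)
    · have h1 : (p : ℤ) ∣ (p : ℤ) ^ (e - k - 1) * π :=
        Dvd.dvd.mul_right (dvd_pow_self _ hk) _
      have h2 := (dvd_add_left h1).1 hd
      exact hp.not_isUnit (isUnit_of_dvd_one h2)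
  · obtain ⟨s, hs⟩ := h.pp.zero
    rw [hs]
    exact ⟨1, -((p : ℤ) ^ (e - k - 1) * s), by ring⟩

lemma V_le {v : A} (hv : v ∈ V) [IsAddCyclic A] : v ∈ C := by
  apply mem_of_card_nsmul
  rw [h.memV] at hv
  rw [h.cardC]
  have : p ^ (e - 1) * N' = (p ^ (e - k - 1) * N') * p ^ k := by
    have h1 : p ^ (e - 1) = p ^ (e - k - 1) * p ^ k := by
      rw [← pow_add]; congr 1; have := h.ke; omega
    rw [h1]; ring
  rw [this, mul_smul, hv, smul_zero]

lemma p_mem (z : A) : p • z ∈ C := by rw [← h.idx]; exact index_nsmul_mem C z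

lemma not_mem_of_smul {s : ℤ} {x : A} (hx : x ∉ C) (hs : s • x ∈ C) : (p : ℤ) ∣ s := by
  have hp : Prime (p : ℤ) := Nat.prime_iff_prime_int.1 h.pp.prime
  by_contra hd
  obtain ⟨u, v, huv⟩ := (Prime.coprime_iff_not_dvd hp).2 hd
  apply hx
  have h1 : x = u • ((p : ℤ) • x) + v • (s • x) := by
    rw [← mul_smul, ← mul_smul, ← add_smul, huv, one_smul]
  rw [h1]
  apply C.add_mem
  · apply C.zsmul_mem
    rw [natCast_zsmul]; exact h.p_mem x
  · exact C.zsmul_mem hs v

lemma top_ne [IsAddCyclic A] {x : A} (hx : x ∉ C) : (((p : ℤ) ^ (e - 1)) * π) • x ≠ 0 := by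
  intro h0
  have hp : Prime (p : ℤ) := Nat.prime_iff_prime_int.1 h.pp.prime
  have h1 : (p : ℤ) ∣ π - 1 := dvd_trans (dvd_pow_self _ (by have := h.ke; omega)) h.pp.one
  -- π • (card C • x) = 0
  have hpn : p • (Nat.card C • x) = 0 := by
    rw [← mul_smul, mul_comm, ← h.idx, AddSubgroup.card_mul_index]
    exact card_nsmul_eq_zero'
  have h2 : Nat.card C • x = 0 := by
    have h3 : π • (Nat.card C • x) = 0 := by
      rw [← natCast_zsmul, ← mul_smul, h.cardC]
      have : π * ((p ^ (e - 1) * N' : ℕ) : ℤ) = N' * ((p : ℤ) ^ (e - 1) * π) := by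
        push_cast; ring
      rw [this, mul_smul, h0, smul_zero]
    obtain ⟨s, hs⟩ := h1
    have h4 : (1 : ℤ) = π - s * p := by linear_combination -hs
    rw [← one_smul ℤ (Nat.card C • x), h4, sub_smul, h3, mul_smul, natCast_zsmul, hpn, smul_zero,
      sub_zero]
  exact hx (mem_of_card_nsmul h2)

lemma orb_sub {x z : A} (hz : z ∈ orb G x) : z - x ∈ C := by
  obtain ⟨g, hg, h0, rfl⟩ := hz
  have := h.gr g hg 0 x
  rwa [h0, sub_zero, sub_zero] at this

lemma orb_add {x z v : A} (hz : z ∈ orb G x) (hv : v ∈ V) : z + v ∈ orb G (x + v) := by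
  obtain ⟨g, hg, h0, rfl⟩ := hz
  exact ⟨g, hg, h0, h.cen g hg x v hv⟩

/-- stabiliser of the orbit of x in V -/
def W (x : A) : AddSubgroup A where
  carrier := {v | v ∈ V ∧ x + v ∈ orb G x}
  zero_mem' := ⟨V.zero_mem, by rw [add_zero]; exact mem_orb_self G x⟩
  add_mem' := by
    rintro a b ⟨ha, ha'⟩ ⟨hb, hb'⟩
    refine ⟨V.add_mem ha hb, ?_⟩
    have h1 := h.orb_add ha' hb
    rw [orb_eq hb', add_assoc] at h1
    exact h1
  neg_mem' := by
    rintro a ⟨ha, ha'⟩
    refine ⟨V.neg_mem ha, ?_⟩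
    have h1 := h.orb_add ha' (V.neg_mem ha)
    rw [add_neg_cancel_right] at h1
    exact orb_symm h1

lemma mem_W {x v : A} : v ∈ h.W x ↔ v ∈ V ∧ x + v ∈ orb G x := Iff.rfl

lemma add_mem_iff {x w v : A} (hw : w ∈ orb G x) (hv : v ∈ V) :
    w + v ∈ orb G x ↔ v ∈ h.W x := by
  rw [h.mem_W]
  have h1 := h.orb_add hw hv
  constructor
  · intro h2
    refine ⟨hv, ?_⟩
    rw [← orb_eq h2, orb_eq h1]
    exact mem_orb_self G _
  · rintro ⟨-, h2⟩
    rw [orb_eq h2] at h1
    exact h1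

lemma exists_reg [IsAddCyclic A] {z : A} (hz : z ∉ C) : ∃ x, x - z ∈ C ∧ Reg G C V x := by
  have : Fact p.Prime := ⟨h.pp.prime⟩
  by_contra hcon
  push Not at hcon
  have hpn : p • (Nat.card C • z) = 0 := by
    rw [← mul_smul, mul_comm, ← h.idx, AddSubgroup.card_mul_index]
    exact card_nsmul_eq_zero'
  have key : ∀ x, x - z ∈ C → Nat.card C • z ∈ h.W x := by
    intro x hx
    have h1 := hcon x hx
    have hxC : x ∉ C := by
      intro h2
      apply hz
      have := C.sub_mem h2 hx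
      rwa [sub_sub_cancel] at this
    have h2 : ∃ v ∈ V, x + v ∈ orb G x ∧ v ≠ 0 := by
      by_contra h3
      push Not at h3
      exact h1 ⟨hxC, h3⟩
    obtain ⟨v, hv, hvx, hv0⟩ := h2
    have hvW : v ∈ h.W x := ⟨hv, hvx⟩
    have h4 : addOrderOf v ∣ p ^ k := addOrderOf_dvd_of_nsmul_eq_zero ((h.memV v).1 hv)
    obtain ⟨j, hj, hj2⟩ := (Nat.dvd_prime_pow h.pp.prime).1 h4
    have hj0 : j ≠ 0 := by
      rintro rfl
      rw [pow_zero] at hj2
      exact hv0 (AddMonoid.addOrderOf_eq_one_iff.1 hj2)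
    have h5 : p ∣ Nat.card (h.W x) := by
      have h6 : addOrderOf (⟨v, hvW⟩ : h.W x) = addOrderOf v :=
        (AddSubgroup.addOrderOf_coe (⟨v, hvW⟩ : h.W x)).symm
      refine dvd_trans ?_ (addOrderOf_dvd_natCard (⟨v, hvW⟩ : h.W x))
      rw [h6, hj2]
      exact dvd_pow_self _ hj0
    exact mem_of_nsmul_prime h.pp.prime h5 hpn
  have h0 : Nat.card C • z ∈ lrad G C z := by
    have hoC : Nat.card C • z ∈ C := h.V_le (key z (by rw [sub_self]; exact C.zero_mem)).1
    refine ⟨hoC, fun T hT u hu => ?_⟩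
    constructor
    · intro h1
      exact orb_subset hT h1 (key u hu).2
    · intro h1
      have h2 := orb_subset hT h1 ((h.W _).neg_mem (key (u + Nat.card C • z) (by
        have : u + Nat.card C • z - z = (u - z) + Nat.card C • z := by abel
        rw [this]
        exact C.add_mem hu hoC))).2
      rwa [add_neg_cancel_right] at h2
  exact hz (mem_of_card_nsmul (h.lr z hz _ h0))

lemma orb_smul_iter {x : A} {b : ℤ} (hb : IsCoprime b (Nat.card A : ℤ)) (hx : b • x ∈ orb G x)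
    (n : ℕ) : b ^ n • x ∈ orb G x := by
  induction n with
  | zero => rw [pow_zero, one_smul]; exact mem_orb_self G x
  | succ n ih =>
    have h1 := smul_mem_orb h.tr hb ih
    rw [orb_eq hx] at h1
    rw [pow_succ', mul_smul]
    exact h1

/-- regular orbits meet p-cosets in a single point -/
lemma reg_single [IsAddCyclic A] {x z : A} (hx : Reg G C V x) (hz : p ^ e • z = 0)
    (hxz : x + z ∈ orb G x) : z = 0 := by
  have hp : Prime (p : ℤ) := Nat.prime_iff_prime_int.1 h.pp.prime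
  have : Fact p.Prime := ⟨h.pp.prime⟩
  by_contra hz0
  -- z is a multiple of π • x
  have h1 : addOrderOf (π • x) = p ^ e := by
    have he : e = (e - 1) + 1 := by have := h.ke; omega
    rw [he]
    apply addOrderOf_eq_prime_pow
    · rw [← natCast_zsmul, ← mul_smul]
      push_cast
      exact h.top_ne hx.1
    · rw [← he]; exact h.pi_kill x
  have h2 : z ∈ AddSubgroup.zmultiples (π • x) := by
    apply mem_of_card_nsmul
    rw [Nat.card_zmultiples, h1]; exact hz
  obtain ⟨s, hs⟩ := AddSubgroup.mem_zmultiples_iff.1 h2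
  have hzC : z ∈ C := by
    have := h.orb_sub hxz
    rwa [add_sub_cancel_left] at this
  have hπ1 : (p : ℤ) ∣ π - 1 := dvd_trans (dvd_pow_self _ (by have := h.ke; omega)) h.pp.one
  have hps : (p : ℤ) ∣ s := by
    apply h.not_mem_of_smul hx.1
    have h3 : s • x = z - (s * (π - 1)) • x := by
      rw [← hs, ← mul_smul, ← sub_smul]
      congr 1; ring
    rw [h3]
    apply C.sub_mem hzC
    obtain ⟨t, ht⟩ := hπ1
    rw [ht]
    have : s * (p * t) = (s * t) * (p : ℤ) := by ring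
    rw [this, mul_smul, natCast_zsmul]
    exact C.zsmul_mem (h.p_mem x) _
  set b : ℤ := 1 + s * π with hb
  have hbx : b • x = x + z := by rw [hb, add_smul, one_smul, mul_smul, hs]
  have hb1 : b - 1 = s * π := by rw [hb]; ring
  have hpb : (p : ℤ) ∣ b - 1 := by rw [hb1]; exact Dvd.dvd.mul_right hps _
  have hNb : (N' : ℤ) ∣ b - 1 := by rw [hb1]; exact Dvd.dvd.mul_left h.pp.zero _
  have hpb' : ¬ (p : ℤ) ∣ b := by
    intro h3
    have := dvd_sub h3 hpb
    rw [sub_sub_cancel] at this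
    exact hp.not_isUnit (isUnit_of_dvd_one this)
  have hpN : IsCoprime ((p : ℤ) ^ e) (N' : ℤ) := by
    apply IsCoprime.pow_left
    rw [Nat.isCoprime_iff_coprime]
    exact (Nat.Prime.coprime_iff_not_dvd h.pp.prime).2 h.pp.cop
  have hbe : ¬ (p : ℤ) ^ e ∣ b - 1 := by
    intro h3
    apply hz0
    obtain ⟨t, ht⟩ := hpN.mul_dvd h3 hNb
    have h4 : z = (t * (Nat.card A : ℤ)) • x := by
      have : t * (Nat.card A : ℤ) = b - 1 := by
        rw [ht, h.pp.card]; push_cast; ring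
      rw [this, sub_smul, one_smul, hbx, add_sub_cancel_left]
    rw [h4, zsmul_card_eq_zero]
  have hbc : IsCoprime b (Nat.card A : ℤ) := by
    rw [h.pp.card]
    push_cast
    apply IsCoprime.mul_right
    · apply IsCoprime.pow_right
      rw [isCoprime_comm]
      exact (Prime.coprime_iff_not_dvd hp).2 hpb'
    · obtain ⟨t, ht⟩ := hNb
      exact ⟨1, -t, by linear_combination ht⟩
  -- lifting the exponent
  have hfin : FiniteMultiplicity (p : ℤ) (b - 1) := by
    apply Int.finiteMultiplicity_iff.2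
    refine ⟨?_, ?_⟩
    · rw [Int.natAbs_natCast]; exact h.pp.prime.ne_one
    · intro h3; apply hbe; rw [h3]; exact dvd_zero _
  set r : ℕ := multiplicity (p : ℤ) (b - 1) with hr
  have hr1 : emultiplicity (p : ℤ) (b - 1) = r := hfin.emultiplicity_eq_multiplicity
  have hr2 : 1 ≤ r := by
    have h3 : ((1 : ℕ) : ℕ∞) ≤ emultiplicity (p : ℤ) (b - 1) := by
      rw [← pow_dvd_iff_le_emultiplicity, pow_one]; exact hpb
    rw [hr1] at h3
    exact_mod_cast h3
  have hr3 : r < e := by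
    by_contra h3
    apply hbe
    rw [pow_dvd_iff_le_emultiplicity, hr1]
    exact_mod_cast not_lt.1 h3
  have h5 := Int.emultiplicity_pow_sub_pow h.pp.prime h.podd (x := b) (y := 1) hpb hpb'
    (p ^ (e - 1 - r))
  rw [one_pow, hr1, emultiplicity_pow_self_of_prime h.pp.prime.prime] at h5
  have h6 : emultiplicity (p : ℤ) (b ^ p ^ (e - 1 - r) - 1) = ((e - 1 : ℕ) : ℕ∞) := by
    rw [h5]
    have : e - 1 = r + (e - 1 - r) := by omega
    nth_rewrite 2 [this]
    push_cast
    rfl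
  have h7 : (p : ℤ) ^ (e - 1) ∣ b ^ p ^ (e - 1 - r) - 1 := by
    rw [pow_dvd_iff_le_emultiplicity, h6]
  have h8 : ¬ (p : ℤ) ^ e ∣ b ^ p ^ (e - 1 - r) - 1 := by
    rw [pow_dvd_iff_le_emultiplicity, h6]
    intro h9
    have : e ≤ e - 1 := by exact_mod_cast h9
    omega
  have h9 : (N' : ℤ) ∣ b ^ p ^ (e - 1 - r) - 1 := dvd_trans hNb (sub_one_dvd_pow_sub_one b _)
  have hpN1 : IsCoprime ((p : ℤ) ^ (e - 1)) (N' : ℤ) := by
    apply IsCoprime.pow_left
    rw [Nat.isCoprime_iff_coprime]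
    exact (Nat.Prime.coprime_iff_not_dvd h.pp.prime).2 h.pp.cop
  obtain ⟨c, hc⟩ := hpN1.mul_dvd h7 h9
  have hpc : ¬ (p : ℤ) ∣ c := by
    rintro ⟨c', rfl⟩
    apply h8
    refine ⟨N' * c', ?_⟩
    rw [hc]
    have : (p : ℤ) ^ e = p ^ (e - 1) * p := by
      rw [← pow_succ]; congr 1; omega
    rw [this]; ring
  have h10 := h.orb_smul_iter hbc (by rw [hbx]; exact hxz) (p ^ (e - 1 - r))
  have h11 : b ^ p ^ (e - 1 - r) • x = x + c • (Nat.card C • x) := by
    have : b ^ p ^ (e - 1 - r) = 1 + c * (Nat.card C : ℤ) := by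
      rw [h.cardC]; push_cast; linear_combination hc
    rw [this, add_smul, one_smul, mul_smul, natCast_zsmul]
  rw [h11] at h10
  have hpn : p • (Nat.card C • x) = 0 := by
    rw [← mul_smul, mul_comm, ← h.idx, AddSubgroup.card_mul_index]
    exact card_nsmul_eq_zero'
  have h12 : c • (Nat.card C • x) ∈ V := by
    apply V.zsmul_mem
    rw [h.memV]
    have : p ^ k = p ^ (k - 1) * p := by
      rw [← pow_succ]; congr 1; have := h.k1; omega
    rw [this, mul_smul, hpn, smul_zero]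
  have h13 := hx.2 _ h12 h10
  obtain ⟨u, v, huv⟩ := (Prime.coprime_iff_not_dvd hp).2 hpc
  have h14 : Nat.card C • x = 0 := by
    rw [← one_smul ℤ (Nat.card C • x), ← huv, add_smul, mul_smul, natCast_zsmul, hpn, smul_zero,
      zero_add, mul_smul, h13, smul_zero]
  exact hx.1 (mem_of_card_nsmul h14)

lemma sat_inv (x : A) : IsInv G (sat G V x) := by
  apply isInv_of_imp
  rintro g hg y y' ⟨v, hv, hv2⟩
  refine ⟨v, hv, ?_⟩
  have h1 := (orb_inv h.tr x g hg y (y' + v)).1 (by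
    convert hv2 using 1; abel)
  rw [h.cen g hg y' v hv] at h1
  convert h1 using 1; abel

lemma sat_V (x : A) : ∀ t ∈ sat G V x, ∀ v ∈ V, t + v ∈ sat G V x := by
  rintro t ⟨v, hv, hv2⟩ v' hv'
  refine ⟨v - v', V.sub_mem hv hv', ?_⟩
  convert hv2 using 1; abel

lemma mem_sat_of_orb {x t : A} (ht : t ∈ orb G x) : t ∈ sat G V x :=
  ⟨0, V.zero_mem, by rwa [add_zero]⟩

lemma lradV_p [IsAddCyclic A] {z l : A} (hz : z ∉ C) (hl : l ∈ lradV G V C z)
    (hpl : p ^ e • l = 0) : l ∈ V := by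
  obtain ⟨x, hxz, hx⟩ := h.exists_reg hz
  obtain ⟨v, hv, hv2⟩ := (hl.2 _ (h.sat_inv x) (h.sat_V x) x hxz).1
    (h.mem_sat_of_orb (mem_orb_self G x))
  have hve : p ^ e • v = 0 := by
    have : p ^ e = p ^ (e - k) * p ^ k := by
      rw [← pow_add]; congr 1; have := h.ke; omega
    rw [this, mul_smul, (h.memV v).1 hv, smul_zero]
  have h1 := h.reg_single hx (z := l + v) (by rw [smul_add, hpl, hve, add_zero]) (by
    rw [← add_assoc]; exact hv2)
  have h2 : l = -v := eq_neg_of_add_eq_zero_left h1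
  rw [h2]; exact V.neg_mem hv

end Lad

end Pool.Agent.Helper589TypeII
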