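import Pool.Agent.Helper589_TypeII.Ladder

/-!
The ladder, second part: averaging and the periodicity of the defect.
-/

namespace Pool.Agent.Helper589TypeII

variable {A : Type} [AddCommGroup A]

namespace Lad

variable [Finite A] {G : Subgroup (Equiv.Perm A)} {C V : AddSubgroup A} {p e N' : ℕ}
  {π : ℤ} {k : ℕ} (h : Lad G C V p e N' π k)

include h

lemma lradV_inv {z m y : A} (hm : m ∈ lradV G V C z) {g : Equiv.Perm A} (hg : g ∈ G) :
    g (y + m) - g y ∈ lradV G V C z := by
  obtain ⟨h1, h2⟩ := hm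
  have h3 : g (y + m) - g y ∈ C := (h.inv g hg y (y + m)).1 (by rwa [add_sub_cancel_left])
  refine ⟨h3, fun T hT hV u hu => ?_⟩
  obtain ⟨v, hv⟩ : ∃ v, g v = g y - u := ⟨g⁻¹ (g y - u), by simp⟩
  have e1 : y - v ∈ T ↔ g y - g v ∈ T := hT g hg v y
  have e2 : y + m - v ∈ T ↔ g (y + m) - g v ∈ T := hT g hg v (y + m)
  have e3 : g y - g v = u := by rw [hv]; abel
  have e4 : g (y + m) - g v = u + (g (y + m) - g y) := by rw [hv]; abel
  rw [e3] at e1
  rw [e4] at e2
  rw [← e1, ← e2]
  have e5 : y + m - v = (y - v) + m := by abel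
  rw [e5]
  apply h2 T hT hV
  have e6 := h.gr g hg v y
  rw [e3] at e6
  have e7 := C.sub_mem hu e6
  convert e7 using 1; abel

lemma V_le_lradV [IsAddCyclic A] {z v : A} (hv : v ∈ V) : v ∈ lradV G V C z := by
  refine ⟨h.V_le hv, fun T _ hV u _ => ⟨fun h1 => hV u h1 v hv, fun h1 => ?_⟩⟩
  have h2 := hV _ h1 (-v) (V.neg_mem hv)
  rwa [add_neg_cancel_right] at h2

lemma mem_V_of_smul {n : ℕ} (hn : Nat.Coprime n p) {W : AddSubgroup A} {v : A} (hv : v ∈ V)
    (hnv : n • v ∈ W) : v ∈ W := by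
  have h1 : IsCoprime (n : ℤ) ((p ^ k : ℕ) : ℤ) := by
    rw [Nat.isCoprime_iff_coprime]
    exact Nat.Coprime.pow_right k hn
  obtain ⟨s, t, hst⟩ := h1
  rw [← one_smul ℤ v, ← hst, add_smul, mul_smul, mul_smul, natCast_zsmul, natCast_zsmul,
    (h.memV v).1 hv, smul_zero, add_zero]
  exact W.zsmul_mem hnv s

lemma pi_mem {m : A} {z : A} (hz : z ∉ C) (hm : m ∈ lradV G V C z) [IsAddCyclic A] :
    π • m ∈ V :=
  h.lradV_p hz (AddSubgroup.zsmul_mem _ hm π) (h.pi_kill m)

/-- the p'-part of the twin group stabilises every orbit -/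
lemma averaging [IsAddCyclic A] {z x : A} (hz : z ∉ C) (hxz : x - z ∈ C) {l₁ : A}
    (hl₁ : l₁ ∈ lradV G V C z) (hNl : N' • l₁ = 0) : x + l₁ ∈ orb G x := by
  classical
  have := Fintype.ofFinite A
  set M := lradV G V C z with hM
  let L' : AddSubgroup A :=
    { carrier := {l | l ∈ M ∧ N' • l = 0}
      zero_mem' := ⟨M.zero_mem, smul_zero _⟩
      add_mem' := by
        rintro a b ⟨ha, ha'⟩ ⟨hb, hb'⟩
        exact ⟨M.add_mem ha hb, by rw [smul_add, ha', hb', add_zero]⟩
      neg_mem' := by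
        rintro a ⟨ha, ha'⟩
        exact ⟨M.neg_mem ha, by rw [smul_neg, ha', neg_zero]⟩ }
  have hL' : ∀ l, l ∈ L' ↔ l ∈ M ∧ N' • l = 0 := fun l => Iff.rfl
  have hcop : Nat.Coprime (Nat.card L') p := by
    rw [Nat.coprime_comm]
    apply (Nat.Prime.coprime_iff_not_dvd h.pp.prime).2
    intro hd
    have : Fact p.Prime := ⟨h.pp.prime⟩
    obtain ⟨o, ho⟩ := exists_prime_addOrderOf_dvd_card' (G := L') p hd
    have h1 : N' • o = 0 := Subtype.ext o.2.2
    have h2 := addOrderOf_dvd_of_nsmul_eq_zero h1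
    rw [ho] at h2
    exact h.pp.cop h2
  have hsat : ∀ u ∈ sat G V x, u - z ∈ C := by
    rintro u ⟨v, hv, hv2⟩
    have h1 := h.orb_sub hv2
    have h2 := C.sub_mem (C.add_mem h1 hxz) (h.V_le hv)
    convert h2 using 1; abel
  have hsatM : ∀ u ∈ sat G V x, ∀ m ∈ M, u + m ∈ sat G V x := by
    intro u hu m hm
    exact (hm.2 _ (h.sat_inv x) (h.sat_V x) u (hsat u hu)).1 hu
  set W := h.W x with hW
  let f : A → A := fun u => if hu : ∃ v ∈ V, u + v ∈ orb G x then hu.choose else 0
  have hf : ∀ u ∈ sat G V x, f u ∈ V ∧ u + f u ∈ orb G x := by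
    intro u hu
    have h1 : ∃ v ∈ V, u + v ∈ orb G x := hu
    have h2 : f u = h1.choose := dif_pos h1
    rw [h2]
    exact h1.choose_spec
  let F : A → A ⧸ W := fun u => QuotientAddGroup.mk (f u)
  have P1 : ∀ u v, v ∈ V → u + v ∈ orb G x → F u = QuotientAddGroup.mk v := by
    intro u v hv huv
    obtain ⟨h1, h2⟩ := hf u ⟨v, hv, huv⟩
    change (QuotientAddGroup.mk (f u) : A ⧸ W) = QuotientAddGroup.mk v
    rw [QuotientAddGroup.eq]
    rw [hW, ← h.add_mem_iff h2 (V.add_mem (V.neg_mem h1) hv)]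
    convert huv using 1; abel
  have P2 : ∀ u ∈ sat G V x, ∀ v ∈ V, F (u + v) = F u - QuotientAddGroup.mk v := by
    intro u hu v hv
    obtain ⟨h1, h2⟩ := hf u hu
    rw [P1 (u + v) (f u - v) (V.sub_mem h1 hv) (by convert h2 using 1; abel)]
    rfl
  have P3 : ∀ g ∈ G, ∀ y y', y - y' ∈ sat G V x → F (g y - g y') = F (y - y') := by
    intro g hg y y' hy
    obtain ⟨h1, h2⟩ := hf _ hy
    rw [P1 (g y - g y') (f (y - y')) h1]
    have h3 := (orb_inv h.tr x g hg y' (y + f (y - y'))).1 (by convert h2 using 1; abel)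
    rw [h.cen g hg y _ h1] at h3
    convert h3 using 1; abel
  let S : A → A ⧸ W := fun u => ∑ l : L', F (u + l)
  have hLM : ∀ l : L', (l : A) ∈ M := fun l => l.2.1
  -- the induced bijections
  let lam : Equiv.Perm A → A → L' → L' := fun g y l =>
    if hg : g ∈ G then ⟨(g (y + l) - g y) - π • (g (y + l) - g y), by
      have h1 := h.lradV_inv (y := y) (hLM l) hg
      exact ⟨M.sub_mem h1 (M.zsmul_mem h1 π), h.pi_compl _⟩⟩ else 0
  have hlam : ∀ g ∈ G, ∀ y, ∀ l : L',
      g (y + l) = g y + (lam g y l : A) + π • (g (y + l) - g y) := by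
    intro g hg y l
    have h1 : (lam g y l : A) = (g (y + l) - g y) - π • (g (y + l) - g y) := by
      change ((if hg : g ∈ G then _ else _ : L') : A) = _
      rw [dif_pos hg]
    rw [h1]; abel
  have halV : ∀ g ∈ G, ∀ y, ∀ l : L', π • (g (y + l) - g y) ∈ V := fun g hg y l =>
    h.pi_mem hz (h.lradV_inv (y := y) (hLM l) hg)
  have hinj : ∀ g ∈ G, ∀ y, Function.Injective (lam g y) := by
    intro g hg y l l' hll
    have h1 := hlam g hg y l
    have h2 := hlam g hg y l'
    rw [hll] at h1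
    set v := π • (g (y + l) - g y) - π • (g (y + l') - g y) with hv
    have hvV : v ∈ V := V.sub_mem (halV g hg y l) (halV g hg y l')
    have h3 : g (y + l) = g (y + l' + v) := by
      rw [h.cen g hg _ v hvV, h2, h1, hv]
      abel
    have h4 : (l : A) - l' = v := by
      have := g.injective h3
      have h5 : (l : A) - l' = (y + l) - (y + l') := by abel
      rw [h5, this]; abel
    have h6 : p ^ k • ((l : A) - l') = 0 := by rw [h4]; exact (h.memV v).1 hvV
    have h7 : π • ((l : A) - l') = 0 := h.pi_zero (by rw [smul_sub, l.2.2, l'.2.2, sub_zero])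
    have h8 : (l : A) - l' = 0 := by
      rw [← h7]
      symm
      apply h.pi_fix
      have : p ^ e = p ^ (e - k) * p ^ k := by
        rw [← pow_add]; congr 1; have := h.ke; omega
      rw [this, mul_smul, h6, smul_zero]
    exact Subtype.ext (sub_eq_zero.1 h8)
  let be : Equiv.Perm A → A → A ⧸ W := fun g y =>
    ∑ l : L', (QuotientAddGroup.mk (π • (g (y + l) - g y)) : A ⧸ W)
  have E1 : ∀ g ∈ G, ∀ y y', y - y' ∈ sat G V x → S (y - y') = S (g y - g y') - be g y := by
    intro g hg y y' hy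
    have hgy : g y - g y' ∈ sat G V x := (h.sat_inv x g hg y' y).1 hy
    have h1 : S (y - y') = ∑ l : L', (F (g y - g y' + lam g y l) -
        QuotientAddGroup.mk (π • (g (y + l) - g y))) := by
      refine Finset.sum_congr rfl fun l _ => ?_
      have h2 : y - y' + (l : A) = (y + l) - y' := by abel
      rw [h2, ← P3 g hg (y + l) y' (by rw [← h2]; exact hsatM _ hy _ (hLM l))]
      have h3 : g (y + l) - g y' = (g y - g y' + lam g y l) + π • (g (y + l) - g y) := by
        nth_rewrite 1 [hlam g hg y l]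
        abel
      rw [h3, P2 _ (hsatM _ hgy _ (hLM _)) _ (halV g hg y l)]
    rw [h1, Finset.sum_sub_distrib]
    congr 1
    let eq : L' ≃ L' := Equiv.ofBijective _ (Finite.injective_iff_bijective.1 (hinj g hg y))
    exact Equiv.sum_comp eq (fun l : L' => F (g y - g y' + l))
  have E2 : ∀ u ∈ sat G V x, ∀ v ∈ V,
      S (u + v) = S u - Nat.card L' • (QuotientAddGroup.mk v : A ⧸ W) := by
    intro u hu v hv
    have h1 : S (u + v) = ∑ l : L', (F (u + l) - QuotientAddGroup.mk v) := by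
      refine Finset.sum_congr rfl fun l _ => ?_
      have h2 : u + v + (l : A) = (u + l) + v := by abel
      rw [h2, P2 _ (hsatM _ hu _ (hLM l)) _ hv]
    rw [h1, Finset.sum_sub_distrib, Finset.sum_const, Finset.card_univ,
      Nat.card_eq_fintype_card]
  have E3 : ∀ u, ∀ l : L', S (u + l) = S u := by
    intro u l
    have h1 : S (u + l) = ∑ l' : L', F (u + ((Equiv.addLeft l) l' : L')) := by
      refine Finset.sum_congr rfl fun l' _ => ?_
      congr 1
      rw [Equiv.coe_addLeft, AddSubgroup.coe_add]; abel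
    rw [h1]
    exact Equiv.sum_comp (Equiv.addLeft l) (fun l' : L' => F (u + l'))
  have hx0 : x ∈ sat G V x := h.mem_sat_of_orb (mem_orb_self G x)
  -- the defects lie in W
  have K1 : ∀ g ∈ G, ∀ y', ∀ l : L', π • (g (y' + l) - g y') ∈ W := by
    intro g hg y' l
    set al := π • (g (y' + l) - g y') with hal
    have halv : al ∈ V := halV g hg y' l
    apply h.mem_V_of_smul hcop halv
    rw [← QuotientAddGroup.eq_zero_iff, QuotientAddGroup.mk_nsmul]
    have hy : (y' + x) - y' ∈ sat G V x := by rw [add_sub_cancel_left]; exact hx0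
    have h1 := E1 g hg (y' + x) y' hy
    have h2 := E1 g hg (y' + x) (y' + l) (by
      have : (y' + x) - (y' + l) = ((y' + x) - y') + -(l : A) := by abel
      rw [this]
      exact hsatM _ hy _ (M.neg_mem (hLM l)))
    have h3 : S (y' + x - (y' + l)) = S (y' + x - y') := by
      have : (y' + x) - (y' + l) = ((y' + x) - y') + ((-l : L') : A) := by
        rw [AddSubgroup.coe_neg]; abel
      rw [this, E3]
    have hgy : g (y' + x) - g y' ∈ sat G V x := (h.sat_inv x g hg y' (y' + x)).1 hy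
    have h4 : S (g (y' + x) - g (y' + l)) = S (g (y' + x) - g y') +
        Nat.card L' • (QuotientAddGroup.mk al : A ⧸ W) := by
      have h5 : g (y' + x) - g (y' + l) =
          ((g (y' + x) - g y') + ((-(lam g y' l) : L') : A)) + -al := by
        rw [hlam g hg y' l, ← hal, AddSubgroup.coe_neg]; abel
      rw [h5, E2 _ (hsatM _ hgy _ (hLM _)) _ (V.neg_mem halv), E3, QuotientAddGroup.mk_neg,
        smul_neg, sub_neg_eq_add]
    rw [h3, h4, h1] at h2
    have h6 : ∀ a b c : A ⧸ W, a - b = a + c - b → c = 0 := by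
      intro a b c habc
      have h7 : c = (a + c - b) - (a - b) := by abel
      rw [h7, ← habc, sub_self]
    exact h6 _ _ _ h2
  have K2 : ∀ g ∈ G, ∀ y y', y - y' ∈ sat G V x → S (y - y') = S (g y - g y') := by
    intro g hg y y' hy
    rw [E1 g hg y y' hy]
    have : be g y = 0 := by
      apply Finset.sum_eq_zero
      intro l _
      rw [QuotientAddGroup.eq_zero_iff]
      exact K1 g hg y l
    rw [this, sub_zero]
  -- conclusion
  let l : L' := ⟨l₁, hl₁, hNl⟩
  have hxl : x + l₁ ∈ sat G V x := hsatM _ hx0 _ hl₁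
  obtain ⟨hv, hv2⟩ := hf _ hxl
  obtain ⟨g, hg, hg0, hgx⟩ := hv2
  have h1 := K2 g hg x 0 (by rw [sub_zero]; exact hx0)
  rw [hg0, sub_zero, sub_zero, hgx, E2 _ hxl _ hv] at h1
  have h2 : S (x + l₁) = S x := E3 x l
  rw [h2] at h1
  have h3 : Nat.card L' • (QuotientAddGroup.mk (f (x + l₁)) : A ⧸ W) = 0 := by
    have h4 := h1.symm
    rwa [sub_eq_self] at h4
  have h4 : f (x + l₁) ∈ W := by
    apply h.mem_V_of_smul hcop hv
    rwa [← QuotientAddGroup.eq_zero_iff, QuotientAddGroup.mk_nsmul]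
  have h5 : x + l₁ + f (x + l₁) ∈ orb G x := ⟨g, hg, hg0, hgx⟩
  have h6 := (h.add_mem_iff h5 (V.neg_mem hv)).2 (W.neg_mem h4)
  rwa [add_neg_cancel_right] at h6

lemma lradV_p' [IsAddCyclic A] {z l : A} (hz : z ∉ C) (hl : l ∈ lradV G V C z)
    (hpl : N' • l = 0) : l = 0 := by
  apply h.lr z hz
  refine ⟨hl.1, fun T hT u hu => ?_⟩
  constructor
  · intro h1
    exact orb_subset hT h1 (h.averaging hz hu hl hpl)
  · intro h1
    have h2 := orb_subset hT h1 (h.averaging (x := u + l) hz (by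
      have : u + l - z = (u - z) + l := by abel
      rw [this]
      exact C.add_mem hu hl.1) ((lradV G V C z).neg_mem hl) (by rw [smul_neg, hpl, neg_zero]))
    rwa [add_neg_cancel_right] at h2

lemma lradV_le [IsAddCyclic A] {z l : A} (hz : z ∉ C) (hl : l ∈ lradV G V C z) : l ∈ V := by
  have h1 := h.lradV_p' hz ((lradV G V C z).sub_mem hl ((lradV G V C z).zsmul_mem hl π))
    (h.pi_compl l)
  rw [sub_eq_zero.1 h1]
  exact h.pi_mem hz hl

end Lad

end Pool.Agent.Helper589TypeII
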