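import Pool.Agent.Helper589_TypeII.Ladder2

/-!
The ladder, third part: the defect lies in V, has a period outside C, and the next step.
-/

namespace Pool.Agent.Helper589TypeII

variable {A : Type} [AddCommGroup A]

/-- central elements -/
def cenSub (G : Subgroup (Equiv.Perm A)) : AddSubgroup A where
  carrier := {c | ∀ g ∈ G, ∀ y, g (y + c) = g y + c}
  zero_mem' := by intro g _ y; rw [add_zero, add_zero]
  add_mem' := by
    intro a b ha hb g hg y
    rw [← add_assoc, hb g hg, ha g hg, add_assoc]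
  neg_mem' := by
    intro a ha g hg y
    have h1 := ha g hg (y + -a)
    rw [neg_add_cancel_right] at h1
    rw [h1, add_neg_cancel_right]

lemma mem_cenSub {G : Subgroup (Equiv.Perm A)} {c : A} :
    c ∈ cenSub G ↔ ∀ g ∈ G, ∀ y, g (y + c) = g y + c := Iff.rfl

namespace Lad

variable [Finite A] {G : Subgroup (Equiv.Perm A)} {C V : AddSubgroup A} {p e N' : ℕ}
  {π : ℤ} {k : ℕ} (h : Lad G C V p e N' π k)

include h

lemma smul_not_mem {b : ℤ} (hb : IsCoprime b (Nat.card A : ℤ)) {x : A} (hx : x ∉ C) :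
    b • x ∉ C := by
  obtain ⟨b', -, hbb⟩ := exists_inv_mult (A := A) hb
  intro h1
  apply hx
  rw [← (hbb x).2]
  exact C.zsmul_mem h1 b'

lemma defect [IsAddCyclic A] {x₀ : A} (hx₀ : x₀ ∉ C) {g : Equiv.Perm A} (hg : g ∈ G) (y : A) :
    g (y + ((p : ℤ) ^ (e - k - 1) * π) • x₀) - g y - ((p : ℤ) ^ (e - k - 1) * π) • x₀ ∈ V := by
  set a : ℤ := (p : ℤ) ^ (e - k - 1) * π with ha
  set o : A := a • x₀ with ho
  have hz0 : x₀ + o ∉ C := by
    have h1 := h.smul_not_mem h.cop_mult hx₀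
    rwa [← ha, add_smul, one_smul, ← ho] at h1
  apply h.lradV_le hz0
  refine ⟨?_, fun T hT hV u hu => ?_⟩
  · have h1 := h.gr g hg y (y + o)
    rwa [add_sub_cancel_left] at h1
  · have hV' : ∀ t v, v ∈ V → (t + v ∈ T ↔ t ∈ T) := by
      intro t v hv
      constructor
      · intro h1
        have h2 := hV _ h1 (-v) (V.neg_mem hv)
        rwa [add_neg_cancel_right] at h2
      · intro h1
        exact hV t h1 v hv
    obtain ⟨w, hw⟩ : ∃ w, g w = g y + o - u := ⟨g⁻¹ (g y + o - u), by simp⟩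
    have e0 : g y - g w = u - o := by rw [hw]; abel
    have e1 : (g y - g w) - x₀ ∈ C := by
      rw [e0]; convert hu using 1; abel
    have e2 : (y - w) - x₀ ∈ C := by
      have h1 := C.sub_mem e1 (h.gr g hg w y)
      convert h1 using 1; abel
    have e3 : (1 + a) • (y - w) ∈ T ↔ (1 + a) • (g y - g w) ∈ T :=
      (hT.smul h.cop_mult) g hg w y
    have e4 : (1 + a) • (y - w) = (y + o - w) + a • ((y - w) - x₀) := by
      rw [add_smul, one_smul, smul_sub a (y - w), ← ho]; abel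
    have e5 : (1 + a) • (g y - g w) = u + a • ((g y - g w) - x₀) := by
      rw [add_smul, one_smul, smul_sub a (g y - g w), ← ho, e0]; abel
    rw [e4, e5, hV' _ _ (h.a_mem e2), hV' _ _ (h.a_mem e1)] at e3
    rw [← e3]
    have e6 : y + o - w ∈ T ↔ g (y + o) - g w ∈ T := hT g hg w (y + o)
    rw [e6, hw]
    have e7 : g (y + o) - (g y + o - u) = u + (g (y + o) - g y - o) := by abel
    rw [e7]

lemma orb_unique {x : A} (hx : Reg G C V x) {b : ℤ} (hb : IsCoprime b (Nat.card A : ℤ)) {u v : A}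
    (hu : u ∈ orb G (b • x)) (hv : v ∈ V) (huv : u + v ∈ orb G (b • x)) : v = 0 := by
  obtain ⟨b', hb', hbb⟩ := exists_inv_mult (A := A) hb
  have h1 := smul_mem_orb h.tr hb' hu
  have h2 := smul_mem_orb h.tr hb' huv
  rw [(hbb x).2] at h1 h2
  rw [smul_add] at h2
  have h3 := ((h.add_mem_iff h1 (V.zsmul_mem hv b')).1 h2)
  have h4 := hx.2 _ h3.1 h3.2
  rw [← (hbb v).1, h4, smul_zero]

lemma period [IsAddCyclic A] {x₀ : A} (hx₀ : x₀ ∉ C) : ∃ j, j ∉ C ∧ ∀ g ∈ G, ∀ y,
    g (y + j + ((p : ℤ) ^ (e - k - 1) * π) • x₀) - g (y + j) =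
      g (y + ((p : ℤ) ^ (e - k - 1) * π) • x₀) - g y := by
  set a : ℤ := (p : ℤ) ^ (e - k - 1) * π with ha
  set o : A := a • x₀ with ho
  obtain ⟨x, hxx, hx⟩ := h.exists_reg hx₀
  have hb : IsCoprime (1 + a) (Nat.card A : ℤ) := h.cop_mult
  refine ⟨(1 + a) • x, h.smul_not_mem hb hx.1, ?_⟩
  set v : A := a • (x - x₀) with hv
  have hvV : v ∈ V := h.a_mem hxx
  have hbx : (1 + a) • x = x + o + v := by
    rw [hv, smul_sub, ← ho, add_smul, one_smul]; abel
  have key : ∀ g ∈ G, ∀ y, g (y + x + o) - g (y + x) = g y - g (y - o) := by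
    intro g hg y
    have h1 : g (y + x + o) + v - g y ∈ orb G ((1 + a) • x) := by
      have h2 := (orb_inv h.tr ((1 + a) • x) g hg y (y + x + o + v)).1 (by
        have h3 := mem_orb_self G ((1 + a) • x)
        convert h3 using 1
        rw [hbx]; abel)
      rwa [h.cen g hg _ v hvV] at h2
    have h2 : g (y + x) - g (y - o) + v ∈ orb G ((1 + a) • x) := by
      have h2 := (orb_inv h.tr ((1 + a) • x) g hg (y - o + -v) (y + x)).1 (by
        have h3 := mem_orb_self G ((1 + a) • x)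
        convert h3 using 1
        rw [hbx]; abel)
      rw [h.cen g hg _ (-v) (V.neg_mem hvV)] at h2
      convert h2 using 1; abel
    have h3 : (g (y + x + o) - g (y + x) - o) - (g (y - o + o) - g (y - o) - o) ∈ V :=
      V.sub_mem (h.defect hx₀ hg _) (h.defect hx₀ hg _)
    have h4 := h.orb_unique hx hb h2 h3 (by
      rw [sub_add_cancel]
      convert h1 using 1; abel)
    rw [sub_add_cancel, sub_sub_sub_cancel_right] at h4
    exact sub_eq_zero.1 h4
  intro g hg y
  have h1 := key g hg (y + o)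
  rw [add_sub_cancel_right] at h1
  rw [← h1, hbx]
  have h2 : g (y + (x + o + v) + o) = g (y + o + x + o) + v := by
    rw [← h.cen g hg _ v hvV]; congr 1; abel
  have h3 : g (y + (x + o + v)) = g (y + o + x) + v := by
    rw [← h.cen g hg _ v hvV]; congr 1; abel
  rw [h2, h3]; abel

lemma next [IsAddCyclic A] {x₀ : A} (hx₀ : x₀ ∉ C)
    (hc : ((p : ℤ) ^ (e - k - 1) * π) • x₀ ∈ cenSub G) {v : A} (hv : p ^ (k + 1) • v = 0) :
    v ∈ cenSub G := by
  have : Fact p.Prime := ⟨h.pp.prime⟩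
  set a : ℤ := (p : ℤ) ^ (e - k - 1) * π with ha
  set o : A := a • x₀ with ho
  have h1 : p ^ k • o = ((p : ℤ) ^ (e - 1) * π) • x₀ := by
    rw [ho, ha, ← natCast_zsmul, ← mul_smul, h.epow1]
    congr 1; push_cast; ring
  have h2 : p ^ k • o ≠ 0 := by rw [h1]; exact h.top_ne hx₀
  have h3 : p • (p ^ k • o) = 0 := by
    rw [h1]
    have h4 : p • (((p : ℤ) ^ (e - 1) * π) • x₀) = p ^ e • (π • x₀) := by
      rw [← natCast_zsmul, ← natCast_zsmul, ← mul_smul, ← mul_smul]
      congr 1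
      have : e = (e - 1) + 1 := by have := h.ke; omega
      nth_rewrite 2 [this]
      push_cast; ring
    rw [h4]; exact h.pi_kill x₀
  have h4 : p ∣ Nat.card (AddSubgroup.zmultiples (p ^ k • o)) := by
    rw [Nat.card_zmultiples, addOrderOf_eq_prime h3 h2]
  have h5 : p • (p ^ k • v) = 0 := by rw [← mul_smul, ← pow_succ']; exact hv
  obtain ⟨j, hj⟩ := AddSubgroup.mem_zmultiples_iff.1 (mem_of_nsmul_prime h.pp.prime h4 h5)
  have h6 : v - j • o ∈ V := by
    rw [h.memV, smul_sub, sub_eq_zero, ← hj, smul_comm]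
  have h7 : v = (v - j • o) + j • o := by abel
  rw [h7]
  exact (cenSub G).add_mem (fun g hg y => h.cen g hg y _ h6) ((cenSub G).zsmul_mem hc j)

end Lad

end Pool.Agent.Helper589TypeII
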