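import Pool.Agent.Helper589_TypeII.Res

/-!
Symmetric functions on Z_{2m} with values in Z_2, their two-fold automorphisms, and the
difference function.
-/

namespace Pool.Agent.Helper589TypeII

variable {m : ℕ} {f : ZMod (2 * m) → ZMod 2}

/-- two-fold automorphisms of f -/
def TF (f : ZMod (2 * m) → ZMod 2) (α β : Equiv.Perm (ZMod (2 * m))) : Prop :=
  ∀ u v, f (β v - α u) = f (v - u)

/-- standing assumptions on f -/
structure Circ (m : ℕ) (f : ZMod (2 * m) → ZMod 2) : Prop where
  odd : Odd m
  sym : ∀ x, f (-x) = f x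
  tw : ∀ t, (∀ x, f (x + t) = f x) → t = 0
  two : ∀ α β : Equiv.Perm (ZMod (2 * m)), TF f α β → (∀ x, par m (α x) = par m x) →
    (∀ x, par m (β x) = par m x) → α = β

/-- the difference function -/
def dd (m : ℕ) (f : ZMod (2 * m) → ZMod 2) (x : ZMod (2 * m)) : ZMod 2 :=
  if par m x = 0 then f x + f (x + MM m) else 0

/-- the m-periodic part -/
def ss (m : ℕ) (f : ZMod (2 * m) → ZMod 2) (x : ZMod (2 * m)) : ZMod 2 :=
  if par m x = 0 then f (x + MM m) else f x

lemma dd_ev {x : ZMod (2 * m)} (h : par m x = 0) : dd m f x = f x + f (x + MM m) := if_pos h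

lemma dd_odd {x : ZMod (2 * m)} (h : par m x = 1) : dd m f x = 0 :=
  if_neg (by rw [h]; decide)

lemma ss_ev {x : ZMod (2 * m)} (h : par m x = 0) : ss m f x = f (x + MM m) := if_pos h

lemma ss_odd {x : ZMod (2 * m)} (h : par m x = 1) : ss m f x = f x :=
  if_neg (by rw [h]; decide)

lemma z2_add_self (a : ZMod 2) : a + a = 0 := by revert a; decide

lemma f_eq (x : ZMod (2 * m)) : f x = ss m f x + dd m f x := by
  rcases zmod2_cases (par m x) with h | h
  · rw [ss_ev h, dd_ev h]
    linear_combination (-1) * z2_add_self (f (x + MM m))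
  · rw [ss_odd h, dd_odd h, add_zero]

lemma par_add_MM (hm : Odd m) (x : ZMod (2 * m)) : par m (x + MM m) = par m x + 1 := by
  rw [map_add, par_MM hm]

lemma add_MM_MM (x : ZMod (2 * m)) : x + MM m + MM m = x := by
  rw [add_assoc, MM_add, add_zero]

lemma ss_add (hm : Odd m) (x : ZMod (2 * m)) : ss m f (x + MM m) = ss m f x := by
  have h0 := par_add_MM hm x
  rcases zmod2_cases (par m x) with h | h
  · rw [h, zero_add] at h0
    rw [ss_odd h0, ss_ev h]
  · rw [h] at h0
    rw [ss_ev (h0.trans (by decide)), ss_odd h, add_MM_MM]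

lemma par_neg (x : ZMod (2 * m)) : par m (-x) = par m x := by
  rw [map_neg]
  generalize par m x = a
  revert a; decide

lemma ss_neg (hf : ∀ x, f (-x) = f x) (x : ZMod (2 * m)) : ss m f (-x) = ss m f x := by
  rcases zmod2_cases (par m x) with h | h
  · rw [ss_ev (by rw [par_neg, h]), ss_ev h, ← hf (x + MM m)]
    congr 1
    rw [neg_add, neg_MM]
  · rw [ss_odd (by rw [par_neg, h]), ss_odd h, hf]

lemma dd_neg (hf : ∀ x, f (-x) = f x) (x : ZMod (2 * m)) : dd m f (-x) = dd m f x := by
  rcases zmod2_cases (par m x) with h | h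
  · rw [dd_ev (by rw [par_neg, h]), dd_ev h, ← hf (x + MM m), hf x]
    congr 2
    rw [neg_add, neg_MM]
  · rw [dd_odd (by rw [par_neg, h]), dd_odd h]

lemma f_add_f (hm : Odd m) (x : ZMod (2 * m)) :
    f x + f (x + MM m) = dd m f x + dd m f (x + MM m) := by
  have h1 := f_eq (f := f) x
  have h2 := f_eq (f := f) (x + MM m)
  rw [ss_add hm] at h2
  rw [h1, h2]
  linear_combination z2_add_self (ss m f x)

namespace TF

variable {α β γ δ : Equiv.Perm (ZMod (2 * m))}

lemma refl : TF f 1 1 := fun _ _ => rfl

lemma mul (h : TF f α β) (h' : TF f γ δ) : TF f (α * γ) (β * δ) := by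
  intro u v
  rw [Equiv.Perm.mul_apply, Equiv.Perm.mul_apply, h, h']

lemma inv (h : TF f α β) : TF f α⁻¹ β⁻¹ := by
  intro u v
  have h1 := h (α⁻¹ u) (β⁻¹ v)
  have h2 : α (α⁻¹ u) = u := by simp
  have h3 : β (β⁻¹ v) = v := by simp
  rw [h2, h3] at h1
  exact h1.symm

lemma swap (hf : ∀ x, f (-x) = f x) (h : TF f α β) : TF f β α := by
  intro u v
  rw [← hf, neg_sub, h, ← hf, neg_sub]

lemma tr (c : ZMod (2 * m)) : TF f (Equiv.addLeft c) (Equiv.addLeft c) := by
  intro u v
  rw [Equiv.coe_addLeft, add_sub_add_left_eq_sub]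

end TF

open Classical in
/-- common neighbours -/
noncomputable def cnn [NeZero (2 * m)] (f : ZMod (2 * m) → ZMod 2) (u v : ZMod (2 * m)) :
    Finset (ZMod (2 * m)) :=
  Finset.univ.filter (fun w => f (w - u) = 1 ∧ f (w - v) = 1)

lemma mem_cnn [NeZero (2 * m)] {u v w : ZMod (2 * m)} :
    w ∈ cnn f u v ↔ f (w - u) = 1 ∧ f (w - v) = 1 := by
  simp [cnn]

lemma cnn_card [NeZero (2 * m)] (hm : Odd m) (hf : ∀ x, f (-x) = f x)
    (u v : ZMod (2 * m)) :
    ((cnn f u v).card : ZMod 2) = 1 ↔ ∃ x, dd m f x = 1 ∧ v - u = 2 * x := by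
  classical
  set A := (cnn f u v).filter (fun w => 2 * w = u + v) with hA
  have h1 : (((cnn f u v).filter (fun w => ¬ 2 * w = u + v)).card : ZMod 2) = 0 := by
    rw [Finset.cast_card]
    refine Finset.sum_involution (fun w _ => u + v - w) ?_ ?_ ?_ ?_
    · intro a _; decide
    · intro a ha _ h
      rw [Finset.mem_filter] at ha
      apply ha.2
      linear_combination -h
    · intro a ha
      rw [Finset.mem_filter, mem_cnn] at ha ⊢
      refine ⟨⟨?_, ?_⟩, ?_⟩
      · rw [← hf]
        convert ha.1.2 using 2; ring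
      · rw [← hf]
        convert ha.1.1 using 2; ring
      · intro h
        apply ha.2
        linear_combination -h
    · intro a _; ring
  have h2 : ((cnn f u v).card : ZMod 2) = (A.card : ZMod 2) := by
    have := Finset.card_filter_add_card_filter_not (s := cnn f u v) (fun w => 2 * w = u + v)
    rw [← this]
    push_cast
    rw [h1, add_zero]
  rw [h2]
  by_cases hev : v - u ∈ ev m
  · obtain ⟨x, hx, hx2⟩ := exists_half hm hev
    have hpx : par m x = 0 := (mem_ev hm x).1 hx
    have hmem : ∀ w, w ∈ A ↔ (w = u + x ∧ f x = 1) ∨ (w = u + x + MM m ∧ f (x + MM m) = 1) := by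
      intro w
      rw [hA, Finset.mem_filter, mem_cnn]
      constructor
      · rintro ⟨⟨h3, h4⟩, h5⟩
        have h6 : 2 * (w - u - x) = 0 := by linear_combination h5 - hx2
        rcases (two_mul_zero_iff hm _).1 h6 with h7 | h7
        · left
          have : w = u + x := by linear_combination h7
          refine ⟨this, ?_⟩
          rw [this] at h3
          convert h3 using 2; ring
        · right
          have : w = u + x + MM m := by linear_combination h7
          refine ⟨this, ?_⟩
          rw [this] at h3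
          convert h3 using 2; ring
      · rintro (⟨h3, h4⟩ | ⟨h3, h4⟩)
        · subst h3
          refine ⟨⟨by convert h4 using 2; ring, ?_⟩, by linear_combination hx2⟩
          rw [← hf]
          convert h4 using 2; linear_combination -hx2
        · subst h3
          refine ⟨⟨by convert h4 using 2; ring, ?_⟩, by
            linear_combination hx2 + (two_mul_MM (m := m))⟩
          rw [← hf]
          convert h4 using 2; linear_combination -hx2 - (two_mul_MM (m := m))
    have hR : (∃ y, dd m f y = 1 ∧ v - u = 2 * y) ↔ dd m f x = 1 := by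
      constructor
      · rintro ⟨y, hy, hy2⟩
        have h6 : 2 * (y - x) = 0 := by linear_combination -hx2 - hy2
        rcases (two_mul_zero_iff hm _).1 h6 with h7 | h7
        · have : y = x := by linear_combination h7
          rwa [← this]
        · exfalso
          have h8 : y = x + MM m := by linear_combination h7
          rw [dd_odd (by rw [h8, par_add_MM hm, hpx, zero_add])] at hy
          exact absurd hy (by decide)
      · intro h
        exact ⟨x, h, hx2.symm⟩
    rw [hR, dd_ev hpx]
    have hxm : u + x ≠ u + x + MM m := by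
      intro h
      apply MM_ne hm
      linear_combination -h
    rcases zmod2_cases (f x) with ha | ha <;> rcases zmod2_cases (f (x + MM m)) with hb | hb
    · have : A = ∅ := by
        ext w
        rw [hmem]; simp [ha, hb]
      rw [this, ha, hb, Finset.card_empty]; decide
    · have : A = {u + x + MM m} := by
        ext w
        rw [hmem]; simp [ha, hb]
      rw [this, ha, hb, Finset.card_singleton]; decide
    · have : A = {u + x} := by
        ext w
        rw [hmem]; simp [ha, hb]
      rw [this, ha, hb, Finset.card_singleton]; decide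
    · have : A = {u + x, u + x + MM m} := by
        ext w
        rw [hmem]; simp [ha, hb]
      rw [this, ha, hb, Finset.card_pair hxm]; decide
  · have hA0 : A = ∅ := by
      rw [Finset.eq_empty_iff_forall_notMem]
      intro w hw
      rw [hA, Finset.mem_filter] at hw
      apply hev
      have : v - u = 2 * (w - u) := by linear_combination -hw.2
      rw [this]
      exact two_mul_mem _ hm
    rw [hA0, Finset.card_empty, Nat.cast_zero]
    constructor
    · intro h; exact absurd h (by decide)
    · rintro ⟨x, -, hx⟩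
      exfalso
      apply hev
      rw [hx]
      exact two_mul_mem _ hm

lemma rel_two (hm : Odd m) (hf : ∀ x, f (-x) = f x) {α β : Equiv.Perm (ZMod (2 * m))}
    (h : TF f α β) : Pres α {z | ∃ x, dd m f x = 1 ∧ z = 2 * x} := by
  intro u v
  have : NeZero (2 * m) := ⟨by have := hm.pos; omega⟩
  change (∃ x, dd m f x = 1 ∧ v - u = 2 * x) ↔ (∃ x, dd m f x = 1 ∧ α v - α u = 2 * x)
  rw [← cnn_card hm hf, ← cnn_card hm hf]
  have : (cnn f u v).card = (cnn f (α u) (α v)).card := by
    refine Finset.card_bij (fun w _ => β w) ?_ ?_ ?_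
    · intro w hw
      rw [mem_cnn] at hw ⊢
      rw [h, h]
      exact hw
    · intro a _ b _ hab
      exact β.injective hab
    · intro w hw
      refine ⟨β.symm w, ?_, by simp⟩
      rw [mem_cnn] at hw ⊢
      have h1 := h u (β.symm w)
      have h2 := h v (β.symm w)
      rw [Equiv.apply_symm_apply] at h1 h2
      rw [← h1, ← h2]
      exact hw
  rw [this]

lemma cop_m2 (hm : Odd m) : IsCoprime ((m : ℤ) + 2) (Nat.card (ZMod (2 * m)) : ℤ) := by
  rw [Nat.card_zmod]
  obtain ⟨k, hk⟩ := hm
  have hk' : (m : ℤ) = 2 * k + 1 := by exact_mod_cast hk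
  refine ⟨(2 * k + 3) - 2 * (k ^ 2 + 3 * k + 2), k ^ 2 + 3 * k + 2, ?_⟩
  push_cast
  rw [hk']
  ring

/-- the difference function is preserved -/
lemma pres_dd (hm : Odd m) (hf : ∀ x, f (-x) = f x) {α β : Equiv.Perm (ZMod (2 * m))}
    (h : TF f α β) : Pres α {z | dd m f z = 1} := by
  have : NeZero (2 * m) := ⟨by have := hm.pos; omega⟩
  have h1 := pres_smul (cop_m2 hm) (rel_two hm hf h)
  have h2 : {z : ZMod (2 * m) | ((m : ℤ) + 2) • z ∈ {z | ∃ x, dd m f x = 1 ∧ z = 2 * x}} =
      {z | dd m f z = 1} := by
    ext z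
    change (∃ x, dd m f x = 1 ∧ ((m : ℤ) + 2) • z = 2 * x) ↔ dd m f z = 1
    have e1 : ((m : ℤ) + 2) • z = m • z + 2 * z := by
      rw [add_smul, natCast_zsmul, two_zsmul]; ring
    have hev : ∀ z, dd m f z = 1 → z ∈ ev m := by
      intro z hz
      by_contra h3
      rw [not_mem_ev hm] at h3
      rw [dd_odd h3] at hz
      exact absurd hz (by decide)
    rw [e1]
    constructor
    · rintro ⟨x, hx, hx2⟩
      have hz : z ∈ ev m := by
        rw [mem_ev hm]
        have h3 := congrArg (par m) hx2
        rw [map_add, map_mul, map_mul, par_two, zero_mul, zero_mul, add_zero, map_nsmul,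
          nsmul_eq_mul, ZMod.natCast_eq_one_iff_odd.2 hm, one_mul] at h3
        exact h3
      rw [m_smul hm hz, zero_add] at hx2
      have h4 : 2 * (z - x) = 0 := by linear_combination hx2
      rcases (two_mul_zero_iff hm _).1 h4 with h5 | h5
      · rw [sub_eq_zero.1 h5]; exact hx
      · exfalso
        have h6 := (ev m).sub_mem hz (hev x hx)
        rw [h5] at h6
        exact MM_not_mem hm h6
    · intro hz
      refine ⟨z, hz, ?_⟩
      rw [m_smul hm (hev z hz), zero_add]
  rw [h2] at h1
  exact h1

end Pool.Agent.Helper589TypeII
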