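import Pool.Agent.Helper589_TypeII.PA1

/-!
Aperiodicity, the basic identity, and periods of the periodic part.
-/

namespace Pool.Agent.Helper589TypeII

variable {m : ℕ} {f : ZMod (2 * m) → ZMod 2}

/-- the subgroup generated by the support of the difference function -/
def QQ (m : ℕ) (f : ZMod (2 * m) → ZMod 2) : AddSubgroup (ZMod (2 * m)) :=
  AddSubgroup.closure {z | dd m f z = 1}

lemma par_of_dd {x : ZMod (2 * m)} (h : dd m f x = 1) : par m x = 0 := by
  rcases zmod2_cases (par m x) with h1 | h1
  · exact h1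
  · rw [dd_odd h1] at h; exact absurd h (by decide)

lemma QQ_le (hm : Odd m) : QQ m f ≤ ev m := by
  rw [QQ, AddSubgroup.closure_le]
  intro z hz
  exact (mem_ev hm z).2 (par_of_dd hz)

lemma mem_QQ_of_dd {x : ZMod (2 * m)} (h : dd m f x = 1) : x ∈ QQ m f :=
  AddSubgroup.subset_closure h

lemma dd_zero {x : ZMod (2 * m)} (h : x ∉ QQ m f) : dd m f x = 0 := by
  rcases zmod2_cases (dd m f x) with h1 | h1
  · exact h1
  · exact absurd (mem_QQ_of_dd h1) h

/-- permutations preserving T -/
def presG {A : Type} [AddCommGroup A] (T : Set A) : Subgroup (Equiv.Perm A) where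
  carrier := {g | Pres g T}
  one_mem' := fun x y => Iff.rfl
  mul_mem' := by
    intro g h hg hh x y
    rw [hh x y, hg (h x) (h y)]; rfl
  inv_mem' := by
    intro g hg x y
    have h1 := hg (g⁻¹ x) (g⁻¹ y)
    have h2 : g (g⁻¹ x) = x := by simp
    have h3 : g (g⁻¹ y) = y := by simp
    rw [h2, h3] at h1
    exact h1.symm

lemma pres_closure {A : Type} [AddCommGroup A] {T : Set A} {g : Equiv.Perm A} (h : Pres g T) :
    Pres g (AddSubgroup.closure T : Set A) := by
  have h1 : IsInv (presG T) T := fun g hg => hg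
  exact h1.closure g h

lemma pres_QQ (hm : Odd m) (hf : ∀ x, f (-x) = f x) {α β : Equiv.Perm (ZMod (2 * m))}
    (h : TF f α β) (x y : ZMod (2 * m)) : y - x ∈ QQ m f ↔ α y - α x ∈ QQ m f :=
  pres_closure (pres_dd hm hf h) x y

lemma z2_ext {a b : ZMod 2} (h : a = 1 ↔ b = 1) : a = b := by
  revert a b; decide

lemma dd_tf (hm : Odd m) (hf : ∀ x, f (-x) = f x) {α β : Equiv.Perm (ZMod (2 * m))}
    (h : TF f α β) (x y : ZMod (2 * m)) : dd m f (α y - α x) = dd m f (y - x) :=
  z2_ext (pres_dd hm hf h x y).symm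

/-- shift depending on the parity -/
def shiftP (c : ZMod 2 → ZMod (2 * m)) (hc : ∀ ε, par m (c ε) = 0) :
    Equiv.Perm (ZMod (2 * m)) where
  toFun x := x + c (par m x)
  invFun x := x - c (par m x)
  left_inv x := by
    have : par m (x + c (par m x)) = par m x := by rw [map_add, hc, add_zero]
    simp only [this]
    abel
  right_inv x := by
    have : par m (x - c (par m x)) = par m x := by rw [map_sub, hc, sub_zero]
    simp only [this]
    abel

lemma shiftP_apply (c : ZMod 2 → ZMod (2 * m)) (hc : ∀ ε, par m (c ε) = 0) (x : ZMod (2 * m)) :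
    shiftP c hc x = x + c (par m x) := rfl

/-- The even part is aperiodic. -/
lemma aper (C : Circ m f) {s : ZMod (2 * m)} (hs : par m s = 0)
    (h : ∀ x, par m x = 0 → f (x + s) = f x) : s = 0 := by
  let c1 : ZMod 2 → ZMod (2 * m) := fun ε => if ε = 0 then s else 0
  let c2 : ZMod 2 → ZMod (2 * m) := fun ε => if ε = 0 then 0 else s
  have e10 : c1 0 = s := if_pos rfl
  have e11 : c1 1 = 0 := if_neg (by decide)
  have e20 : c2 0 = 0 := if_pos rfl
  have e21 : c2 1 = s := if_neg (by decide)
  have h1 : ∀ ε, par m (c1 ε) = 0 := by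
    intro ε
    rcases zmod2_cases ε with rfl | rfl
    · rw [e10, hs]
    · rw [e11, map_zero]
  have h2 : ∀ ε, par m (c2 ε) = 0 := by
    intro ε
    rcases zmod2_cases ε with rfl | rfl
    · rw [e20, map_zero]
    · rw [e21, hs]
  have hpp : ∀ x, par m (x + s) = par m x := fun x => by rw [map_add, hs, add_zero]
  have hTF : TF f (shiftP c1 h1) (shiftP c2 h2) := by
    intro u v
    rw [shiftP_apply, shiftP_apply]
    rcases zmod2_cases (par m u) with hu | hu <;> rcases zmod2_cases (par m v) with hv | hv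
    · rw [hu, hv, e10, e20]
      have h3 : f (v - u - s + s) = f (v - u - s) := by
        apply h
        rw [map_sub, map_sub, hu, hv, hs]; decide
      rw [sub_add_cancel] at h3
      rw [h3]
      congr 1; ring
    · rw [hu, hv, e10, e21]
      congr 1; ring
    · rw [hu, hv, e11, e20]
      congr 1; ring
    · rw [hu, hv, e11, e21]
      have h3 : f (v - u + s) = f (v - u) := by
        apply h
        rw [map_sub, hu, hv]; decide
      rw [← h3]
      congr 1; ring
  have h3 := C.two _ _ hTF (fun x => by rw [shiftP_apply, map_add, h1, add_zero])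
    (fun x => by rw [shiftP_apply, map_add, h2, add_zero])
  have h4 := congrArg (fun σ : Equiv.Perm (ZMod (2 * m)) => σ 0) h3
  simp only [shiftP_apply, map_zero, e10, e20, zero_add] at h4
  exact h4

/-- The basic identity. -/
lemma ident (hm : Odd m) (hf : ∀ x, f (-x) = f x) {α β : Equiv.Perm (ZMod (2 * m))}
    (h : TF f α β) {π : ZMod (2 * m)} (hπ : ∀ x, ss m f (x + π) = ss m f x)
    (u x : ZMod (2 * m)) :
    ss m f x + ss m f (x - (α (u + π) - α u)) =
      dd m f x + dd m f (x - (α (u + π) - α u)) + dd m f (x - (β u - α u)) +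
        dd m f (x - (β (u + π) - α u)) := by
  obtain ⟨v, hv⟩ : ∃ v, β v = α u + x := ⟨β⁻¹ (α u + x), by simp⟩
  have e1 : x = β v - α u := by rw [hv]; ring
  have e2 : x - (α (u + π) - α u) = β v - α (u + π) := by rw [hv]; ring
  have e3 : x - (β u - α u) = β v - β u := by rw [hv]; ring
  have e4 : x - (β (u + π) - α u) = β v - β (u + π) := by rw [hv]; ring
  have hβ := h.swap hf
  rw [e2, e3, e4, dd_tf hm hf hβ, dd_tf hm hf hβ]
  have h1 := f_eq (f := f) x
  have h2 := f_eq (f := f) (β v - α (u + π))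
  have h3 : f x = ss m f (v - u) + dd m f (v - u) := by
    rw [← f_eq, e1, h]
  have h4 : f (β v - α (u + π)) = ss m f (v - (u + π)) + dd m f (v - (u + π)) := by
    rw [← f_eq, h]
  have h5 : ss m f (v - u) = ss m f (v - (u + π)) := by
    rw [← hπ (v - (u + π))]
    congr 1; ring
  rw [h1, h5] at h3
  rw [h2] at h4
  linear_combination h3 + h4 + z2_add_self (ss m f (v - (u + π))) -
    z2_add_self (dd m f x) - z2_add_self (dd m f (β v - α (u + π)))

lemma MM_or (hm : Odd m) (j : ℤ) : j • MM m = 0 ∨ j • MM m = MM m := by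
  rw [← two_mul_zero_iff hm, mul_smul_comm, two_mul_MM, smul_zero]

lemma ss_add_zsmul (hm : Odd m) (x : ZMod (2 * m)) (j : ℤ) :
    ss m f (x + j • MM m) = ss m f x := by
  rcases MM_or hm j with h | h
  · rw [h, add_zero]
  · rw [h, ss_add hm]

open Classical in
/-- counting even solutions -/
noncomputable def nn [NeZero (2 * m)] (f : ZMod (2 * m) → ZMod 2) (d : ZMod (2 * m)) :
    Finset (ZMod (2 * m)) :=
  Finset.univ.filter (fun w => par m w = 0 ∧ ss m f w = 1 ∧ ss m f (d - w) = 1)

lemma mem_nn [NeZero (2 * m)] {d w : ZMod (2 * m)} :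
    w ∈ nn f d ↔ par m w = 0 ∧ ss m f w = 1 ∧ ss m f (d - w) = 1 := by
  simp [nn]

lemma nn_card [NeZero (2 * m)] (hm : Odd m) {d e : ZMod (2 * m)} (he : par m e = 0)
    (hd : 2 * e = d ∨ 2 * e = d + MM m) : ((nn f d).card : ZMod 2) = ss m f e := by
  classical
  have hde : ∀ w, ss m f (d - w) = ss m f (2 * e - w) := by
    intro w
    rcases hd with h | h
    · rw [h]
    · rw [h, ← ss_add hm (d - w)]; congr 1; ring
  have h1 : (((nn f d).filter (fun w => ¬ w = e)).card : ZMod 2) = 0 := by
    rw [Finset.cast_card]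
    refine Finset.sum_involution (fun w _ => 2 * e - w) ?_ ?_ ?_ ?_
    · intro a _; decide
    · intro a ha _ h
      rw [Finset.mem_filter, mem_nn] at ha
      apply ha.2
      have h2 : 2 * (a - e) = 0 := by linear_combination -h
      rcases (two_mul_zero_iff hm _).1 h2 with h3 | h3
      · exact sub_eq_zero.1 h3
      · exfalso
        have h4 := congrArg (par m) h3
        rw [map_sub, ha.1.1, he, par_MM hm] at h4
        exact absurd h4 (by decide)
    · intro a ha
      rw [Finset.mem_filter, mem_nn] at ha ⊢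
      refine ⟨⟨?_, ?_, ?_⟩, ?_⟩
      · rw [map_sub, map_mul, par_two, zero_mul, ha.1.1, sub_zero]
      · rw [← hde]; exact ha.1.2.2
      · rw [hde, sub_sub_cancel]; exact ha.1.2.1
      · intro h
        apply ha.2
        linear_combination -h
    · intro a _; ring
  have h2 := Finset.card_filter_add_card_filter_not (s := nn f d) (fun w => w = e)
  have h3 : ((nn f d).card : ZMod 2) = (((nn f d).filter (fun w => w = e)).card : ZMod 2) := by
    rw [← h2]; push_cast; rw [h1, add_zero]
  rw [h3]
  have h4 : ss m f (d - e) = ss m f e := by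
    rw [hde]; congr 1; ring
  rcases zmod2_cases (ss m f e) with h | h
  · have : (nn f d).filter (fun w => w = e) = ∅ := by
      rw [Finset.filter_eq_empty_iff]
      rintro w hw rfl
      rw [mem_nn, h] at hw
      exact absurd hw.2.1 (by decide)
    rw [this, h, Finset.card_empty, Nat.cast_zero]
  · have : (nn f d).filter (fun w => w = e) = {e} := by
      ext w
      rw [Finset.mem_filter, Finset.mem_singleton, mem_nn]
      constructor
      · rintro ⟨_, h5⟩; exact h5
      · rintro rfl
        exact ⟨⟨he, h, by rw [h4, h]⟩, rfl⟩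
    rw [this, h, Finset.card_singleton, Nat.cast_one]

open Classical in
/-- counting all solutions -/
noncomputable def nN [NeZero (2 * m)] (f : ZMod (2 * m) → ZMod 2) (d : ZMod (2 * m)) :
    Finset (ZMod (2 * m)) :=
  Finset.univ.filter (fun w => ss m f w = 1 ∧ ss m f (d - w) = 1)

lemma mem_nN [NeZero (2 * m)] {d w : ZMod (2 * m)} :
    w ∈ nN f d ↔ ss m f w = 1 ∧ ss m f (d - w) = 1 := by
  simp [nN]

lemma nN_card [NeZero (2 * m)] (hm : Odd m) (d : ZMod (2 * m)) :
    (nN f d).card = 2 * (nn f d).card := by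
  classical
  have h2 := Finset.card_filter_add_card_filter_not (s := nN f d) (fun w => par m w = 0)
  have h3 : (nN f d).filter (fun w => par m w = 0) = nn f d := by
    ext w
    rw [Finset.mem_filter, mem_nN, mem_nn]
    tauto
  have h4 : ((nN f d).filter (fun w => ¬ par m w = 0)).card = (nn f d).card := by
    apply Finset.card_bij (fun w _ => w + MM m)
    · intro w hw
      rw [Finset.mem_filter, mem_nN] at hw
      rw [mem_nn]
      refine ⟨?_, ?_, ?_⟩
      · rw [par_add_MM hm]
        have := hw.2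
        revert this
        generalize par m w = a
        revert a; decide
      · rw [ss_add hm]; exact hw.1.1
      · rw [← ss_add hm]
        rw [← hw.1.2]
        congr 1; ring
    · intro a _ b _ hab
      exact add_right_cancel hab
    · intro w hw
      rw [mem_nn] at hw
      refine ⟨w + MM m, ?_, add_MM_MM w⟩
      rw [Finset.mem_filter, mem_nN]
      refine ⟨⟨?_, ?_⟩, ?_⟩
      · rw [ss_add hm]; exact hw.2.1
      · rw [← ss_add hm, ← hw.2.2]
        congr 1; ring
      · rw [par_add_MM hm, hw.1]; decide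
  rw [← h2, h3, h4]; ring

lemma ss_half [NeZero (2 * m)] (hm : Odd m) (d : ZMod (2 * m)) :
    ((nn f d).card : ZMod 2) = ss m f ((((m : ℤ) + 1) / 2) • d) := by
  obtain ⟨k, hk⟩ := hm
  have hk' : (m : ℤ) = 2 * k + 1 := by exact_mod_cast hk
  have hq : ((m : ℤ) + 1) / 2 = k + 1 := by omega
  set e : ZMod (2 * m) := (((m : ℤ) + 1) / 2) • d with he
  have h2e : 2 * e = d + m • d := by
    rw [he, hq]
    have h1 : m • d = (2 * k + 1) • d := congrArg (fun n : ℕ => n • d) hk
    rw [h1, zsmul_eq_mul, nsmul_eq_mul]; push_cast; ring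
  have hmd : m • d = 0 ∨ m • d = MM m := by
    rw [← two_mul_zero_iff ⟨k, hk⟩, nsmul_eq_mul]
    have := two_mul_MM (m := m)
    rw [MM] at this
    linear_combination d * this
  have hd : 2 * e = d ∨ 2 * e = d + MM m := by
    rcases hmd with h | h
    · left; rw [h2e, h, add_zero]
    · right; rw [h2e, h]
  rcases zmod2_cases (par m e) with h | h
  · exact nn_card ⟨k, hk⟩ h hd
  · rw [← ss_add ⟨k, hk⟩ e]
    apply nn_card ⟨k, hk⟩
    · rw [par_add_MM ⟨k, hk⟩, h]; decide
    · have : 2 * (e + MM m) = 2 * e := by rw [mul_add, two_mul_MM, add_zero]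
      rw [this]; exact hd

/-- two-trick for the periodic part -/
lemma ss_pres (hm : Odd m) (hf : ∀ x, f (-x) = f x) {α β : Equiv.Perm (ZMod (2 * m))}
    (h : ∀ u v, ss m f (β v - α u) = ss m f (v - u)) (x y : ZMod (2 * m)) :
    ss m f (α y - α x) = ss m f (y - x) := by
  have : NeZero (2 * m) := ⟨by have := hm.pos; omega⟩
  have h1 : ∀ x y, (nN f (α y - α x)).card = (nN f (y - x)).card := by
    intro x y
    symm
    apply Finset.card_bij (fun w _ => β (w + x) - α x)
    · intro w hw
      rw [mem_nN] at hw ⊢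
      refine ⟨?_, ?_⟩
      · rw [h, add_sub_cancel_right]; exact hw.1
      · have e1 : α y - α x - (β (w + x) - α x) = -(β (w + x) - α y) := by ring
        rw [e1, ss_neg hf, h, ← ss_neg hf]
        rw [← hw.2]
        congr 1; ring
    · intro a _ b _ hab
      exact add_right_cancel (β.injective (sub_left_injective hab))
    · intro w hw
      rw [mem_nN] at hw
      refine ⟨β.symm (w + α x) - x, ?_, by simp⟩
      rw [mem_nN]
      refine ⟨?_, ?_⟩
      · rw [← h, Equiv.apply_symm_apply, add_sub_cancel_right]; exact hw.1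
      · have e1 : y - x - (β.symm (w + α x) - x) = -(β.symm (w + α x) - y) := by ring
        rw [e1, ss_neg hf, ← h, Equiv.apply_symm_apply, ← ss_neg hf, ← hw.2]
        congr 1; ring
  have h2 : Pres α {z | ss m f ((((m : ℤ) + 1) / 2) • z) = 1} := by
    intro x y
    change ss m f ((((m : ℤ) + 1) / 2) • (y - x)) = 1 ↔ ss m f ((((m : ℤ) + 1) / 2) • (α y - α x)) = 1
    have h3 := h1 x y
    rw [nN_card hm, nN_card hm] at h3
    have h4 : (nn f (α y - α x)).card = (nn f (y - x)).card := by omega
    rw [← ss_half hm, ← ss_half hm, h4]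
  have h3 := pres_smul (cop_m2 hm) h2
  have h4 : ∀ z : ZMod (2 * m), ss m f ((((m : ℤ) + 1) / 2) • (((m : ℤ) + 2) • z)) = ss m f z := by
    intro z
    obtain ⟨k, hk⟩ := hm
    have hk' : (m : ℤ) = 2 * k + 1 := by exact_mod_cast hk
    have hq : ((m : ℤ) + 1) / 2 = k + 1 := by omega
    have h5 : (((m : ℤ) + 1) / 2) • (((m : ℤ) + 2) • z) = z + ((k : ℤ) + 2) • (m • z) := by
      rw [hq, ← natCast_zsmul z m, ← mul_smul, ← mul_smul]
      have h6 : ((k : ℤ) + 1) * ((m : ℤ) + 2) = 1 + (k + 2) * (m : ℤ) := by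
        rw [hk']; ring
      rw [h6, add_smul, one_smul]
    rw [h5]
    have hmd : m • z = 0 ∨ m • z = MM m := by
      rw [← two_mul_zero_iff ⟨k, hk⟩, nsmul_eq_mul]
      have := two_mul_MM (m := m)
      rw [MM] at this
      linear_combination z * this
    rcases hmd with h | h
    · rw [h, smul_zero, add_zero]
    · rw [h, ss_add_zsmul ⟨k, hk⟩]
  apply z2_ext
  have h5 := h3 x y
  have h6 : ∀ z, z ∈ {z : ZMod (2 * m) | ((m : ℤ) + 2) • z ∈
      {z : ZMod (2 * m) | ss m f ((((m : ℤ) + 1) / 2) • z) = 1}} ↔ ss m f z = 1 := by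
    intro z
    change ss m f ((((m : ℤ) + 1) / 2) • (((m : ℤ) + 2) • z)) = 1 ↔ ss m f z = 1
    rw [h4]
  rw [h6, h6] at h5
  exact h5.symm

end Pool.Agent.Helper589TypeII
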