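import Pool.Agent.Helper589_TypeII.PA2

/-!
Periods of the periodic part lie in Q; two-fold automorphisms modulo K = Q ∪ (Q + m).
-/

namespace Pool.Agent.Helper589TypeII

variable {m : ℕ} {f : ZMod (2 * m) → ZMod 2}

lemma pigeon (hm : Odd m) {Q : AddSubgroup (ZMod (2 * m))} (hQ : Q ≤ ev m) {r : ZMod (2 * m)}
    (hr : par m r = 0) (hrQ : r ∉ Q) (x₀ : ZMod (2 * m)) (c : Fin 4 → ZMod (2 * m))
    (h : ∀ i : Fin 5, ∃ j : Fin 4,
      x₀ + (![0, r, 2 * r, MM m, MM m + r] : Fin 5 → ZMod (2 * m)) i - c j ∈ Q) : False := by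
  choose φ hφ using h
  obtain ⟨i, i', hne, hφφ⟩ := Fintype.exists_ne_map_eq_of_card_lt φ (by simp)
  have h1 := Q.sub_mem (hφ i) (hφ i')
  rw [hφφ] at h1
  have h2 : (![0, r, 2 * r, MM m, MM m + r] : Fin 5 → ZMod (2 * m)) i -
      (![0, r, 2 * r, MM m, MM m + r] : Fin 5 → ZMod (2 * m)) i' ∈ Q := by
    convert h1 using 1; ring
  have hr2 : 2 * r ∉ Q := fun h => hrQ (mem_of_two hm ((mem_ev hm r).2 hr) h)
  have hpar : ∀ z, z ∈ Q → par m z = 0 := fun z hz => (mem_ev hm z).1 (hQ hz)
  have hodd : ∀ z, par m z = 1 → z ∉ Q := by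
    intro z hz hzQ
    rw [hpar z hzQ] at hz
    exact absurd hz (by decide)
  have hpm := par_MM hm
  have o1 : MM m ∉ Q := hodd _ hpm
  have o2 : MM m + r ∉ Q := hodd _ (by rw [map_add, hpm, hr]; decide)
  have o3 : MM m - r ∉ Q := hodd _ (by rw [map_sub, hpm, hr]; decide)
  have o4 : MM m - 2 * r ∉ Q := hodd _ (by rw [map_sub, map_mul, par_two, hpm, zero_mul, sub_zero])
  have key : ∀ a b : ZMod (2 * m), a - b ∈ Q → (a - b ∉ Q ∨ b - a ∉ Q) → False := by
    intro a b h3 h4
    rcases h4 with h4 | h4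
    · exact h4 h3
    · apply h4
      rw [← neg_sub]; exact Q.neg_mem h3
  refine key _ _ h2 ?_
  clear h1 h2 hφ hφφ
  fin_cases i <;> fin_cases i' <;> first
    | exact absurd rfl hne
    | (left; change r - 0 ∉ Q; rwa [sub_zero])
    | (right; change r - 0 ∉ Q; rwa [sub_zero])
    | (left; change 2 * r - 0 ∉ Q; rwa [sub_zero])
    | (right; change 2 * r - 0 ∉ Q; rwa [sub_zero])
    | (left; change MM m - 0 ∉ Q; rwa [sub_zero])
    | (right; change MM m - 0 ∉ Q; rwa [sub_zero])
    | (left; change MM m + r - 0 ∉ Q; rwa [sub_zero])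
    | (right; change MM m + r - 0 ∉ Q; rwa [sub_zero])
    | (left; change 2 * r - r ∉ Q; rwa [show 2 * r - r = r from by ring])
    | (right; change 2 * r - r ∉ Q; rwa [show 2 * r - r = r from by ring])
    | (left; change MM m - r ∉ Q; exact o3)
    | (right; change MM m - r ∉ Q; exact o3)
    | (left; change MM m + r - r ∉ Q; rwa [add_sub_cancel_right])
    | (right; change MM m + r - r ∉ Q; rwa [add_sub_cancel_right])
    | (left; change MM m - 2 * r ∉ Q; exact o4)
    | (right; change MM m - 2 * r ∉ Q; exact o4)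
    | (left; change MM m + r - 2 * r ∉ Q; rwa [show MM m + r - 2 * r = MM m - r from by ring])
    | (right; change MM m + r - 2 * r ∉ Q; rwa [show MM m + r - 2 * r = MM m - r from by ring])
    | (left; change MM m + r - MM m ∉ Q; rwa [add_sub_cancel_left])
    | (right; change MM m + r - MM m ∉ Q; rwa [add_sub_cancel_left])

lemma z2_four {a b c d : ZMod 2} (h : a + b + c + d = 1) : a = 1 ∨ b = 1 ∨ c = 1 ∨ d = 1 := by
  revert a b c d; decide

lemma exists_dd (C : Circ m f) : ∃ d, dd m f d = 1 := by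
  by_contra hcon
  push Not at hcon
  have h0 : ∀ x, dd m f x = 0 := fun x => by
    rcases zmod2_cases (dd m f x) with h | h
    · exact h
    · exact absurd h (hcon x)
  apply MM_ne C.odd
  apply C.tw
  intro x
  have h1 := f_add_f (f := f) C.odd x
  rw [h0, h0, add_zero] at h1
  have h2 : ∀ a b : ZMod 2, a + b = 0 → b = a := by decide
  exact h2 _ _ h1

/-- periods of the periodic part lie in Q -/
lemma period_mem (C : Circ m f) {α β : Equiv.Perm (ZMod (2 * m))} (h : TF f α β) (hne : α ≠ β)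
    {r : ZMod (2 * m)} (hr : par m r = 0) (hper : ∀ x, ss m f (x + r) = ss m f x) :
    r ∈ QQ m f := by
  by_contra hrQ
  have hm := C.odd
  have hf := C.sym
  have hQle := QQ_le (f := f) hm
  have hr2 : 2 * r ∉ QQ m f := fun h => hrQ (mem_of_two hm ((mem_ev hm r).2 hr) h)
  have hper2 : ∀ x, ss m f (x + 2 * r) = ss m f x := by
    intro x
    have e1 : x + 2 * r = x + r + r := by ring
    rw [e1, hper, hper]
  have hβ := h.swap hf
  -- the four-term sum vanishes
  have vanish : ∀ π, (∀ x, ss m f (x + π) = ss m f x) → ∀ u x,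
      dd m f x + dd m f (x - (α (u + π) - α u)) + dd m f (x - (β u - α u)) +
        dd m f (x - (β (u + π) - α u)) = 0 := by
    intro π hπ u x₀
    by_contra hcon
    set t := α (u + π) - α u with ht
    set b₁ := β u - α u with hb₁
    set b₂ := β (u + π) - α u with hb₂
    have hI := ident hm hf h hπ u
    rw [← ht, ← hb₁, ← hb₂] at hI
    have h1 : ss m f x₀ + ss m f (x₀ - t) = 1 := by
      rw [hI x₀]
      rcases zmod2_cases (dd m f x₀ + dd m f (x₀ - t) + dd m f (x₀ - b₁) + dd m f (x₀ - b₂))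
        with h2 | h2
      · exact absurd h2 hcon
      · exact h2
    have h2 : ∀ ρ, (∀ x, ss m f (x + ρ) = ss m f x) →
        ∃ j : Fin 4, x₀ + ρ - (![0, t, b₁, b₂] : Fin 4 → ZMod (2 * m)) j ∈ QQ m f := by
      intro ρ hρ
      have h3 := hI (x₀ + ρ)
      have e1 : x₀ + ρ - t = (x₀ - t) + ρ := by ring
      rw [hρ, e1, hρ, h1, ← e1] at h3
      rcases z2_four h3.symm with h4 | h4 | h4 | h4
      · exact ⟨0, by change x₀ + ρ - 0 ∈ QQ m f; rw [sub_zero]; exact mem_QQ_of_dd h4⟩
      · exact ⟨1, mem_QQ_of_dd h4⟩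
      · exact ⟨2, mem_QQ_of_dd h4⟩
      · exact ⟨3, mem_QQ_of_dd h4⟩
    refine pigeon hm hQle hr hrQ x₀ ![0, t, b₁, b₂] ?_
    intro i
    fin_cases i
    · exact h2 0 (fun x => by rw [add_zero])
    · exact h2 r hper
    · exact h2 (2 * r) hper2
    · exact h2 (MM m) (fun x => ss_add hm x)
    · exact h2 (MM m + r) (fun x => by rw [← add_assoc, hper, ss_add hm])
  obtain ⟨d₀, hd₀⟩ := exists_dd C
  have hd₀Q := mem_QQ_of_dd hd₀
  have hsub : ∀ {a : ZMod (2 * m)}, a ∉ QQ m f → dd m f (d₀ - a) = 0 := by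
    intro a ha
    apply dd_zero
    intro h1
    apply ha
    have := (QQ m f).sub_mem hd₀Q h1
    rwa [sub_sub_cancel] at this
  have hb₁ : ∀ u, β u - α u ∈ QQ m f := by
    intro u
    by_contra hcon
    have key : ∀ π, (∀ x, ss m f (x + π) = ss m f x) → π ∉ QQ m f →
        β (u + π) - α u ∈ QQ m f := by
      intro π hπ hπQ
      have ht : α (u + π) - α u ∉ QQ m f := by
        rw [← pres_QQ hm hf h]
        rwa [add_sub_cancel_left]
      have h1 := vanish π hπ u d₀
      rw [hsub ht, hsub hcon, hd₀, add_zero, add_zero] at h1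
      by_contra h2
      rw [hsub h2] at h1
      exact absurd h1 (by decide)
    have h1 := (QQ m f).sub_mem (key _ hper2 hr2) (key _ hper hrQ)
    rw [sub_sub_sub_cancel_right, ← pres_QQ hm hf hβ] at h1
    apply hrQ
    convert h1 using 1; ring
  have hdper : ∀ u x, dd m f (x - (β u - α u)) = dd m f x := by
    intro u x
    have hb2 : β (u + r) - α u ∉ QQ m f := by
      intro h1
      have h2 := (QQ m f).sub_mem h1 (hb₁ u)
      rw [sub_sub_sub_cancel_right, ← pres_QQ hm hf hβ, add_sub_cancel_left] at h2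
      exact hrQ h2
    have ht : α (u + r) - α u ∉ QQ m f := by
      rw [← pres_QQ hm hf h]
      rwa [add_sub_cancel_left]
    by_cases hx : x ∈ QQ m f
    · have h1 := vanish r hper u x
      have e1 : dd m f (x - (α (u + r) - α u)) = 0 := dd_zero fun h2 => ht (by
        have := (QQ m f).sub_mem hx h2
        rwa [sub_sub_cancel] at this)
      have e2 : dd m f (x - (β (u + r) - α u)) = 0 := dd_zero fun h2 => hb2 (by
        have := (QQ m f).sub_mem hx h2
        rwa [sub_sub_cancel] at this)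
      rw [e1, e2, add_zero, add_zero] at h1
      have h2 : ∀ a b : ZMod 2, a + b = 0 → b = a := by decide
      exact h2 _ _ h1
    · rw [dd_zero hx]
      apply dd_zero
      intro h1
      apply hx
      have := (QQ m f).add_mem h1 (hb₁ u)
      rwa [sub_add_cancel] at this
  have hssTF : ∀ u v, ss m f (β v - α u) = ss m f (v - u) := by
    intro u v
    have h1 := h u v
    have h2 := f_eq (f := f) (β v - α u)
    have h3 := f_eq (f := f) (v - u)
    have h4 : dd m f (β v - α u) = dd m f (v - u) := by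
      rw [← hdper u (β v - α u), sub_sub_sub_cancel_right, dd_tf hm hf hβ]
    rw [h2, h3, h4] at h1
    exact add_right_cancel h1
  have hpres := ss_pres hm hf hssTF
  apply hne
  ext y
  have hγ : β y - α y = 0 := by
    apply C.tw
    intro z
    obtain ⟨x, hx⟩ : ∃ x, α x = α y - z := ⟨α⁻¹ (α y - z), by simp⟩
    have h1 := hssTF x y
    have h2 := hpres x y
    have e1 : β y - α x = z + (β y - α y) := by rw [hx]; ring
    have e2 : α y - α x = z := by rw [hx]; ring
    rw [e1] at h1
    rw [e2] at h2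
    rw [f_eq (f := f) (z + (β y - α y)), f_eq (f := f) z, h1, h2,
      ← hdper y (z + (β y - α y)), add_sub_cancel_right]
  exact (sub_eq_zero.1 hγ).symm

end Pool.Agent.Helper589TypeII
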