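import Pool.Agent.Helper589_TypeII.PA3

/-!
Two-fold automorphisms modulo K = Q ∪ (Q + m): the coset analysis.
-/

namespace Pool.Agent.Helper589TypeII

variable {m : ℕ} {f : ZMod (2 * m) → ZMod 2}

/-- hypotheses of the coset analysis -/
structure Cos (m : ℕ) (f : ZMod (2 * m) → ZMod 2) (t b₁ b₂ : ZMod (2 * m)) : Prop where
  circ : Circ m f
  per : ∀ r, par m r = 0 → (∀ x, ss m f (x + r) = ss m f x) → r ∈ QQ m f
  ht : t ∉ QQ m f
  hb : b₁ - b₂ ∉ QQ m f
  id : ∀ x, ss m f x + ss m f (x - t) =
    dd m f x + dd m f (x - t) + dd m f (x - b₁) + dd m f (x - b₂)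

namespace Cos

variable {t b₁ b₂ : ZMod (2 * m)}

lemma symm (h : Cos m f t b₁ b₂) : Cos m f t b₂ b₁ where
  circ := h.circ
  per := h.per
  ht := h.ht
  hb := fun h1 => h.hb (by rw [← neg_sub]; exact (QQ m f).neg_mem h1)
  id := fun x => by rw [h.id x]; ring

lemma MQ (h : Cos m f t b₁ b₂) : MM m ∉ QQ m f := fun h1 =>
  MM_not_mem h.circ.odd (QQ_le h.circ.odd h1)

/-- the left-hand side -/
def g (m : ℕ) (f : ZMod (2 * m) → ZMod 2) (t x : ZMod (2 * m)) : ZMod 2 :=
  ss m f x + ss m f (x - t)

lemma gid (h : Cos m f t b₁ b₂) (x : ZMod (2 * m)) :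
    g m f t x = dd m f x + dd m f (x - t) + dd m f (x - b₁) + dd m f (x - b₂) := h.id x

lemma gM (h : Cos m f t b₁ b₂) (x : ZMod (2 * m)) : g m f t (x + MM m) = g m f t x := by
  have hm := h.circ.odd
  have e1 : x + MM m - t = (x - t) + MM m := by ring
  rw [g, g, e1, ss_add hm, ss_add hm]

lemma gS (h : Cos m f t b₁ b₂) (x : ZMod (2 * m)) : g m f t (t - x) = g m f t x := by
  have hf := h.circ.sym
  have e1 : t - x = -(x - t) := by ring
  have e2 : t - x - t = -x := by ring
  rw [g, g, e2, e1, ss_neg hf, ss_neg hf, add_comm]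

/-- If g x ≠ 0 then x lies in one of four cosets. -/
lemma g_one (h : Cos m f t b₁ b₂) {x : ZMod (2 * m)} (hx : g m f t x = 1) :
    x ∈ QQ m f ∨ x - t ∈ QQ m f ∨ x - b₁ ∈ QQ m f ∨ x - b₂ ∈ QQ m f := by
  rw [h.gid] at hx
  rcases z2_four hx with h1 | h1 | h1 | h1
  · exact Or.inl (mem_QQ_of_dd h1)
  · exact Or.inr (Or.inl (mem_QQ_of_dd h1))
  · exact Or.inr (Or.inr (Or.inl (mem_QQ_of_dd h1)))
  · exact Or.inr (Or.inr (Or.inr (mem_QQ_of_dd h1)))

lemma sub_MM (x : ZMod (2 * m)) : x - MM m = x + MM m := by
  rw [sub_eq_add_neg, neg_MM]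

lemma caseA (h : Cos m f t b₁ b₂) (htM : t + MM m ∉ QQ m f) (hb : b₁ ∈ QQ m f) : False := by
  have hm := h.circ.odd
  have hMQ := h.MQ
  have hb₂ : b₂ ∉ QQ m f := fun h1 => h.hb ((QQ m f).sub_mem hb h1)
  obtain ⟨d₀, hd₀⟩ := exists_dd h.circ
  have hd₀Q := mem_QQ_of_dd hd₀
  have A1 : b₂ - t ∈ QQ m f := by
    by_contra hcon
    have g1 : g m f t (b₂ + d₀) = 1 := by
      rw [h.gid]
      have e1 : dd m f (b₂ + d₀) = 0 := dd_zero fun h1 => hb₂ (by
        have := (QQ m f).sub_mem h1 hd₀Q
        rwa [add_sub_cancel_right] at this)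
      have e2 : dd m f (b₂ + d₀ - t) = 0 := dd_zero fun h1 => hcon (by
        have := (QQ m f).sub_mem h1 hd₀Q
        convert this using 1; ring)
      have e3 : dd m f (b₂ + d₀ - b₁) = 0 := dd_zero fun h1 => hb₂ (by
        have := (QQ m f).add_mem ((QQ m f).sub_mem h1 hd₀Q) hb
        convert this using 1; ring)
      rw [e1, e2, e3, add_sub_cancel_left, hd₀]; decide
    have g2 := h.gS (b₂ + d₀)
    rw [g1] at g2
    have g3 := h.gM (b₂ + d₀)
    rw [g1] at g3
    have h1 : t - 2 * b₂ ∈ QQ m f := by
      rcases h.g_one g2 with h2 | h2 | h2 | h2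
      · exfalso; apply hcon
        have := (QQ m f).neg_mem ((QQ m f).add_mem h2 hd₀Q)
        convert this using 1; ring
      · exfalso; apply hb₂
        have := (QQ m f).neg_mem ((QQ m f).add_mem h2 hd₀Q)
        convert this using 1; ring
      · exfalso; apply hcon
        have := (QQ m f).neg_mem ((QQ m f).add_mem ((QQ m f).add_mem h2 hd₀Q) hb)
        convert this using 1; ring
      · have := (QQ m f).add_mem h2 hd₀Q
        convert this using 1; ring
    have h3 : b₂ + MM m ∉ QQ m f := by
      intro h4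
      apply h.ht
      have := (QQ m f).add_mem h1 ((QQ m f).add_mem h4 h4)
      convert this using 1
      linear_combination -(MM_add (m := m))
    rcases h.g_one g3 with h2 | h2 | h2 | h2
    · apply h3
      have := (QQ m f).sub_mem h2 hd₀Q
      convert this using 1; ring
    · apply h3
      have := (QQ m f).neg_mem ((QQ m f).add_mem ((QQ m f).sub_mem h2 hd₀Q) h1)
      convert this using 1
      linear_combination (MM_add (m := m))
    · apply h3
      have := (QQ m f).add_mem ((QQ m f).sub_mem h2 hd₀Q) hb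
      convert this using 1; ring
    · apply hMQ
      have := (QQ m f).sub_mem h2 hd₀Q
      convert this using 1; ring
  have hin : ∀ x, g m f t x = 1 → x ∈ QQ m f ∨ x - t ∈ QQ m f := by
    intro x hx
    rcases h.g_one hx with h2 | h2 | h2 | h2
    · exact Or.inl h2
    · exact Or.inr h2
    · left
      have := (QQ m f).add_mem h2 hb
      rwa [sub_add_cancel] at this
    · right
      have := (QQ m f).add_mem h2 A1
      convert this using 1; ring
  have A2 : ∀ x, g m f t x = 0 := by
    intro x
    rcases zmod2_cases (g m f t x) with h0 | h0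
    · exact h0
    exfalso
    have h1 := h.gM x
    rw [h0] at h1
    rcases hin _ h0 with h2 | h2 <;> rcases hin _ h1 with h3 | h3
    · apply hMQ
      have := (QQ m f).sub_mem h3 h2
      rwa [add_sub_cancel_left] at this
    · apply htM
      have := (QQ m f).sub_mem h2 h3
      convert this using 1
      linear_combination (MM_add (m := m))
    · apply htM
      have := (QQ m f).sub_mem h3 h2
      convert this using 1; ring
    · apply hMQ
      have := (QQ m f).sub_mem h3 h2
      convert this using 1; ring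
  have A3 : ∀ x, ss m f (x + t) = ss m f x := by
    intro x
    have h1 := A2 (x + t)
    rw [g, add_sub_cancel_right] at h1
    have h2 : ∀ a b : ZMod 2, a + b = 0 → a = b := by decide
    exact h2 _ _ h1
  rcases zmod2_cases (par m t) with h1 | h1
  · exact h.ht (h.per t h1 A3)
  · apply htM
    apply h.per
    · rw [par_add_MM hm, h1]; decide
    · intro x
      rw [← add_assoc, ss_add hm, A3]

lemma caseB (h : Cos m f t b₁ b₂) (htM : t + MM m ∉ QQ m f) (hb : b₁ + MM m ∈ QQ m f)
    (hb₂ : b₂ ∉ QQ m f) : False := by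
  have hm := h.circ.odd
  have hMQ := h.MQ
  have hb₁ : b₁ ∉ QQ m f := fun h1 => hMQ (by
    have := (QQ m f).sub_mem hb h1
    rwa [add_sub_cancel_left] at this)
  have hb₂M : b₂ + MM m ∉ QQ m f := fun h1 => h.hb (by
    have := (QQ m f).sub_mem hb h1
    rwa [add_sub_add_right_eq_sub] at this)
  obtain ⟨d₀, hd₀⟩ := exists_dd h.circ
  have hd₀Q := mem_QQ_of_dd hd₀
  have hsub : ∀ {a : ZMod (2 * m)}, a ∉ QQ m f → dd m f (d₀ - a) = 0 := by
    intro a ha
    apply dd_zero
    intro h1
    apply ha
    have := (QQ m f).sub_mem hd₀Q h1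
    rwa [sub_sub_cancel] at this
  have g1 : g m f t d₀ = 1 := by
    rw [h.gid, hd₀, hsub h.ht, hsub hb₁, hsub hb₂]; decide
  have B1 : t + MM m - b₂ ∈ QQ m f := by
    have g2 := h.gM d₀
    rw [g1] at g2
    have g3 := h.gS (d₀ + MM m)
    rw [g2] at g3
    rcases h.g_one g3 with h2 | h2 | h2 | h2
    · exfalso; apply htM
      have := (QQ m f).add_mem h2 hd₀Q
      convert this using 1
      linear_combination (MM_add (m := m))
    · exfalso; apply hMQ
      have := (QQ m f).neg_mem ((QQ m f).add_mem h2 hd₀Q)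
      convert this using 1; ring
    · exfalso; apply h.ht
      have := (QQ m f).add_mem ((QQ m f).add_mem h2 hd₀Q) hb
      convert this using 1; ring
    · have h3 := (QQ m f).add_mem h2 hd₀Q
      convert h3 using 1
      linear_combination (MM_add (m := m))
  have B2 : ∀ x, dd m f (x + MM m - b₁) = dd m f x := by
    intro x
    by_cases hx : x ∈ QQ m f
    · have h1 := h.gM x
      have hsx : ∀ {a : ZMod (2 * m)}, a ∉ QQ m f → dd m f (x - a) = 0 := by
        intro a ha
        apply dd_zero
        intro h1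
        apply ha
        have := (QQ m f).sub_mem hx h1
        rwa [sub_sub_cancel] at this
      have e1 : dd m f (x + MM m) = 0 := by
        rw [← sub_MM]; exact hsx hMQ
      have e2 : dd m f (x + MM m - t) = 0 := by
        have : x + MM m - t = x - (t + MM m) := by linear_combination (MM_add (m := m))
        rw [this]; exact hsx htM
      have e3 : dd m f (x + MM m - b₂) = 0 := by
        have : x + MM m - b₂ = x - (b₂ + MM m) := by linear_combination (MM_add (m := m))
        rw [this]; exact hsx hb₂M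
      rw [h.gid, h.gid, e1, e2, e3, hsx h.ht, hsx hb₁, hsx hb₂] at h1
      simpa using h1
    · rw [dd_zero hx]
      apply dd_zero
      intro h1
      apply hx
      have := (QQ m f).add_mem h1 hb
      convert this using 1
      linear_combination -(MM_add (m := m))
  have B3 : ∀ x, dd m f (x + MM m - b₂) = dd m f (x - t) := by
    intro x
    by_cases hx : x - t ∈ QQ m f
    · have h1 := h.gM x
      have e0 : dd m f x = 0 := dd_zero fun h2 => h.ht (by
        have := (QQ m f).sub_mem h2 hx
        rwa [sub_sub_cancel] at this)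
      have e0' : dd m f (x - b₁) = 0 := dd_zero fun h2 => htM (by
        have := (QQ m f).add_mem ((QQ m f).sub_mem h2 hx) hb
        convert this using 1; ring)
      have e0'' : dd m f (x - b₂) = 0 := dd_zero fun h2 => hMQ (by
        have := (QQ m f).sub_mem B1 ((QQ m f).sub_mem h2 hx)
        convert this using 1; ring)
      have e1 : dd m f (x + MM m) = 0 := dd_zero fun h2 => htM (by
        have := (QQ m f).sub_mem h2 hx
        convert this using 1; ring)
      have e2 : dd m f (x + MM m - t) = 0 := dd_zero fun h2 => hMQ (by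
        have := (QQ m f).sub_mem h2 hx
        convert this using 1; ring)
      have e3 : dd m f (x + MM m - b₁) = 0 := dd_zero fun h2 => h.ht (by
        have := (QQ m f).add_mem ((QQ m f).sub_mem h2 hx) hb
        convert this using 1
        linear_combination -(MM_add (m := m)))
      rw [h.gid, h.gid, e0, e0', e0'', e1, e2, e3] at h1
      simpa using h1
    · rw [dd_zero hx]
      apply dd_zero
      intro h1
      apply hx
      have := (QQ m f).sub_mem h1 B1
      convert this using 1; ring
  have B4 : ∀ x, ss m f x + dd m f x + dd m f (x + MM m) =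
      ss m f (x - t) + dd m f (x - t) + dd m f (x - t + MM m) := by
    intro x
    have h1 := h.id x
    have h2 := B2 (x + MM m)
    have h3 := B3 (x + MM m)
    rw [add_MM_MM] at h2 h3
    have e1 : x + MM m - t = x - t + MM m := by ring
    rw [e1] at h3
    rw [h2, h3] at h1
    linear_combination h1 - z2_add_self (ss m f (x - t)) + z2_add_self (dd m f x) +
      z2_add_self (dd m f (x + MM m))
  have hs0 : ∀ x, par m x = 0 → ss m f x + dd m f x + dd m f (x + MM m) = f x := by
    intro x hx
    rw [← f_eq, dd_odd (x := x + MM m) (by rw [par_add_MM hm, hx, zero_add]), add_zero]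
  have hsM : ∀ x, ss m f (x + MM m) + dd m f (x + MM m) + dd m f (x + MM m + MM m) =
      ss m f x + dd m f x + dd m f (x + MM m) := by
    intro x
    rw [ss_add hm, add_MM_MM]; ring
  rcases zmod2_cases (par m t) with h1 | h1
  · apply h.ht
    have h2 : t = 0 := by
      apply aper h.circ h1
      intro x hx
      have h3 := B4 (x + t)
      rw [add_sub_cancel_right, hs0 x hx, hs0 (x + t) (by rw [map_add, hx, h1]; decide)] at h3
      exact h3
    rw [h2]; exact (QQ m f).zero_mem
  · apply htM
    have h2 : t + MM m = 0 := by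
      apply aper h.circ
      · rw [par_add_MM hm, h1]; decide
      · intro x hx
        have h3 := B4 (x + t)
        rw [add_sub_cancel_right, hs0 x hx, ← hsM (x + t), add_assoc x t,
          hs0 _ (by rw [map_add, par_add_MM hm, hx, h1]; decide)] at h3
        exact h3
    rw [h2]; exact (QQ m f).zero_mem

lemma tM (h : Cos m f t b₁ b₂) : t + MM m ∈ QQ m f := by
  by_contra htM
  by_cases h1 : b₁ ∈ QQ m f
  · exact h.caseA htM h1
  by_cases h2 : b₂ ∈ QQ m f
  · exact h.symm.caseA htM h2
  have hMQ := h.MQ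
  obtain ⟨d₀, hd₀⟩ := exists_dd h.circ
  have hd₀Q := mem_QQ_of_dd hd₀
  have hsub : ∀ {a : ZMod (2 * m)}, a ∉ QQ m f → dd m f (d₀ - a) = 0 := by
    intro a ha
    apply dd_zero
    intro h1
    apply ha
    have := (QQ m f).sub_mem hd₀Q h1
    rwa [sub_sub_cancel] at this
  have g1 : g m f t d₀ = 1 := by
    rw [h.gid, hd₀, hsub h.ht, hsub h1, hsub h2]; decide
  have g2 := h.gM d₀
  rw [g1] at g2
  rcases h.g_one g2 with h3 | h3 | h3 | h3
  · apply hMQ
    have := (QQ m f).sub_mem h3 hd₀Q
    convert this using 1; ring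
  · apply htM
    have := (QQ m f).neg_mem ((QQ m f).sub_mem h3 hd₀Q)
    convert this using 1
    linear_combination (MM_add (m := m))
  · refine h.caseB htM ?_ h2
    have := (QQ m f).neg_mem ((QQ m f).sub_mem h3 hd₀Q)
    convert this using 1
    linear_combination (MM_add (m := m))
  · refine h.symm.caseB htM ?_ h1
    have := (QQ m f).neg_mem ((QQ m f).sub_mem h3 hd₀Q)
    convert this using 1
    linear_combination (MM_add (m := m))

lemma b1 (h : Cos m f t b₁ b₂) : b₁ ∈ QQ m f ∨ b₁ + MM m ∈ QQ m f := by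
  have hm := h.circ.odd
  by_contra hcon
  rw [not_or] at hcon
  obtain ⟨hc1, hc2⟩ := hcon
  have htM := h.tM
  have hMQ := h.MQ
  obtain ⟨d₀, hd₀⟩ := exists_dd h.circ
  have hd₀Q := mem_QQ_of_dd hd₀
  have hQe := QQ_le (f := f) hm
  have g1 : g m f t (b₁ + d₀) = 1 := by
    rw [h.gid]
    have e1 : dd m f (b₁ + d₀) = 0 := dd_zero fun h1 => hc1 (by
      have := (QQ m f).sub_mem h1 hd₀Q
      rwa [add_sub_cancel_right] at this)
    have e2 : dd m f (b₁ + d₀ - t) = 0 := dd_zero fun h1 => hc2 (by
      have := (QQ m f).add_mem ((QQ m f).sub_mem h1 hd₀Q) htM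
      convert this using 1; ring)
    have e3 : dd m f (b₁ + d₀ - b₂) = 0 := dd_zero fun h1 => h.hb (by
      have := (QQ m f).sub_mem h1 hd₀Q
      convert this using 1; ring)
    rw [e1, e2, e3, add_sub_cancel_left, hd₀]; decide
  have g2 := h.gM (b₁ + d₀)
  have g3 := h.gS (b₁ + d₀)
  rw [g1] at g2 g3
  have h1 : b₁ + MM m - b₂ ∈ QQ m f := by
    rcases h.g_one g2 with h3 | h3 | h3 | h3
    · exfalso; apply hc2
      have := (QQ m f).sub_mem h3 hd₀Q
      convert this using 1; ring
    · exfalso; apply hc1
      have := (QQ m f).add_mem ((QQ m f).sub_mem h3 hd₀Q) htM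
      convert this using 1
      linear_combination -(MM_add (m := m))
    · exfalso; apply hMQ
      have := (QQ m f).sub_mem h3 hd₀Q
      convert this using 1; ring
    · have := (QQ m f).sub_mem h3 hd₀Q
      convert this using 1; ring
  have h2 : 2 * b₁ ∈ QQ m f := by
    rcases h.g_one g3 with h3 | h3 | h3 | h3
    · exfalso; apply hc2
      have := (QQ m f).sub_mem htM ((QQ m f).add_mem h3 hd₀Q)
      convert this using 1; ring
    · exfalso; apply hc1
      have := (QQ m f).neg_mem ((QQ m f).add_mem h3 hd₀Q)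
      convert this using 1; ring
    · exfalso
      have h4 := (QQ m f).sub_mem htM ((QQ m f).add_mem h3 hd₀Q)
      have h5 := (mem_ev hm _).1 (hQe h4)
      have h6 : t + MM m - (t - (b₁ + d₀) - b₁ + d₀) = MM m + 2 * b₁ := by ring
      rw [h6, map_add, par_MM hm, map_mul, par_two, zero_mul, add_zero] at h5
      exact absurd h5 (by decide)
    · have h4 := (QQ m f).sub_mem htM ((QQ m f).add_mem h3 hd₀Q)
      have h5 := (QQ m f).add_mem h4 h1
      convert h5 using 1
      linear_combination -(MM_add (m := m))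
  rcases zmod2_cases (par m b₁) with h3 | h3
  · exact hc1 (mem_of_two hm ((mem_ev hm _).2 h3) h2)
  · apply hc2
    apply mem_of_two hm
    · rw [mem_ev hm, par_add_MM hm, h3]; decide
    · rwa [mul_add, two_mul_MM, add_zero]

end Cos

end Pool.Agent.Helper589TypeII
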