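import Pool.Agent.Helper589_TypeII.PA4

/-!
Groups of two-fold automorphisms: reduction to a twisted structure on the even residues.
-/

namespace Pool.Agent.Helper589TypeII

variable {m : ℕ} {f : ZMod (2 * m) → ZMod 2}

/-- assumptions on f, second form -/
structure CP (m : ℕ) (f : ZMod (2 * m) → ZMod 2) : Prop where
  circ : Circ m f
  per : ∀ r, par m r = 0 → (∀ x, ss m f (x + r) = ss m f x) → r ∈ QQ m f

/-- K = Q ∪ (Q + m) -/
def KK (m : ℕ) (f : ZMod (2 * m) → ZMod 2) : AddSubgroup (ZMod (2 * m)) where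
  carrier := {z | z ∈ QQ m f ∨ z + MM m ∈ QQ m f}
  zero_mem' := Or.inl (QQ m f).zero_mem
  add_mem' := by
    rintro a b (ha | ha) (hb | hb)
    · exact Or.inl ((QQ m f).add_mem ha hb)
    · right
      have := (QQ m f).add_mem ha hb
      convert this using 1; ring
    · right
      have := (QQ m f).add_mem ha hb
      convert this using 1; ring
    · left
      have := (QQ m f).add_mem ha hb
      convert this using 1
      linear_combination -(MM_add (m := m))
  neg_mem' := by
    rintro a (ha | ha)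
    · exact Or.inl ((QQ m f).neg_mem ha)
    · right
      have := (QQ m f).neg_mem ha
      convert this using 1
      linear_combination (MM_add (m := m))

lemma mem_KK {z : ZMod (2 * m)} : z ∈ KK m f ↔ z ∈ QQ m f ∨ z + MM m ∈ QQ m f := Iff.rfl

lemma MM_mem_KK : MM m ∈ KK m f := Or.inr (by rw [MM_add]; exact (QQ m f).zero_mem)

lemma em_mem_KK (ε : ZMod 2) : em m ε ∈ KK m f := by
  rcases zmod2_cases ε with rfl | rfl
  · rw [em_zero]; exact (KK m f).zero_mem
  · rw [em_one]; exact MM_mem_KK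

lemma QQ_par (hm : Odd m) {z : ZMod (2 * m)} (hz : z ∈ QQ m f) : par m z = 0 :=
  (mem_ev hm z).1 (QQ_le hm hz)

lemma QQ_of_KK (hm : Odd m) {z : ZMod (2 * m)} (hz : z ∈ KK m f) (hp : par m z = 0) :
    z ∈ QQ m f := by
  rcases hz with h | h
  · exact h
  · have h1 := QQ_par hm h
    rw [par_add_MM hm, hp] at h1
    exact absurd h1 (by decide)

lemma f_K (hm : Odd m) {x : ZMod (2 * m)} (hx : x ∉ KK m f) : f (x + MM m) = f x := by
  rw [mem_KK, not_or] at hx
  have h1 := f_add_f (f := f) hm x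
  rw [dd_zero hx.1, dd_zero hx.2, add_zero] at h1
  have h2 : ∀ a b : ZMod 2, a + b = 0 → b = a := by decide
  exact h2 _ _ h1

/-- functions constant on K-cosets -/
def Kinv (m : ℕ) (f v : ZMod (2 * m) → ZMod 2) : Prop := ∀ x y, y - x ∈ KK m f → v y = v x

lemma Kinv.em {v : ZMod (2 * m) → ZMod 2} (hv : Kinv m f v) (x : ZMod (2 * m)) (ε : ZMod 2) :
    v (x + em m ε) = v x := by
  apply hv
  rw [add_sub_cancel_left]; exact em_mem_KK ε

/-- translation by m on a union of K-cosets -/
def TV (v : ZMod (2 * m) → ZMod 2) (hv : Kinv m f v) : Equiv.Perm (ZMod (2 * m)) where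
  toFun x := x + em m (v x)
  invFun x := x + em m (v x)
  left_inv x := by
    change x + em m (v x) + em m (v (x + em m (v x))) = x
    rw [hv.em, add_assoc, em_add_self, add_zero]
  right_inv x := by
    change x + em m (v x) + em m (v (x + em m (v x))) = x
    rw [hv.em, add_assoc, em_add_self, add_zero]

lemma TV_apply (v : ZMod (2 * m) → ZMod 2) (hv : Kinv m f v) (x : ZMod (2 * m)) :
    TV v hv x = x + em m (v x) := rfl

lemma TV_sq (v : ZMod (2 * m) → ZMod 2) (hv : Kinv m f v) : TV v hv * TV v hv = 1 := by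
  ext x
  rw [Equiv.Perm.mul_apply, TV_apply, TV_apply, hv.em, add_assoc, em_add_self, add_zero]
  rfl

lemma TV_comm (v v' : ZMod (2 * m) → ZMod 2) (hv : Kinv m f v) (hv' : Kinv m f v') :
    TV v hv * TV v' hv' = TV v' hv' * TV v hv := by
  ext x
  rw [Equiv.Perm.mul_apply, Equiv.Perm.mul_apply, TV_apply, TV_apply, TV_apply, TV_apply, hv.em,
    hv'.em]
  ring

lemma TV_tf (hm : Odd m) (v : ZMod (2 * m) → ZMod 2) (hv : Kinv m f v) :
    TF f (TV v hv) (TV v hv) := by
  intro x y
  rw [TV_apply, TV_apply]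
  by_cases h : y - x ∈ KK m f
  · rw [hv x y h]
    congr 1; ring
  · have e1 : y + em m (v y) - (x + em m (v x)) = y - x + em m (v y + v x) := by
      rw [em_add]
      linear_combination -(em_add_self (m := m) (v x))
    rw [e1]
    rcases zmod2_cases (v y + v x) with h1 | h1
    · rw [h1, em_zero, add_zero]
    · rw [h1, em_one, f_K hm h]

namespace CP

variable (h : CP m f)

include h

lemma cos {α β : Equiv.Perm (ZMod (2 * m))} (hT : TF f α β) (u : ZMod (2 * m)) :
    Cos m f (α (u + MM m) - α u) (β u - α u) (β (u + MM m) - α u) := by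
  have hm := h.circ.odd
  have hf := h.circ.sym
  have hMQ : MM m ∉ QQ m f := fun h1 => MM_not_mem hm (QQ_le hm h1)
  refine ⟨h.circ, h.per, ?_, ?_, fun x => ident hm hf hT (fun x => ss_add hm x) u x⟩
  · rw [← pres_QQ hm hf hT, add_sub_cancel_left]; exact hMQ
  · intro h1
    rw [sub_sub_sub_cancel_right, ← pres_QQ hm hf (hT.swap hf)] at h1
    apply hMQ
    have := (QQ m f).neg_mem h1
    convert this using 1; ring

lemma shift_M {α β : Equiv.Perm (ZMod (2 * m))} (hT : TF f α β) (u : ZMod (2 * m)) :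
    α (u + MM m) - α u + MM m ∈ QQ m f := (h.cos hT u).tM

lemma diffK {α β : Equiv.Perm (ZMod (2 * m))} (hT : TF f α β) (u : ZMod (2 * m)) :
    β u - α u ∈ KK m f := (h.cos hT u).b1

lemma K_fwd {α β : Equiv.Perm (ZMod (2 * m))} (hT : TF f α β) {x y : ZMod (2 * m)}
    (hxy : y - x ∈ KK m f) : α y - α x ∈ KK m f ∧ par m (α y - α x) = par m (y - x) := by
  have hm := h.circ.odd
  have hf := h.circ.sym
  rcases hxy with h1 | h1
  · have h2 := (pres_QQ hm hf hT x y).1 h1
    exact ⟨Or.inl h2, by rw [QQ_par hm h1, QQ_par hm h2]⟩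
  · have h2 : y - (x + MM m) ∈ QQ m f := by
      convert h1 using 1
      linear_combination -(MM_add (m := m))
    have h3 := (pres_QQ hm hf hT (x + MM m) y).1 h2
    have h4 := (QQ m f).add_mem h3 (h.shift_M hT x)
    have h5 : α y - α x + MM m ∈ QQ m f := by
      convert h4 using 1; ring
    refine ⟨Or.inr h5, ?_⟩
    have e1 := QQ_par hm h5
    have e2 := QQ_par hm h1
    rw [par_add_MM hm] at e1 e2
    exact add_right_cancel (e1.trans e2.symm)

lemma K_par {α β : Equiv.Perm (ZMod (2 * m))} (hT : TF f α β) {x y : ZMod (2 * m)}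
    (hxy : y - x ∈ KK m f) : par m (α y - α x) = par m (y - x) := (h.K_fwd hT hxy).2

lemma K_iff {α β : Equiv.Perm (ZMod (2 * m))} (hT : TF f α β) (x y : ZMod (2 * m)) :
    y - x ∈ KK m f ↔ α y - α x ∈ KK m f := by
  refine ⟨fun h1 => (h.K_fwd hT h1).1, fun h1 => ?_⟩
  have h2 := (h.K_fwd hT.inv h1).1
  simpa using h2

lemma kinv_par {α β : Equiv.Perm (ZMod (2 * m))} (hT : TF f α β) :
    Kinv m f (fun x => par m (α x) + par m x) := by
  intro x y hxy
  have h1 := h.K_par hT hxy
  rw [map_sub, map_sub] at h1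
  change par m (α y) + par m y = par m (α x) + par m x
  have h2 := z2_add_self (par m y)
  have h3 := z2_add_self (par m x)
  linear_combination h1 + h2 - h3

/-- equal parity changes force triviality -/
lemma triv {α β : Equiv.Perm (ZMod (2 * m))} (hT : TF f α β)
    (hp : ∀ x, par m (α x) = par m (β x)) : α = β := by
  have hm := h.circ.odd
  set v : ZMod (2 * m) → ZMod 2 := fun x => par m (α x) + par m x with hv
  have hvK : Kinv m f v := h.kinv_par hT
  have key : ∀ x, par m (α (TV v hvK x)) = par m x := by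
    intro x
    have h1 : v (TV v hvK x) = v x := hvK.em x _
    have h2 : par m (TV v hvK x) = par m x + v x := by
      rw [TV_apply, map_add, par_em hm]
    have h3 : par m (α (TV v hvK x)) + par m (TV v hvK x) = v x := h1
    rw [h2] at h3
    linear_combination h3 - z2_add_self (par m x)
  have h1 := h.circ.two (α * TV v hvK) (β * TV v hvK) (hT.mul (TV_tf hm v hvK)) key
    (fun x => by rw [Equiv.Perm.mul_apply, ← hp]; exact key x)
  exact mul_right_cancel h1

end CP

/-- automorphisms fixing all K-cosets -/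
def NA (m : ℕ) (f : ZMod (2 * m) → ZMod 2) (σ : Equiv.Perm (ZMod (2 * m))) : Prop :=
  TF f σ σ ∧ ∀ x, σ x - x ∈ KK m f

namespace NA

variable {σ ρ : Equiv.Perm (ZMod (2 * m))}

lemma mul (hσ : NA m f σ) (hρ : NA m f ρ) : NA m f (σ * ρ) := by
  refine ⟨hσ.1.mul hρ.1, fun x => ?_⟩
  have h1 := (KK m f).add_mem (hσ.2 (ρ x)) (hρ.2 x)
  rw [Equiv.Perm.mul_apply]
  convert h1 using 1; ring

/-- conjugate by a translation -/
lemma conj (hσ : NA m f σ) (c : ZMod (2 * m)) :
    NA m f (Equiv.addLeft c * σ * (Equiv.addLeft c)⁻¹) := by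
  refine ⟨((TF.tr c).mul hσ.1).mul (TF.tr c).inv, fun x => ?_⟩
  have h1 := hσ.2 (-c + x)
  have h2 : (Equiv.addLeft c * σ * (Equiv.addLeft c)⁻¹) x = c + σ (-c + x) := rfl
  rw [h2]
  convert h1 using 1; ring

lemma trM (m : ℕ) (f : ZMod (2 * m) → ZMod 2) : NA m f (Equiv.addLeft (MM m)) := by
  refine ⟨TF.tr _, fun x => ?_⟩
  rw [Equiv.coe_addLeft, add_sub_cancel_right]
  exact MM_mem_KK

lemma ofTV (hm : Odd m) (v : ZMod (2 * m) → ZMod 2) (hv : Kinv m f v) : NA m f (TV v hv) := by
  refine ⟨TV_tf hm v hv, fun x => ?_⟩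
  rw [TV_apply, add_sub_cancel_left]
  exact em_mem_KK _

end NA

lemma odd_fixed {Z : Type} [DecidableEq Z] (X : Finset Z) (σ : Equiv.Perm Z) (hσ : σ * σ = 1)
    (hX : ∀ x ∈ X, σ x ∈ X) (hodd : Odd X.card) : Odd (X.filter (fun x => σ x = x)).card := by
  have h0 : ∀ x, σ (σ x) = x := fun x => by
    rw [← Equiv.Perm.mul_apply, hσ]; rfl
  have h1 : (((X.filter (fun x => ¬ σ x = x)).card : ℕ) : ZMod 2) = 0 := by
    rw [Finset.cast_card]
    refine Finset.sum_involution (fun x _ => σ x) ?_ ?_ ?_ ?_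
    · intro a _; decide
    · intro a ha _ h
      rw [Finset.mem_filter] at ha
      exact ha.2 h
    · intro a ha
      rw [Finset.mem_filter] at ha ⊢
      refine ⟨hX a ha.1, fun h => ha.2 ?_⟩
      exact σ.injective h
    · intro a _; exact h0 a
  have h2 := Finset.card_filter_add_card_filter_not (s := X) (fun x => σ x = x)
  rw [← ZMod.natCast_eq_one_iff_odd] at hodd ⊢
  rw [← h2, Nat.cast_add, h1, add_zero] at hodd
  exact hodd

/-- the fixed point lemma -/
lemma fixed_point (hm : Odd m) {ν : Equiv.Perm (ZMod (2 * m))} (hν : NA m f ν)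
    (hsq : ν * ν = 1) (hpar : ∀ x, par m (ν x) = par m x)
    (hcomm : ∀ c, ν * (Equiv.addLeft c * ν * (Equiv.addLeft c)⁻¹) =
      (Equiv.addLeft c * ν * (Equiv.addLeft c)⁻¹) * ν) : ν = 1 := by
  classical
  have : NeZero (2 * m) := ⟨by have := hm.pos; omega⟩
  set P : ZMod (2 * m) → Equiv.Perm (ZMod (2 * m)) :=
    fun c => Equiv.addLeft c * ν * (Equiv.addLeft c)⁻¹ with hP
  have hPapp : ∀ c x, P c x = c + ν (-c + x) := fun c x => rfl
  have hPsq : ∀ c, P c * P c = 1 := by
    intro c
    have : P c * P c = Equiv.addLeft c * (ν * ν) * (Equiv.addLeft c)⁻¹ := by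
      rw [hP]; group
    rw [this, hsq]; group
  have hνν : ∀ x, ν (ν x) = x := fun x => by rw [← Equiv.Perm.mul_apply, hsq]; rfl
  have hPcomm : ∀ c c' x, P c (P c' x) = P c' (P c x) := by
    intro c c' x
    have h1 := congrArg (fun g : Equiv.Perm (ZMod (2 * m)) => g (-c + x)) (hcomm (c' - c))
    have h2 : ν ((c' - c) + ν (-(c' - c) + (-c + x))) =
      (c' - c) + ν (-(c' - c) + ν (-c + x)) := h1
    rw [hPapp, hPapp, hPapp, hPapp]
    have e1 : -c + (c' + ν (-c' + x)) = (c' - c) + ν (-(c' - c) + (-c + x)) := by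
      have : -(c' - c) + (-c + x) = -c' + x := by ring
      rw [this]; ring
    have e2 : -c' + (c + ν (-c + x)) = -(c' - c) + ν (-c + x) := by ring
    rw [e1, e2, h2]; ring
  have hPQ : ∀ c x, x ∈ QQ m f → P c x ∈ QQ m f := by
    intro c x hx
    have h1 := (hν.conj c).2 x
    have h2 : par m (P c x - x) = 0 := by
      rw [hPapp]
      have e1 : c + ν (-c + x) - x = ν (-c + x) - (-c + x) := by ring
      rw [e1, map_sub, hpar, sub_self]
    have h3 := QQ_of_KK hm h1 h2
    have h4 := (QQ m f).add_mem h3 hx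
    rwa [sub_add_cancel] at h4
  have key : ∀ F : Finset (ZMod (2 * m)),
      Odd (Finset.univ.filter (fun x => x ∈ QQ m f ∧ ∀ c ∈ F, P c x = x)).card := by
    intro F
    induction F using Finset.induction_on with
    | empty =>
      have h1 : (Finset.univ.filter (fun x => x ∈ QQ m f ∧ ∀ c ∈ (∅ : Finset (ZMod (2 * m))),
          P c x = x)) = Finset.univ.filter (fun x => x ∈ QQ m f) := by
        ext x; simp
      rw [h1]
      have h2 : (Finset.univ.filter (fun x => x ∈ QQ m f)).card = Nat.card (QQ m f) := by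
        rw [← Fintype.card_subtype, Nat.card_eq_fintype_card]
      rw [h2]
      have h3 : Nat.card (QQ m f) ∣ Nat.card (ev m) := AddSubgroup.card_dvd_of_le (QQ_le hm)
      rw [card_ev hm] at h3
      exact Odd.of_dvd_nat hm h3
    | insert c F _ ih =>
      have h1 := odd_fixed _ (P c) (hPsq c) (by
        intro x hx
        rw [Finset.mem_filter] at hx ⊢
        refine ⟨Finset.mem_univ _, hPQ c x hx.2.1, fun c' hc' => ?_⟩
        rw [hPcomm, hx.2.2 c' hc']) ih
      have h2 : (Finset.univ.filter (fun x => x ∈ QQ m f ∧ ∀ c' ∈ insert c F, P c' x = x)) =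
          (Finset.univ.filter (fun x => x ∈ QQ m f ∧ ∀ c ∈ F, P c x = x)).filter
            (fun x => P c x = x) := by
        ext x
        simp only [Finset.mem_filter, Finset.mem_univ, true_and, Finset.mem_insert,
          forall_eq_or_imp]
        tauto
      rw [h2]; exact h1
  have h1 := key Finset.univ
  obtain ⟨x₀, hx₀⟩ := Finset.card_pos.1 h1.pos
  rw [Finset.mem_filter] at hx₀
  ext y
  have h2 := hx₀.2.2 (x₀ - y) (Finset.mem_univ _)
  rw [hPapp] at h2
  have e1 : -(x₀ - y) + x₀ = y := by ring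
  rw [e1] at h2
  rw [Equiv.Perm.one_apply]
  linear_combination h2

end Pool.Agent.Helper589TypeII
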