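import Pool.Agent.Helper589_TypeII.PA5

/-!
Reduction to a twisted structure on the even residues and conclusion.
-/

namespace Pool.Agent.Helper589TypeII

variable {m : ℕ} {f : ZMod (2 * m) → ZMod 2}

/-- conjugation by a translation -/
def cj (c : ZMod (2 * m)) (σ : Equiv.Perm (ZMod (2 * m))) : Equiv.Perm (ZMod (2 * m)) :=
  Equiv.addLeft c * σ * (Equiv.addLeft c)⁻¹

lemma cj_apply (c : ZMod (2 * m)) (σ : Equiv.Perm (ZMod (2 * m))) (x : ZMod (2 * m)) :
    cj c σ x = c + σ (-c + x) := rfl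

lemma cj_mul (c : ZMod (2 * m)) (σ ρ : Equiv.Perm (ZMod (2 * m))) :
    cj c (σ * ρ) = cj c σ * cj c ρ := by
  unfold cj; group

lemma cj_cj_neg (c : ZMod (2 * m)) (σ : Equiv.Perm (ZMod (2 * m))) : cj c (cj (-c) σ) = σ := by
  ext x
  rw [cj_apply, cj_apply]
  have e1 : - -c + (-c + x) = x := by ring
  rw [e1]; ring

/-- central among the automorphisms fixing all K-cosets -/
def Cent (m : ℕ) (f : ZMod (2 * m) → ZMod 2) (τ : Equiv.Perm (ZMod (2 * m))) : Prop :=
  ∀ σ, NA m f σ → σ * τ = τ * σ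

lemma Cent.cj {τ : Equiv.Perm (ZMod (2 * m))} (hτ : Cent m f τ) (c : ZMod (2 * m)) :
    Cent m f (cj c τ) := by
  intro σ hσ
  have h1 := hτ _ (hσ.conj (-c))
  have h2 := congrArg (Pool.Agent.Helper589TypeII.cj c) h1
  change Pool.Agent.Helper589TypeII.cj c (Pool.Agent.Helper589TypeII.cj (-c) σ * τ) =
    Pool.Agent.Helper589TypeII.cj c (τ * Pool.Agent.Helper589TypeII.cj (-c) σ) at h2
  rw [cj_mul, cj_mul, cj_cj_neg] at h2
  exact h2

namespace CP

variable (h : CP m f)

include h

lemma comm {α β σ : Equiv.Perm (ZMod (2 * m))} (hT : TF f α β) (hσ : NA m f σ) :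
    α * σ * α⁻¹ = β * σ * β⁻¹ := by
  apply h.triv ((hT.mul hσ.1).mul hT.inv)
  intro u
  have e1 : (α * σ * α⁻¹) u = α (σ (α⁻¹ u)) := rfl
  have e2 : (β * σ * β⁻¹) u = β (σ (β⁻¹ u)) := rfl
  rw [e1, e2]
  set x := α⁻¹ u with hx
  set x' := β⁻¹ u with hx'
  have hax : α x = u := by rw [hx]; simp
  have hbx : β x' = u := by rw [hx']; simp
  have h1 := h.K_par hT (hσ.2 x)
  have h2 := h.K_par (hT.swap h.circ.sym) (hσ.2 x')
  have hxx : x' - x ∈ KK m f := h.diffK hT.inv u
  have h3 := h.K_par hσ.1 hxx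
  rw [map_sub, map_sub, hax] at h1
  rw [map_sub, map_sub, hbx] at h2
  rw [map_sub, map_sub] at h3
  linear_combination h1 - h2 - h3

lemma na_conj {α β σ : Equiv.Perm (ZMod (2 * m))} (hT : TF f α β) (hσ : NA m f σ) :
    NA m f (α * σ * α⁻¹) := by
  refine ⟨?_, fun x => ?_⟩
  · have h1 : TF f (α * σ * α⁻¹) (β * σ * β⁻¹) := (hT.mul hσ.1).mul hT.inv
    rw [← h.comm hT hσ] at h1
    exact h1
  · have h1 := hσ.2 (α⁻¹ x)
    rw [h.K_iff hT] at h1
    have h2 : α (α⁻¹ x) = x := by simp
    rw [h2] at h1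
    exact h1

lemma cent_conj {α β τ : Equiv.Perm (ZMod (2 * m))} (hT : TF f α β) (hτ : Cent m f τ) :
    Cent m f (α * τ * α⁻¹) := by
  intro σ hσ
  have h1 := h.na_conj hT.inv hσ
  rw [inv_inv] at h1
  have h2 := hτ _ h1
  calc σ * (α * τ * α⁻¹) = α * (α⁻¹ * σ * α * τ) * α⁻¹ := by group
    _ = α * (τ * (α⁻¹ * σ * α)) * α⁻¹ := by rw [h2]
    _ = α * τ * α⁻¹ * σ := by group

end CP

lemma mul_self_of {G : Type} [Group G] {a b : G} (ha : a * a = 1) (hb : b * b = 1)
    (hab : a * b = b * a) : (a * b) * (a * b) = 1 := by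
  calc (a * b) * (a * b) = a * (b * a) * b := by group
    _ = a * (a * b) * b := by rw [hab]
    _ = (a * a) * (b * b) := by group
    _ = 1 := by rw [ha, hb, one_mul]

lemma reduction (C : Circ m f) {α₀ β₀ : Equiv.Perm (ZMod (2 * m))} (hT₀ : TF f α₀ β₀)
    (hne₀ : α₀ ≠ β₀) :
    ∃ (α : Equiv.Perm (ZMod (2 * m))) (w : ZMod (2 * m) → ZMod 2), Kinv m f w ∧
      (∃ x, w x = 1) ∧ (∀ x, par m (α x) = par m x) ∧ (∀ x, α (x + MM m) = α x + MM m) ∧
      (∀ x y, y - x ∈ QQ m f ↔ α y - α x ∈ QQ m f) ∧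
      ∀ x y, f (α y + em m (w y) - α x) = f (y - x) := by
  have hm := C.odd
  have hf := C.sym
  have h : CP m f := ⟨C, fun r hr hper => period_mem C hT₀ hne₀ hr hper⟩
  -- normalisation
  set v₀ : ZMod (2 * m) → ZMod 2 := fun x => par m (α₀ x) + par m x with hv₀
  have hv₀K : Kinv m f v₀ := h.kinv_par hT₀
  obtain ⟨α, β, hT, hne, hα⟩ : ∃ α β : Equiv.Perm (ZMod (2 * m)), TF f α β ∧ α ≠ β ∧
      ∀ x, par m (α x) = par m x := by
    refine ⟨α₀ * TV v₀ hv₀K, β₀ * TV v₀ hv₀K, hT₀.mul (TV_tf hm v₀ hv₀K),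
      fun h1 => hne₀ (mul_right_cancel h1), fun x => ?_⟩
    have h1 : v₀ (TV v₀ hv₀K x) = v₀ x := hv₀K.em x _
    have h2 : par m (TV v₀ hv₀K x) = par m x + v₀ x := by
      rw [TV_apply, map_add, par_em hm]
    have h3 : par m (α₀ (TV v₀ hv₀K x)) + par m (TV v₀ hv₀K x) = v₀ x := h1
    rw [h2] at h3
    rw [Equiv.Perm.mul_apply]
    linear_combination h3 - z2_add_self (par m x)
  -- the involution τ
  set τ : Equiv.Perm (ZMod (2 * m)) := α⁻¹ * β with hτ
  have hττ : TF f τ τ⁻¹ := by
    have h1 : TF f (α⁻¹ * β) (β⁻¹ * α) := hT.inv.mul (hT.swap hf)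
    rw [hτ, mul_inv_rev, inv_inv]; exact h1
  have hτK : ∀ x, τ x - x ∈ KK m f := by
    intro x
    have h1 := h.diffK hT x
    rw [h.K_iff hT.inv] at h1
    have h2 : α⁻¹ (α x) = x := by simp
    rw [h2] at h1
    exact h1
  have hτi : τ = τ⁻¹ := by
    apply h.triv hττ
    intro x
    set x' := τ⁻¹ x with hx'
    have h1 : τ x' = x := by rw [hx']; simp
    have h2 := hτK x'
    rw [h1] at h2
    have h3 := h.K_par hττ h2
    rw [h1, map_sub, map_sub] at h3
    have h4 : ∀ a b c : ZMod 2, a - b = b - c → a = c := by decide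
    exact h4 _ _ _ h3
  have hτsq : τ * τ = 1 := by
    nth_rewrite 2 [hτi]; exact mul_inv_cancel τ
  have hτTF : TF f τ τ := by
    have h1 := hττ
    rwa [← hτi] at h1
  have hτN : NA m f τ := ⟨hτTF, hτK⟩
  have hτC : Cent m f τ := by
    intro σ hσ
    have h1 := h.comm hT hσ
    have h2 : τ * σ * τ⁻¹ = σ := by
      calc τ * σ * τ⁻¹ = α⁻¹ * (β * σ * β⁻¹) * α := by rw [hτ]; group
        _ = α⁻¹ * (α * σ * α⁻¹) * α := by rw [h1]
        _ = σ := by group
    calc σ * τ = (τ * σ * τ⁻¹) * τ := by rw [h2]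
      _ = τ * σ := by group
  -- the parity change of τ
  set w : ZMod (2 * m) → ZMod 2 := fun x => par m (τ x) + par m x with hw
  have hwK : Kinv m f w := h.kinv_par hττ
  set T := TV w hwK with hTdef
  have hTN : NA m f T := NA.ofTV hm w hwK
  have hTsq : T * T = 1 := TV_sq w hwK
  have hτT : τ * T = 1 := by
    apply fixed_point hm (hτN.mul hTN)
    · exact mul_self_of hτsq hTsq (hτC T hTN).symm
    · intro x
      have h1 : par m (T x) = par m x + w x := by
        rw [hTdef, TV_apply, map_add, par_em hm]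
      have h2 : w (T x) = w x := hwK.em x _
      have h3 : par m (τ (T x)) + par m (T x) = w x := h2
      rw [h1] at h3
      rw [Equiv.Perm.mul_apply]
      linear_combination h3 - z2_add_self (par m x)
    · intro c
      change (τ * T) * cj c (τ * T) = cj c (τ * T) * (τ * T)
      have hN : NA m f (cj c (τ * T)) := (hτN.mul hTN).conj c
      have h1 : cj c (τ * T) * τ = τ * cj c (τ * T) := hτC _ hN
      have h2 : T * cj c τ = cj c τ * T := hτC.cj c T hTN
      have h3 : T * cj c T = cj c T * T := by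
        ext x
        have hwc : Kinv m f (fun x => w (-c + x)) := by
          intro x y hxy
          apply hwK
          convert hxy using 1; ring
        have h4 : cj c T = TV (fun x => w (-c + x)) hwc := by
          ext x
          change c + (-c + x + em m (w (-c + x))) = x + em m (w (-c + x))
          ring
        rw [h4, hTdef, TV_comm]
      calc (τ * T) * cj c (τ * T) = τ * (T * cj c τ) * cj c T := by rw [cj_mul c τ T]; group
        _ = τ * cj c τ * (T * cj c T) := by rw [h2]; group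
        _ = τ * (cj c τ * cj c T) * T := by rw [h3]; group
        _ = τ * cj c (τ * T) * T := by rw [cj_mul c τ T]
        _ = cj c (τ * T) * (τ * T) := by rw [← h1]; group
  have hτeq : τ = T := by
    calc τ = τ * (T * T) := by rw [hTsq, mul_one]
      _ = T := by rw [← mul_assoc, hτT, one_mul]
  have hβ : β = α * T := by
    rw [← hτeq, hτ]; group
  obtain ⟨x₁, hx₁⟩ : ∃ x, w x = 1 := by
    by_contra hcon
    push Not at hcon
    apply hne
    rw [hβ]
    have : T = 1 := by
      ext x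
      rw [hTdef, TV_apply]
      rcases zmod2_cases (w x) with h1 | h1
      · rw [h1, em_zero, add_zero]; rfl
      · exact absurd h1 (hcon x)
    rw [this, mul_one]
  -- translation by m is central
  have hMC : Cent m f (Equiv.addLeft (MM m)) := by
    intro σ hσ
    ext x
    change σ (MM m + x) = MM m + σ x
    set c := x - x₁ with hc
    have h1 := hτC.cj c σ hσ
    have h2 := congrArg (fun g : Equiv.Perm (ZMod (2 * m)) => g x) h1
    have h3 : σ (c + τ (-c + x)) = c + τ (-c + σ x) := h2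
    have e1 : -c + x = x₁ := by rw [hc]; ring
    have e2 : τ x₁ = x₁ + MM m := by
      rw [hτeq, hTdef, TV_apply, hx₁, em_one]
    have e3 : w (-c + σ x) = 1 := by
      rw [← hx₁]
      apply hwK
      have := hσ.2 x
      convert this using 1
      rw [hc]; ring
    have e4 : τ (-c + σ x) = -c + σ x + MM m := by
      rw [hτeq, hTdef, TV_apply, e3, em_one]
    rw [e1, e2, e4] at h3
    have e5 : c + (x₁ + MM m) = MM m + x := by rw [hc]; ring
    rw [e5] at h3
    rw [h3]; ring
  have hMN : NA m f (Equiv.addLeft (MM m)) := NA.trM m f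
  have hMsq : (Equiv.addLeft (MM m) : Equiv.Perm (ZMod (2 * m))) * Equiv.addLeft (MM m) = 1 := by
    ext x
    change MM m + (MM m + x) = x
    rw [← add_assoc, MM_add, zero_add]
  set M : Equiv.Perm (ZMod (2 * m)) := Equiv.addLeft (MM m) with hM
  set μ := α * M * α⁻¹ with hμ
  have hμN : NA m f μ := h.na_conj hT hMN
  have hμC : Cent m f μ := h.cent_conj hT hMC
  have hμsq : μ * μ = 1 := by
    calc μ * μ = α * (M * M) * α⁻¹ := by rw [hμ]; group
      _ = 1 := by rw [hMsq]; group
  have hμM : μ * M = 1 := by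
    apply fixed_point hm (hμN.mul hMN)
    · exact mul_self_of hμsq hMsq (hMC μ hμN)
    · intro x
      rw [Equiv.Perm.mul_apply]
      have e1 : μ (M x) = α (MM m + α⁻¹ (M x)) := rfl
      rw [e1]
      set y := α⁻¹ (M x) with hy
      have hay : α y = M x := by rw [hy]; simp
      have h1 : MM m + y - y ∈ KK m f := by rw [add_sub_cancel_right]; exact MM_mem_KK
      have h2 := h.K_par hT h1
      rw [add_sub_cancel_right, map_sub, hay, par_MM hm] at h2
      have h3 : par m (M x) = 1 + par m x := by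
        change par m (MM m + x) = _
        rw [map_add, par_MM hm]
      rw [h3] at h2
      have h4 : ∀ a b : ZMod 2, a - (1 + b) = 1 → a = b := by decide
      exact h4 _ _ h2
    · intro c
      have hN : NA m f (cj c (μ * M)) := (hμN.mul hMN).conj c
      change (μ * M) * cj c (μ * M) = cj c (μ * M) * (μ * M)
      have h1 := hμC _ hN
      have h2 := hMC _ hN
      calc (μ * M) * cj c (μ * M) = μ * (M * cj c (μ * M)) := by group
        _ = μ * (cj c (μ * M) * M) := by rw [h2]
        _ = (μ * cj c (μ * M)) * M := by group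
        _ = (cj c (μ * M) * μ) * M := by rw [h1]
        _ = cj c (μ * M) * (μ * M) := by group
  have hαM : ∀ x, α (x + MM m) = α x + MM m := by
    intro x
    have h1 : μ = M := by
      calc μ = μ * (M * M) := by rw [hMsq, mul_one]
        _ = M := by rw [← mul_assoc, hμM, one_mul]
    have h2 : α * M = M * α := by
      calc α * M = μ * α := by rw [hμ]; group
        _ = M * α := by rw [h1]
    have h3 := congrArg (fun g : Equiv.Perm (ZMod (2 * m)) => g x) h2
    have h4 : α (MM m + x) = MM m + α x := h3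
    rw [add_comm x, h4]; ring
  refine ⟨α, w, hwK, ⟨x₁, hx₁⟩, hα, hαM, pres_QQ hm hf hT, ?_⟩
  intro x y
  have h1 := hT x y
  rw [hβ, Equiv.Perm.mul_apply, hTdef, TV_apply] at h1
  rw [← h1]
  congr 2
  rcases zmod2_cases (w y) with h2 | h2
  · rw [h2, em_zero, add_zero, add_zero]
  · rw [h2, em_one, hαM]

end Pool.Agent.Helper589TypeII
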