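import Pool.Agent.Helper589_TypeII.PA6

/-!
Conclusion of the graph part.
-/

namespace Pool.Agent.Helper589TypeII

variable {m : ℕ} {f : ZMod (2 * m) → ZMod 2}

lemma f_K_em (hm : Odd m) {x : ZMod (2 * m)} (hx : x ∉ QQ m f) (hp : par m x = 0)
    (ε : ZMod 2) : f (x + em m ε) = f x := by
  rcases zmod2_cases ε with rfl | rfl
  · rw [em_zero, add_zero]
  · rw [em_one]
    exact f_K hm fun h => hx (QQ_of_KK hm h hp)

theorem partA (C : Circ m f) {α₀ β₀ : Equiv.Perm (ZMod (2 * m))} (hT₀ : TF f α₀ β₀)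
    (hne₀ : α₀ ≠ β₀) :
    ∃ π : Equiv.Perm (ZMod (2 * m)), ∀ x y, f (π y - π x + MM m) = f (y - x) := by
  have hm := C.odd
  have : NeZero (2 * m) := ⟨by have := hm.pos; omega⟩
  obtain ⟨α, w, hwK, ⟨x₁, hx₁⟩, hα, hαM, hαQ, hrel⟩ := reduction C hT₀ hne₀
  have hev : ∀ x, α x ∈ ev m ↔ x ∈ ev m := by
    intro x
    rw [mem_ev hm, mem_ev hm, hα]
  have hpe : ∀ a : ev m, par m (a : ZMod (2 * m)) = 0 := fun a => (mem_ev hm _).1 a.2
  have hαem : ∀ x ε, α (x + em m ε) = α x + em m ε := by
    intro x ε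
    rcases zmod2_cases ε with rfl | rfl
    · rw [em_zero, add_zero, add_zero]
    · rw [em_one, hαM]
  let σ : TW (ev m) := ⟨α.subtypePerm hev, fun a => w a⟩
  have hσg : ∀ a : ev m, ((σ.g a : ev m) : ZMod (2 * m)) = α a := fun a => rfl
  let T₀ : Set (ev m) := {z | (z : ZMod (2 * m)) ∉ QQ m f ∧ f z = 1}
  let Q' : Set (ev m) := {z | (z : ZMod (2 * m)) ∈ QQ m f}
  let E : ZMod 2 → Set (ev m) := fun ε => {z | f (z + em m ε) = 1}
  have hPT : PT {T₀} Q' E σ := by
    refine ⟨?_, ?_, ?_, ?_⟩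
    · rintro T hT x y
      rw [Set.mem_singleton_iff] at hT
      subst hT
      change ((y - x : ev m) : ZMod (2 * m)) ∉ QQ m f ∧ f ((y - x : ev m) : ZMod (2 * m)) = 1 ↔
        ((σ.g y - σ.g x : ev m) : ZMod (2 * m)) ∉ QQ m f ∧
          f ((σ.g y - σ.g x : ev m) : ZMod (2 * m)) = 1
      rw [AddSubgroup.coe_sub, AddSubgroup.coe_sub, hσg, hσg, ← hαQ]
      by_cases hq : (y : ZMod (2 * m)) - x ∈ QQ m f
      · constructor
        · rintro ⟨h1, -⟩; exact absurd hq h1
        · rintro ⟨h1, -⟩; exact absurd hq h1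
      · have h1 : f (α y - α x) = f ((y : ZMod (2 * m)) - x) := by
          rw [← hrel x y]
          have e1 : α y + em m (w y) - α x = α y - α x + em m (w y) := by ring
          rw [e1, f_K_em (f := f) hm]
          · rwa [← hαQ]
          · rw [map_sub, hα, hα, hpe, hpe, sub_zero]
        rw [h1]
    · intro x y
      exact hαQ x y
    · intro x y hxy
      apply hwK
      exact Or.inl hxy
    · intro x y hxy ε
      change f (((y - x : ev m) : ZMod (2 * m)) + em m ε) = 1 ↔
        f (((σ.g y - σ.g x : ev m) : ZMod (2 * m)) + em m (ε + w x)) = 1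
      rw [AddSubgroup.coe_sub, AddSubgroup.coe_sub, hσg, hσg]
      have h1 := hrel (x : ZMod (2 * m)) (y + em m ε)
      have h2 : w (y + em m ε) = w x := by
        rw [hwK.em]
        apply hwK
        exact Or.inl hxy
      rw [h2, hαem] at h1
      have e1 : (y : ZMod (2 * m)) - x + em m ε = y + em m ε - x := by ring
      have e2 : α y - α x + em m (ε + w x) = α y + em m ε + em m (w x) - α x := by
        rw [em_add]; ring
      rw [e1, e2, h1]
  have hcyc : IsAddCyclic (ev m) := inferInstance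
  have hodd : Odd (Nat.card (ev m)) := by rw [card_ev hm]; exact hm
  obtain ⟨g, hg⟩ := theoremI hodd {T₀} Q' E ⟨σ, hPT, by
    rcases zmod2_cases (par m x₁) with h1 | h1
    · refine ⟨⟨x₁, (mem_ev hm x₁).2 h1⟩, ?_⟩
      change w x₁ ≠ 0
      rw [hx₁]; decide
    · refine ⟨⟨x₁ + em m 1, ?_⟩, ?_⟩
      · rw [mem_ev hm, map_add, par_em hm, h1]; decide
      · change w (x₁ + em m 1) ≠ 0
        rw [hwK.em, hx₁]; decide⟩
  -- the even part
  have hmem : ∀ z : ZMod (2 * m), z + em m (par m z) ∈ ev m := by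
    intro z
    rw [mem_ev hm, map_add, par_em hm]
    exact z2_add_self _
  let e : ZMod (2 * m) → ev m := fun z => ⟨z + em m (par m z), hmem z⟩
  have he : ∀ z, (e z : ZMod (2 * m)) = z + em m (par m z) := fun z => rfl
  let F : ZMod (2 * m) → ZMod (2 * m) := fun z => (g (e z) : ZMod (2 * m)) + em m (par m z)
  have hF : ∀ z, F z = (g (e z) : ZMod (2 * m)) + em m (par m z) := fun z => rfl
  have hFp : ∀ z, par m (F z) = par m z := by
    intro z
    rw [hF, map_add, hpe, zero_add, par_em hm]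
  have hinj : Function.Injective F := by
    intro x y hxy
    have h1 : par m x = par m y := by rw [← hFp x, ← hFp y, hxy]
    rw [hF, hF, h1] at hxy
    have h2 : e x = e y := g.injective (Subtype.ext (add_right_cancel hxy))
    have h3 := congrArg (fun a : ev m => (a : ZMod (2 * m))) h2
    simp only [he, h1] at h3
    exact add_right_cancel h3
  refine ⟨Equiv.ofBijective F (Finite.injective_iff_bijective.1 hinj), fun x y => ?_⟩
  rw [Equiv.ofBijective_apply, Equiv.ofBijective_apply]
  set a := e x with ha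
  set b := e y with hb
  set δ : ZMod 2 := par m y + par m x with hδ
  have e1 : y - x = (b : ZMod (2 * m)) - a + em m δ := by
    rw [hb, ha, he, he, hδ, em_add]
    linear_combination -(em_add_self (m := m) (par m y))
  have e2 : F y - F x + MM m = (g b : ZMod (2 * m)) - g a + em m (δ + 1) := by
    rw [hF, hF, ← ha, ← hb, em_add, em_one, hδ, em_add]
    linear_combination -(em_add_self (m := m) (par m x))
  rw [e1, e2]
  by_cases hq : (b : ZMod (2 * m)) - a ∈ QQ m f
  · have h1 := hg.edge a b hq δ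
    change f (((b - a : ev m) : ZMod (2 * m)) + em m δ) = 1 ↔
      f (((g b - g a : ev m) : ZMod (2 * m)) + em m (δ + 1)) = 1 at h1
    rw [AddSubgroup.coe_sub, AddSubgroup.coe_sub] at h1
    exact (z2_ext h1).symm
  · have hq2 : (g b : ZMod (2 * m)) - g a ∉ QQ m f := by
      intro h1
      apply hq
      have h2 := hg.rel a b
      exact h2.2 h1
    have h1 := hg.fam T₀ (Set.mem_singleton _) a b
    change ((b - a : ev m) : ZMod (2 * m)) ∉ QQ m f ∧ f ((b - a : ev m) : ZMod (2 * m)) = 1 ↔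
        ((g b - g a : ev m) : ZMod (2 * m)) ∉ QQ m f ∧
          f ((g b - g a : ev m) : ZMod (2 * m)) = 1 at h1
    rw [AddSubgroup.coe_sub, AddSubgroup.coe_sub] at h1
    have h2 : f ((b : ZMod (2 * m)) - a) = f ((g b : ZMod (2 * m)) - g a) := by
      apply z2_ext
      constructor
      · intro h3; exact (h1.1 ⟨hq, h3⟩).2
      · intro h3; exact (h1.2 ⟨hq2, h3⟩).2
    rw [f_K_em hm hq (by rw [map_sub, hpe, hpe, sub_zero]),
      f_K_em hm hq2 (by rw [map_sub, hpe, hpe, sub_zero]), h2]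

end Pool.Agent.Helper589TypeII
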