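import Pool.Agent.Helper589_TypeII.Ladder3

/-!
The cocycle of defects.
-/

namespace Pool.Agent.Helper589TypeII

variable {A : Type} [AddCommGroup A]

/-- periods of all defects -/
def perSub (G : Subgroup (Equiv.Perm A)) (o : A) : AddSubgroup A where
  carrier := {j | ∀ g ∈ G, ∀ y, g (y + j + o) - g (y + j) = g (y + o) - g y}
  zero_mem' := by intro g _ y; rw [add_zero]
  add_mem' := by
    intro a b ha hb g hg y
    rw [← add_assoc, hb g hg, ha g hg]
  neg_mem' := by
    intro a ha g hg y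
    have h1 := ha g hg (y + -a)
    rw [neg_add_cancel_right] at h1
    exact h1.symm

lemma mem_perSub {G : Subgroup (Equiv.Perm A)} {o j : A} :
    j ∈ perSub G o ↔ ∀ g ∈ G, ∀ y, g (y + j + o) - g (y + j) = g (y + o) - g y := Iff.rfl

section Defect

variable {G : Subgroup (Equiv.Perm A)} {o : A}
  (hd : ∀ g ∈ G, ∀ y, g (y + o) - g y - o ∈ cenSub G)

include hd

lemma defect_mul {g h : Equiv.Perm A} (hg : g ∈ G) (hh : h ∈ G) (y : A) :
    (g * h) (y + o) - (g * h) y = (h (y + o) - h y) + (g (h y + o) - g (h y)) - o := by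
  have h1 : h (y + o) = (h y + o) + (h (y + o) - h y - o) := by abel
  rw [Equiv.Perm.mul_apply, Equiv.Perm.mul_apply]
  have h2 : g (h (y + o)) = g (h y + o) + (h (y + o) - h y - o) := by
    nth_rewrite 1 [h1]
    exact hd h hh y g hg _
  rw [h2]; abel

lemma perSub_inv (hA : ∀ a, Equiv.addLeft a ∈ G) : IsInv G (perSub G o : Set A) := by
  apply isInv_of_imp
  intro σ hσ x y hxy τ hτ z
  -- compare τ ∘ translation ∘ σ at y and x
  have h1 := hxy (τ * Equiv.addLeft (z - σ x) * σ)
    (G.mul_mem (G.mul_mem hτ (hA _)) hσ) x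
  rw [add_sub_cancel] at h1
  have h2 := hxy σ hσ x
  rw [add_sub_cancel] at h2
  have hτa : τ * Equiv.addLeft (z - σ x) ∈ G := G.mul_mem hτ (hA _)
  rw [defect_mul hd hτa hσ, defect_mul hd hτa hσ, h2] at h1
  simp only [Equiv.Perm.mul_apply, Equiv.coe_addLeft] at h1
  have h3 := add_left_cancel (sub_left_injective h1)
  have e1 : z - σ x + (σ y + o) = z + (σ y - σ x) + o := by abel
  have e2 : z - σ x + σ y = z + (σ y - σ x) := by abel
  have e3 : z - σ x + (σ x + o) = z + o := by abel
  have e4 : z - σ x + σ x = z := by abel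
  rw [e1, e2, e3, e4] at h3
  exact h3

lemma defect_pow {g : Equiv.Perm A} (hg : g ∈ G) (hJ : ∀ y, g y - y ∈ perSub G o) (n : ℕ) :
    (∀ y, (g ^ n) y - y ∈ perSub G o) ∧
    ∀ y, (g ^ n) (y + o) - (g ^ n) y - o = n • (g (y + o) - g y - o) := by
  induction n with
  | zero =>
    refine ⟨fun y => ?_, fun y => ?_⟩
    · rw [pow_zero, Equiv.Perm.one_apply, sub_self]; exact (perSub G o).zero_mem
    · rw [pow_zero, Equiv.Perm.one_apply, Equiv.Perm.one_apply, zero_smul]; abel
  | succ n ih =>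
    obtain ⟨ih1, ih2⟩ := ih
    have hgn : g ^ n ∈ G := G.pow_mem hg n
    refine ⟨fun y => ?_, fun y => ?_⟩
    · rw [pow_succ', Equiv.Perm.mul_apply]
      have h1 := (perSub G o).add_mem (hJ ((g ^ n) y)) (ih1 y)
      convert h1 using 1; abel
    · rw [pow_succ', defect_mul hd hg hgn]
      have h1 : g ((g ^ n) y + o) - g ((g ^ n) y) = g (y + o) - g y := by
        have h2 := ih1 y g hg y
        rw [add_sub_cancel] at h2
        exact h2
      rw [h1, add_smul, one_smul, ← ih2 y]; abel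

end Defect

end Pool.Agent.Helper589TypeII
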