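import Pool.Agent.Helper589_TypeII.Basic

/-!
Twisted permutations: pairs (g, w) of a permutation of A and a function A → Z_2.
-/

namespace Pool.Agent.Helper589TypeII

/-- A permutation of A together with a Z_2-valued function on A. -/
@[ext]
structure TW (A : Type) where
  /-- the permutation -/
  g : Equiv.Perm A
  /-- the type function -/
  w : A → ZMod 2

namespace TW

variable {A : Type}

instance : Mul (TW A) := ⟨fun s t => ⟨s.g * t.g, fun x => t.w x + s.w (t.g x)⟩⟩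
instance : One (TW A) := ⟨⟨1, fun _ => 0⟩⟩
instance : Inv (TW A) := ⟨fun s => ⟨s.g⁻¹, fun x => - s.w (s.g⁻¹ x)⟩⟩

@[simp] lemma mul_g (s t : TW A) : (s * t).g = s.g * t.g := rfl
@[simp] lemma mul_w (s t : TW A) (x : A) : (s * t).w x = t.w x + s.w (t.g x) := rfl
@[simp] lemma one_g : (1 : TW A).g = 1 := rfl
@[simp] lemma one_w (x : A) : (1 : TW A).w x = 0 := rfl
@[simp] lemma inv_g (s : TW A) : (s⁻¹).g = s.g⁻¹ := rfl
@[simp] lemma inv_w (s : TW A) (x : A) : (s⁻¹).w x = - s.w (s.g⁻¹ x) := rfl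

instance : Group (TW A) := Group.ofLeftAxioms
  (fun s t u => by
    ext x
    · rfl
    · simp [add_assoc])
  (fun s => by
    ext x
    · rfl
    · simp)
  (fun s => by
    ext x
    · simp
    · change s.w x + - s.w (s.g⁻¹ (s.g x)) = 0
      rw [show s.g⁻¹ (s.g x) = x from s.g.symm_apply_apply x, add_neg_cancel])

instance [Finite A] : Finite (TW A) := by
  have : Function.Injective (fun s : TW A => (s.g, s.w)) := by
    intro s t h
    ext x
    · exact congrArg (fun p => p.1 x) h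
    · exact congrArg (fun p => p.2 x) h
  exact Finite.of_injective _ this

/-- action on A × Z_2 -/
def act (s : TW A) : Equiv.Perm (A × ZMod 2) where
  toFun p := (s.g p.1, p.2 + s.w p.1)
  invFun p := (s.g⁻¹ p.1, p.2 - s.w (s.g⁻¹ p.1))
  left_inv p := by simp
  right_inv p := by simp

lemma act_apply (s : TW A) (p : A × ZMod 2) : act s p = (s.g p.1, p.2 + s.w p.1) := rfl

lemma act_inv_act (s : TW A) (p : A × ZMod 2) : act s⁻¹ (act s p) = p := by
  ext
  · simp [act_apply]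
  · change p.2 + s.w p.1 + - s.w (s.g⁻¹ (s.g p.1)) = p.2
    rw [show s.g⁻¹ (s.g p.1) = p.1 from s.g.symm_apply_apply _, add_neg_cancel_right]

variable [AddCommGroup A]

/-- translation by a -/
def tr (a : A) : TW A := ⟨Equiv.addLeft a, fun _ => 0⟩

@[simp] lemma tr_g (a x : A) : (tr a).g x = a + x := rfl
@[simp] lemma tr_w (a x : A) : (tr a).w x = 0 := rfl

/-- The pair orbit of x. -/
def pairOrb (G : Subgroup (TW A)) (x : A) : Set (A × ZMod 2) :=
  {p | ∃ σ ∈ G, σ.g 0 = 0 ∧ σ.g x = p.1 ∧ σ.w x - σ.w 0 = p.2}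

lemma pairOrb_pres (G : Subgroup (TW A)) (hA : ∀ a, tr a ∈ G) (x : A) {τ : TW A} (hτ : τ ∈ G) :
    Pres (act τ) (pairOrb G x) := by
  have key : ∀ τ ∈ G, ∀ p q : A × ZMod 2, q - p ∈ pairOrb G x → act τ q - act τ p ∈ pairOrb G x := by
    rintro τ hτ ⟨y, e⟩ ⟨y', e'⟩ ⟨σ, hσ, h0, h1, h2⟩
    refine ⟨tr (- τ.g y) * τ * tr y * σ,
      G.mul_mem (G.mul_mem (G.mul_mem (hA _) hτ) (hA _)) hσ, ?_, ?_, ?_⟩
    · simp [h0]
    · simp only [mul_g, Equiv.Perm.mul_apply, tr_g, h1]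
      simp only [act_apply, Prod.fst_sub]
      rw [add_sub_cancel]
      abel
    · have h3 : σ.w x - σ.w 0 = e' - e := h2
      have h4 : σ.g x = y' - y := h1
      change (σ.w x + (0 + (τ.w (y + σ.g x) + 0))) - (σ.w 0 + (0 + (τ.w (y + σ.g 0) + 0)))
        = (e' + τ.w y') - (e + τ.w y)
      rw [h0, h4, add_sub_cancel, add_zero y]
      linear_combination h3
  intro p q
  refine ⟨key τ hτ p q, fun h => ?_⟩
  have h1 := key τ⁻¹ (G.inv_mem hτ) _ _ h
  rwa [act_inv_act, act_inv_act] at h1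

/-- Elements c such that all type functions of G are c-periodic. -/
def bsub (G : Subgroup (TW A)) : AddSubgroup A where
  carrier := {c | ∀ τ ∈ G, ∀ y, τ.w (y + c) = τ.w y}
  zero_mem' := by intro τ _ y; rw [add_zero]
  add_mem' := by
    intro a b ha hb τ hτ y
    rw [← add_assoc, hb τ hτ, ha τ hτ]
  neg_mem' := by
    intro a ha τ hτ y
    have := ha τ hτ (y + -a)
    rw [neg_add_cancel_right] at this
    exact this.symm

lemma mem_bsub {G : Subgroup (TW A)} {c : A} : c ∈ bsub G ↔ ∀ τ ∈ G, ∀ y, τ.w (y + c) = τ.w y :=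
  Iff.rfl

lemma bsub_block (G : Subgroup (TW A)) (hA : ∀ a, tr a ∈ G) {σ : TW A} (hσ : σ ∈ G) :
    Pres σ.g (bsub G : Set A) := by
  have key : ∀ σ ∈ G, ∀ x y, y - x ∈ bsub G → σ.g y - σ.g x ∈ bsub G := by
    intro σ hσ x y h τ hτ z
    have h1 := h (τ * tr (z - σ.g x) * σ) (G.mul_mem (G.mul_mem hτ (hA _)) hσ) x
    have h2 := h σ hσ x
    rw [add_sub_cancel] at h1 h2
    simp only [mul_w, tr_g, tr_w] at h1
    rw [h2] at h1
    have h3 : z - σ.g x + σ.g y = z + (σ.g y - σ.g x) := by abel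
    have h4 : z - σ.g x + σ.g x = z := by abel
    rw [h3, h4] at h1
    simpa using h1
  intro x y
  refine ⟨key σ hσ x y, fun h => ?_⟩
  have h1 := key σ⁻¹ (G.inv_mem hσ) _ _ h
  simpa using h1

lemma exists_twist_aux [Finite A] (hodd : Odd (Nat.card A)) (G : Subgroup (TW A))
    (hA : ∀ a, tr a ∈ G) (x : A)
    (h : ∀ σ ∈ G, σ.g 0 = 0 → σ.g x = x → σ.w x = σ.w 0) : 2 • x ∈ bsub G := by
  classical
  have := Fintype.ofFinite A
  have hinj : ∀ a b : A, 2 • a = 2 • b → a = b := fun a b h =>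
    (nsmulCoprime (Nat.Coprime.symm (Nat.coprime_two_left.2 hodd))).injective h
  intro τ hτ y
  have h1 := pres_fib Nat.prime_two (pairOrb_pres G hA x hτ) (y, 0) (y + 2 • x, 0)
  have h2 : ((fib 2 (pairOrb G x) ((y + 2 • x, (0 : ZMod 2)) - (y, 0)) : ℕ) : ZMod 2) ≠ 0 := by
    have h3 : ((y + 2 • x, (0 : ZMod 2)) - (y, 0)) = (2 • x, 0) := by
      simp
    rw [h3]
    have h4 : fib 2 (pairOrb G x) (2 • x, 0) = 1 := by
      refine fib_eq_one (t₀ := ((x, 0) : A × ZMod 2)) ?_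
      rintro ⟨a, e⟩
      constructor
      · rintro ⟨⟨σ, hσ, h5, h6, h7⟩, h8⟩
        have h9 : a = x := hinj _ _ (congrArg Prod.fst h8)
        subst h9
        have h10 := h σ hσ h5 h6
        rw [h10, sub_self] at h7
        exact Prod.ext rfl h7.symm
      · rintro h5
        rw [Prod.mk.injEq] at h5
        obtain ⟨rfl, rfl⟩ := h5
        refine ⟨⟨1, G.one_mem, rfl, rfl, by simp⟩, ?_⟩
        ext
        · rfl
        · simp
    rw [h4]; decide
  have h5 := h1.1 h2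
  obtain ⟨t, -, ht⟩ := exists_of_fib_ne h5
  have h7 := congrArg Prod.snd ht
  simp only [act_apply, Prod.snd_sub, Prod.smul_snd, zero_add] at h7
  have h8 : ∀ e : ZMod 2, 2 • e = 0 := by decide
  rw [h8] at h7
  exact (sub_eq_zero.1 h7.symm)

/-- Outside `bsub G` the type can be changed at one of two fixed points. -/
lemma exists_twist [Finite A] (hodd : Odd (Nat.card A)) (G : Subgroup (TW A))
    (hA : ∀ a, tr a ∈ G) {x : A} (hx : x ∉ bsub G) :
    ∃ x', (x' = x ∨ x' = -x) ∧ ∃ σ ∈ G, σ.g 0 = 0 ∧ σ.g x' = x' ∧ σ.w 0 = 1 ∧ σ.w x' = 0 := by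
  have h1 : ∃ σ ∈ G, σ.g 0 = 0 ∧ σ.g x = x ∧ σ.w x ≠ σ.w 0 := by
    by_contra hcon
    push Not at hcon
    apply hx
    have h2 := exists_twist_aux hodd G hA x hcon
    obtain ⟨k, hk⟩ := hodd
    have h3 : x = (Nat.card A + 1) • x := by
      rw [add_smul, one_smul, card_nsmul_eq_zero', zero_add]
    have h4 : Nat.card A + 1 = (k + 1) * 2 := by omega
    rw [h3, h4, mul_smul]
    exact AddSubgroup.nsmul_mem _ h2 _
  obtain ⟨σ, hσ, h2, h3, h4⟩ := h1
  have h5 : ∀ a b : ZMod 2, a ≠ b → (b = 1 ∧ a = 0) ∨ (b = 0 ∧ a = 1) := by decide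
  rcases h5 _ _ h4 with ⟨h6, h7⟩ | ⟨h6, h7⟩
  · exact ⟨x, Or.inl rfl, σ, hσ, h2, h3, h6, h7⟩
  · refine ⟨-x, Or.inr rfl, tr (-x) * σ * tr x, G.mul_mem (G.mul_mem (hA _) hσ) (hA _), ?_, ?_, ?_, ?_⟩
    · simp [h3]
    · simp [h2]
    · simp [h7]
    · simp [h6]

end TW

end Pool.Agent.Helper589TypeII
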