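import Pool.Agent.Helper589_TypeII.Period
import Pool.Agent.Helper589_TypeII.Twist

/-!
Quotients of twisted permutation groups by the radical.
-/

namespace Pool.Agent.Helper589TypeII

variable {A : Type} [AddCommGroup A]

/-- T is invariant under the permutations of G. -/
def TInv (G : Subgroup (TW A)) (T : Set A) : Prop := ∀ σ ∈ G, Pres σ.g T

/-- the group induced on A/L -/
def qgrp (G : Subgroup (TW A)) (L : AddSubgroup A) : Subgroup (Equiv.Perm (A ⧸ L)) where
  carrier := {γ | ∃ σ ∈ G, ∀ x : A, γ (x : A ⧸ L) = ((σ.g x : A) : A ⧸ L)}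
  one_mem' := ⟨1, G.one_mem, fun x => rfl⟩
  mul_mem' := by
    rintro γ δ ⟨σ, hσ, h1⟩ ⟨τ, hτ, h2⟩
    refine ⟨σ * τ, G.mul_mem hσ hτ, fun x => ?_⟩
    rw [Equiv.Perm.mul_apply, h2, h1]; rfl
  inv_mem' := by
    rintro γ ⟨σ, hσ, h1⟩
    refine ⟨σ⁻¹, G.inv_mem hσ, fun x => ?_⟩
    rw [Equiv.Perm.inv_eq_iff_eq, h1, TW.inv_g]
    simp

lemma exists_lift {G : Subgroup (TW A)} {L : AddSubgroup A} (hL : TInv G (L : Set A)) {σ : TW A}
    (hσ : σ ∈ G) : ∃ γ ∈ qgrp G L, ∀ x : A, γ (x : A ⧸ L) = ((σ.g x : A) : A ⧸ L) := by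
  have hout : ∀ τ ∈ G, ∀ x : A, ((τ.g (Quotient.out (x : A ⧸ L)) : A) : A ⧸ L) =
      ((τ.g x : A) : A ⧸ L) := by
    intro τ hτ x
    rw [QuotientAddGroup.eq]
    have h1 : ((Quotient.out (x : A ⧸ L) : A) : A ⧸ L) = (x : A ⧸ L) := QuotientAddGroup.out_eq' _
    rw [QuotientAddGroup.eq] at h1
    have h2 : τ.g x - τ.g (Quotient.out (x : A ⧸ L)) ∈ L :=
      (hL τ hτ (Quotient.out (x : A ⧸ L)) x).1 (by
        change x - Quotient.out (x : A ⧸ L) ∈ L
        convert h1 using 1; abel)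
    convert h2 using 1; abel
  let γ : Equiv.Perm (A ⧸ L) :=
    { toFun := fun q => ((σ.g q.out : A) : A ⧸ L)
      invFun := fun q => ((σ⁻¹.g q.out : A) : A ⧸ L)
      left_inv := by
        intro q
        induction q using QuotientAddGroup.induction_on with
        | H x =>
          have h1 := hout σ hσ x
          have h2 := hout σ⁻¹ (G.inv_mem hσ) (σ.g x)
          simp only [h1, h2]
          simp
      right_inv := by
        intro q
        induction q using QuotientAddGroup.induction_on with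
        | H x =>
          have h1 := hout σ⁻¹ (G.inv_mem hσ) x
          have h2 := hout σ hσ (σ⁻¹.g x)
          simp only [h1, h2]
          simp }
  have hγ : ∀ x : A, γ (x : A ⧸ L) = ((σ.g x : A) : A ⧸ L) := fun x => hout σ hσ x
  exact ⟨γ, ⟨σ, hσ, hγ⟩, hγ⟩

lemma qgrp_tr {G : Subgroup (TW A)} {L : AddSubgroup A} (hA : ∀ a, TW.tr a ∈ G) (a : A ⧸ L) :
    Equiv.addLeft a ∈ qgrp G L := by
  induction a using QuotientAddGroup.induction_on with
  | H a => exact ⟨TW.tr a, hA a, fun x => rfl⟩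

lemma qgrp_inv_iff {G : Subgroup (TW A)} {L : AddSubgroup A} (hL : TInv G (L : Set A))
    {T : Set (A ⧸ L)} : IsInv (qgrp G L) T ↔ TInv G {x : A | (x : A ⧸ L) ∈ T} := by
  constructor
  · intro h σ hσ x y
    obtain ⟨γ, hγ, hγ2⟩ := exists_lift hL hσ
    have h1 := h γ hγ (x : A ⧸ L) (y : A ⧸ L)
    rw [hγ2, hγ2, ← QuotientAddGroup.mk_sub, ← QuotientAddGroup.mk_sub] at h1
    exact h1
  · rintro h γ ⟨σ, hσ, h1⟩ x y
    induction x using QuotientAddGroup.induction_on with
    | H x =>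
      induction y using QuotientAddGroup.induction_on with
      | H y =>
        rw [h1, h1, ← QuotientAddGroup.mk_sub, ← QuotientAddGroup.mk_sub]
        exact h σ hσ x y

/-- The standing data: C is a maximal invariant subgroup and L is the joint radical. -/
structure RD (G : Subgroup (TW A)) (C L : AddSubgroup A) : Prop where
  tr : ∀ a, TW.tr a ∈ G
  invC : TInv G (C : Set A)
  neC : C ≠ ⊤
  maxC : ∀ H : AddSubgroup A, TInv G (H : Set A) → C ≤ H → H = C ∨ H = ⊤
  memL : ∀ l, l ∈ L ↔ l ∈ C ∧ ∀ T, TInv G T → ∀ z, z ∉ C → (z ∈ T ↔ z + l ∈ T)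

/-- the joint radical -/
def rad (G : Subgroup (TW A)) (C : AddSubgroup A) : AddSubgroup A where
  carrier := {l | l ∈ C ∧ ∀ T, TInv G T → ∀ z, z ∉ C → (z ∈ T ↔ z + l ∈ T)}
  zero_mem' := ⟨C.zero_mem, fun T _ z _ => by rw [add_zero]⟩
  add_mem' := by
    rintro a b ⟨ha, ha'⟩ ⟨hb, hb'⟩
    refine ⟨C.add_mem ha hb, fun T hT z hz => ?_⟩
    rw [ha' T hT z hz, ← add_assoc]
    apply hb' T hT
    intro h
    apply hz
    have := C.sub_mem h ha
    rwa [add_sub_cancel_right] at this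
  neg_mem' := by
    rintro a ⟨ha, ha'⟩
    refine ⟨C.neg_mem ha, fun T hT z hz => ?_⟩
    have h1 : z + -a ∉ C := by
      intro h
      apply hz
      have := C.add_mem h ha
      rwa [neg_add_cancel_right] at this
    have h2 := ha' T hT (z + -a) h1
    rw [neg_add_cancel_right] at h2
    exact h2.symm

lemma TInv.inv_apply {G : Subgroup (TW A)} {T : Set A} (hT : TInv G T) {σ : TW A} (hσ : σ ∈ G)
    (x y : A) : y - x ∈ T ↔ σ.g⁻¹ y - σ.g⁻¹ x ∈ T :=
  hT σ⁻¹ (G.inv_mem hσ) x y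

namespace RD

variable {G : Subgroup (TW A)} {C L : AddSubgroup A} (h : RD G C L)

include h

lemma LC {l : A} (hl : l ∈ L) : l ∈ C := ((h.memL l).1 hl).1

lemma invL : TInv G (L : Set A) := by
  have key : ∀ σ ∈ G, ∀ x y, y - x ∈ L → σ.g y - σ.g x ∈ L := by
    intro σ hσ x y hxy
    rw [h.memL] at hxy ⊢
    obtain ⟨h1, h2⟩ := hxy
    refine ⟨(h.invC σ hσ x y).1 h1, fun T hT z hz => ?_⟩
    obtain ⟨v, hv⟩ : ∃ v, σ.g v = σ.g x - z := ⟨σ.g⁻¹ (σ.g x - z), by simp⟩
    have e1 : x - v ∈ T ↔ σ.g x - σ.g v ∈ T := hT σ hσ v x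
    have e2 : y - v ∈ T ↔ σ.g y - σ.g v ∈ T := hT σ hσ v y
    have e3 : σ.g x - σ.g v = z := by rw [hv]; abel
    have e4 : σ.g y - σ.g v = z + (σ.g y - σ.g x) := by rw [hv]; abel
    rw [e3] at e1
    rw [e4] at e2
    rw [← e1, ← e2]
    have e5 : y - v = (x - v) + (y - x) := by abel
    rw [e5]
    apply h2 T hT
    intro h3
    apply hz
    have h4 := (h.invC σ hσ v x).1 h3
    rwa [e3] at h4
  intro σ hσ x y
  refine ⟨key σ hσ x y, fun h1 => ?_⟩
  have h2 := key σ⁻¹ (G.inv_mem hσ) _ _ h1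
  simpa using h2

/-- the image of C -/
abbrev Cb (_ : RD G C L) : AddSubgroup (A ⧸ L) := C.map (QuotientAddGroup.mk' L)

lemma mem_Cb (x : A) : (x : A ⧸ L) ∈ C.map (QuotientAddGroup.mk' L) ↔ x ∈ C := by
  rw [AddSubgroup.mem_map]
  constructor
  · rintro ⟨c, hc, hcx⟩
    have h1 : (c : A ⧸ L) = x := hcx
    rw [QuotientAddGroup.eq] at h1
    have h2 := C.add_mem hc (h.LC h1)
    rwa [add_neg_cancel_left] at h2
  · intro hx
    exact ⟨x, hx, rfl⟩

lemma maxInv : IsMaxInv (qgrp G L) (C.map (QuotientAddGroup.mk' L)) := by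
  refine ⟨?_, ?_, ?_⟩
  · rw [qgrp_inv_iff h.invL]
    have : {x : A | (x : A ⧸ L) ∈ ((C.map (QuotientAddGroup.mk' L) : AddSubgroup (A ⧸ L)) :
        Set (A ⧸ L))} = (C : Set A) := by
      ext x
      exact h.mem_Cb x
    rw [this]
    exact h.invC
  · intro h1
    apply h.neC
    ext x
    simp only [AddSubgroup.mem_top, iff_true]
    rw [← h.mem_Cb, h1]
    exact AddSubgroup.mem_top _
  · intro H hH hCH
    have h1 : TInv G ((H.comap (QuotientAddGroup.mk' L) : AddSubgroup A) : Set A) :=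
      (qgrp_inv_iff h.invL).1 hH
    have h2 : C ≤ H.comap (QuotientAddGroup.mk' L) := by
      intro c hc
      exact hCH ((h.mem_Cb c).2 hc)
    rcases h.maxC _ h1 h2 with h3 | h3
    · left
      ext q
      induction q using QuotientAddGroup.induction_on with
      | H x =>
        rw [h.mem_Cb, ← h3]
        rfl
    · right
      ext q
      induction q using QuotientAddGroup.induction_on with
      | H x =>
        simp only [AddSubgroup.mem_top, iff_true]
        have : x ∈ H.comap (QuotientAddGroup.mk' L) := by rw [h3]; exact AddSubgroup.mem_top x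
        exact this

lemma radTriv : RadTriv (qgrp G L) (C.map (QuotientAddGroup.mk' L)) := by
  intro l hl hz
  induction l using QuotientAddGroup.induction_on with
  | H l =>
    rw [h.mem_Cb] at hl
    rw [QuotientAddGroup.eq_zero_iff, h.memL]
    refine ⟨hl, fun T hT z hzC => ?_⟩
    set T' : Set A := {x | x ∈ T ∧ x ∉ C} with hT'
    have hT'inv : TInv G T' := by
      intro σ hσ x y
      change (y - x ∈ T ∧ y - x ∉ C) ↔ (σ.g y - σ.g x ∈ T ∧ σ.g y - σ.g x ∉ C)
      have h1 : y - x ∈ C ↔ σ.g y - σ.g x ∈ C := h.invC σ hσ x y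
      rw [hT σ hσ x y, h1]
    set Tb : Set (A ⧸ L) := {q | Quotient.out q ∈ T'} with hTb
    have hmem : ∀ x : A, (x : A ⧸ L) ∈ Tb ↔ x ∈ T' := by
      intro x
      change Quotient.out (x : A ⧸ L) ∈ T' ↔ x ∈ T'
      have h1 : ((Quotient.out (x : A ⧸ L) : A) : A ⧸ L) = (x : A ⧸ L) := QuotientAddGroup.out_eq' _
      rw [QuotientAddGroup.eq] at h1
      set w : A := Quotient.out (x : A ⧸ L) with hw
      have h2 : x = w + (-w + x) := by abel
      have h3 := (h.memL _).1 h1
      have h4 : x ∈ C ↔ w ∈ C := by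
        constructor
        · intro h5
          have := C.sub_mem h5 h3.1
          convert this using 1; abel
        · intro h5
          rw [h2]; exact C.add_mem h5 h3.1
      change (w ∈ T ∧ w ∉ C) ↔ (x ∈ T ∧ x ∉ C)
      rw [h4]
      constructor
      · rintro ⟨h5, h6⟩
        refine ⟨?_, h6⟩
        rw [h2]
        exact (h3.2 T hT w h6).1 h5
      · rintro ⟨h5, h6⟩
        refine ⟨?_, h6⟩
        rw [h2] at h5
        exact (h3.2 T hT w h6).2 h5
    have hTbinv : IsInv (qgrp G L) Tb := by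
      rw [qgrp_inv_iff h.invL]
      have : {x : A | (x : A ⧸ L) ∈ Tb} = T' := by
        ext x; exact hmem x
      rw [this]; exact hT'inv
    have h1 := (hz (z : A ⧸ L) (by rw [h.mem_Cb]; exact hzC)).2 Tb hTbinv (z : A ⧸ L) (by
      rw [sub_self]; exact AddSubgroup.zero_mem _)
    rw [← QuotientAddGroup.mk_add, hmem, hmem] at h1
    have h2 : z + l ∉ C := by
      intro h3
      apply hzC
      have := C.sub_mem h3 hl
      rwa [add_sub_cancel_right] at this
    constructor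
    · intro h3
      exact (h1.1 ⟨h3, hzC⟩).1
    · intro h3
      exact (h1.2 ⟨h3, h2⟩).1

end RD

end Pool.Agent.Helper589TypeII
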