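import Pool.Agent.Helper589_TypeII.Inv

/-!
Maximal invariant subgroups with trivial radical: index versus order.
-/

namespace Pool.Agent.Helper589TypeII

variable {A : Type} [AddCommGroup A]

lemma mem_of_nsmul_prime [Finite A] [IsAddCyclic A] {p : ℕ} (hp : p.Prime) {H : AddSubgroup A}
    (hH : p ∣ Nat.card H) {o : A} (ho : p • o = 0) : o ∈ H := by
  classical
  have := Fintype.ofFinite A
  have : Fact p.Prime := ⟨hp⟩
  obtain ⟨h, hh⟩ := exists_prime_addOrderOf_dvd_card' (G := H) p hH
  have h1 : addOrderOf (h : A) = p := by rw [← hh]; exact AddSubgroup.addOrderOf_coe h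
  set S : Finset A := Finset.univ.filter (fun a : A => p • a = 0) with hS
  have h2 : S.card ≤ p := IsAddCyclic.card_nsmul_eq_zero_le hp.pos
  set U : Finset A := (Finset.range p).image (fun i => i • (h : A)) with hU
  have h3 : U ⊆ S := by
    intro a ha
    rw [hU, Finset.mem_image] at ha
    obtain ⟨i, -, rfl⟩ := ha
    rw [hS, Finset.mem_filter]
    refine ⟨Finset.mem_univ _, ?_⟩
    rw [smul_comm, ← h1, addOrderOf_nsmul_eq_zero, smul_zero]
  have h4 : U.card = p := by
    rw [hU, Finset.card_image_of_injOn, Finset.card_range]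
    intro i hi j hj hij
    rw [Finset.coe_range, Set.mem_Iio] at hi hj
    exact nsmul_injOn_Iio_addOrderOf (by rw [h1]; exact hi) (by rw [h1]; exact hj) hij
  have h5 : U = S := Finset.eq_of_subset_of_card_le h3 (by rw [h4]; exact h2)
  have h6 : o ∈ U := by
    rw [h5, hS, Finset.mem_filter]
    exact ⟨Finset.mem_univ _, ho⟩
  rw [hU, Finset.mem_image] at h6
  obtain ⟨i, -, rfl⟩ := h6
  exact H.nsmul_mem h.2 i

lemma quot_cyclic [IsAddCyclic A] (C : AddSubgroup A) : IsAddCyclic (A ⧸ C) :=
  isAddCyclic_of_surjective (QuotientAddGroup.mk' C) (QuotientAddGroup.mk'_surjective C)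

lemma index_dvd_of_forall [Finite A] [IsAddCyclic A] {C : AddSubgroup A} {k : ℕ}
    (h : ∀ a : A, k • a ∈ C) : C.index ∣ k := by
  have := quot_cyclic C
  have h1 : AddMonoid.exponent (A ⧸ C) = Nat.card (A ⧸ C) := IsAddCyclic.exponent_eq_card
  have h2 : AddMonoid.exponent (A ⧸ C) ∣ k := by
    apply AddMonoid.exponent_dvd_of_forall_nsmul_eq_zero
    intro q
    induction q using QuotientAddGroup.induction_on with
    | H a =>
      rw [← QuotientAddGroup.mk_nsmul, QuotientAddGroup.eq_zero_iff]
      exact h a
  rw [h1] at h2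
  exact h2

lemma index_nsmul_mem [Finite A] (C : AddSubgroup A) (a : A) : C.index • a ∈ C :=
  AddSubgroup.nsmul_index_mem C a

/-- C is maximal among proper invariant subgroups. -/
def IsMaxInv (G : Subgroup (Equiv.Perm A)) (C : AddSubgroup A) : Prop :=
  IsInv G (C : Set A) ∧ C ≠ ⊤ ∧ ∀ H : AddSubgroup A, IsInv G (H : Set A) → C ≤ H → H = C ∨ H = ⊤

/-- The joint radical outside C is trivial. -/
def RadTriv (G : Subgroup (Equiv.Perm A)) (C : AddSubgroup A) : Prop :=
  ∀ l ∈ C, (∀ z, z ∉ C → l ∈ lrad G C z) → l = 0

lemma rset_nonempty [Finite A] [IsAddCyclic A] {G : Subgroup (Equiv.Perm A)} {C : AddSubgroup A}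
    (hR : RadTriv G C) {q : ℕ} (hq : q.Prime) (hqC : q ∣ Nat.card C) :
    (rset G C q).Nonempty := by
  have : Fact q.Prime := ⟨hq⟩
  by_contra hcon
  rw [Set.not_nonempty_iff_eq_empty] at hcon
  obtain ⟨o, ho⟩ := exists_prime_addOrderOf_dvd_card' (G := C) q hqC
  have h0 : q • (o : A) = 0 := by
    have : addOrderOf (o : A) = q := by rw [← ho]; exact AddSubgroup.addOrderOf_coe o
    rw [← this]; exact addOrderOf_nsmul_eq_zero _
  have h1 : (o : A) = 0 := by
    apply hR _ o.2
    intro z hz
    by_cases h2 : q ∣ Nat.card (lrad G C z)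
    · exact mem_of_nsmul_prime hq h2 h0
    · exfalso
      have : z ∈ rset G C q := ⟨hz, h2⟩
      rw [hcon] at this
      exact this
  have h2 : o = 0 := Subtype.ext h1
  rw [h2, addOrderOf_zero] at ho
  exact hq.one_lt.ne ho

lemma closure_rset [Finite A] [IsAddCyclic A] {G : Subgroup (Equiv.Perm A)} {C : AddSubgroup A}
    (hC : IsMaxInv G C) (hR : RadTriv G C) {q : ℕ} (hq : q.Prime) (hqC : q ∣ Nat.card C) :
    AddSubgroup.closure (rset G C q) = ⊤ := by
  obtain ⟨z, hz⟩ := rset_nonempty hR hq hqC
  have h1 : C ≤ AddSubgroup.closure (rset G C q) := by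
    intro c hc
    have h2 := AddSubgroup.subset_closure (rset_add hz hc)
    have h3 := AddSubgroup.subset_closure hz
    have h4 := AddSubgroup.sub_mem _ h2 h3
    rwa [add_sub_cancel_left] at h4
  rcases hC.2.2 _ (rset_inv hC.1 q).closure h1 with h | h
  · exfalso
    apply hz.1
    rw [← h]
    exact AddSubgroup.subset_closure hz
  · exact h

/-- If a prime p divides both the index and the order of C, then the index is p. -/
lemma index_eq_prime [Finite A] [IsAddCyclic A] {G : Subgroup (Equiv.Perm A)} {C : AddSubgroup A}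
    (hC : IsMaxInv G C) (hR : RadTriv G C) {p : ℕ} (hp : p.Prime) (hpC : p ∣ Nat.card C)
    (hpi : p ∣ C.index) : C.index = p := by
  classical
  have := Fintype.ofFinite A
  have : Fact p.Prime := ⟨hp⟩
  have hidx : C.index ≠ 0 := AddSubgroup.index_ne_zero_of_finite
  -- the set of z with p z ∈ C
  have hE : (∀ z ∈ rset G C p, p • z ∈ C) → C.index = p := by
    intro h
    let E : AddSubgroup A := C.comap (nsmulAddMonoidHom p)
    have h1 : AddSubgroup.closure (rset G C p) ≤ E := by
      rw [AddSubgroup.closure_le]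
      intro z hz
      exact h z hz
    rw [closure_rset hC hR hp hpC] at h1
    have h2 : ∀ a : A, p • a ∈ C := fun a => h1 (AddSubgroup.mem_top a)
    have h3 := index_dvd_of_forall h2
    exact Nat.dvd_antisymm h3 hpi
  apply hE
  rintro z ⟨hz1, hz2⟩
  by_contra hpz
  apply hz2
  -- an element of order p in C
  obtain ⟨o, ho⟩ := exists_prime_addOrderOf_dvd_card' (G := C) p hpC
  have hoA : addOrderOf (o : A) = p := by rw [← ho]; exact AddSubgroup.addOrderOf_coe o
  have key : ∀ T, IsInv G T → ∀ u, u - z ∈ C → u ∈ T → ∀ v, p • v = p • u → v ∈ T := by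
    intro T hT u hu huT v hv
    set S : Set A := {w | (fib p T w : ZMod p) ≠ 0} with hS
    have hSinv : IsInv G S := fun g hg => pres_fib hp (hT g hg)
    have hHinv := hSinv.closure.sup hC.1
    -- the subgroup is proper
    have hle : AddSubgroup.closure S ⊔ C ≤ C.comap (nsmulAddMonoidHom (C.index / p)) := by
      apply sup_le
      · rw [AddSubgroup.closure_le]
        intro w hw
        obtain ⟨t, -, rfl⟩ := exists_of_fib_ne hw
        change (C.index / p) • (p • t) ∈ C
        rw [← mul_smul, Nat.div_mul_cancel hpi]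
        exact index_nsmul_mem C t
      · intro w hw
        exact C.nsmul_mem hw _
    have hne : AddSubgroup.closure S ⊔ C ≠ ⊤ := by
      intro h
      rw [h] at hle
      have h2 : ∀ a : A, (C.index / p) • a ∈ C := fun a => hle (AddSubgroup.mem_top a)
      have h3 := index_dvd_of_forall h2
      have h4 : C.index / p < C.index := Nat.div_lt_self (Nat.pos_of_ne_zero hidx) hp.one_lt
      have h5 : 0 < C.index / p := Nat.div_pos (Nat.le_of_dvd (Nat.pos_of_ne_zero hidx) hpi) hp.pos
      exact absurd (Nat.le_of_dvd h5 h3) (not_le.2 h4)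
    have hHC : AddSubgroup.closure S ⊔ C = C := by
      rcases hC.2.2 _ hHinv le_sup_right with h | h
      · exact h
      · exact absurd h hne
    have hnot : p • u ∉ S := by
      intro h
      apply hpz
      have h1 : p • u ∈ C := by
        rw [← hHC]
        exact AddSubgroup.mem_sup_left (AddSubgroup.subset_closure h)
      have h2 : p • z = p • u - p • (u - z) := by rw [smul_sub]; abel
      rw [h2]
      exact C.sub_mem h1 (C.nsmul_mem hu _)
    have hfib : (fib p T (p • u) : ZMod p) = 0 := by
      by_contra h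
      exact hnot h
    rw [ZMod.natCast_eq_zero_iff] at hfib
    -- counting
    set F : Finset A := Finset.univ.filter (fun t => t ∈ T ∧ p • t = p • u) with hF
    set F' : Finset A := Finset.univ.filter (fun t => p • t = p • u) with hF'
    have hFF : F ⊆ F' := by
      intro t ht
      rw [hF, Finset.mem_filter] at ht
      rw [hF', Finset.mem_filter]
      exact ⟨ht.1, ht.2.2⟩
    have hF'card : F'.card ≤ p := by
      have h1 : F'.card = (Finset.univ.filter (fun a : A => p • a = 0)).card := by
        apply Finset.card_bij (fun a _ => a - u)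
        · intro a ha
          rw [hF', Finset.mem_filter] at ha
          rw [Finset.mem_filter]
          refine ⟨Finset.mem_univ _, ?_⟩
          rw [smul_sub, ha.2, sub_self]
        · intro a _ b _ h
          exact sub_left_injective h
        · intro b hb
          rw [Finset.mem_filter] at hb
          refine ⟨b + u, ?_, by simp⟩
          rw [hF', Finset.mem_filter]
          exact ⟨Finset.mem_univ _, by rw [smul_add, hb.2, zero_add]⟩
      rw [h1]
      exact IsAddCyclic.card_nsmul_eq_zero_le hp.pos
    have hFcard : F.card = fib p T (p • u) := by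
      rw [fib]
    have hFpos : 0 < F.card := by
      rw [Finset.card_pos]
      exact ⟨u, by rw [hF, Finset.mem_filter]; exact ⟨Finset.mem_univ _, huT, rfl⟩⟩
    have hFp : p ≤ F.card := by
      apply Nat.le_of_dvd hFpos
      rw [hFcard]; exact hfib
    have hFeq : F = F' := Finset.eq_of_subset_of_card_le hFF (le_trans hF'card hFp)
    have hvF : v ∈ F := by
      rw [hFeq, hF', Finset.mem_filter]
      exact ⟨Finset.mem_univ _, hv⟩
    rw [hF, Finset.mem_filter] at hvF
    exact hvF.2.1
  have hoL : (o : A) ∈ lrad G C z := by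
    refine ⟨o.2, fun T hT u hu => ?_⟩
    have hpo : p • (o : A) = 0 := by rw [← hoA]; exact addOrderOf_nsmul_eq_zero _
    constructor
    · intro h
      exact key T hT u hu h _ (by rw [smul_add, hpo, add_zero])
    · intro h
      refine key T hT (u + o) ?_ h _ (by rw [smul_add, hpo, add_zero])
      have : u + o - z = (u - z) + o := by abel
      rw [this]
      exact C.add_mem hu o.2
  have h1 : addOrderOf (⟨o, hoL⟩ : lrad G C z) = p := by
    rw [← hoA]
    exact (AddSubgroup.addOrderOf_coe (⟨o, hoL⟩ : lrad G C z)).symm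
  rw [← h1]
  exact addOrderOf_dvd_natCard _

end Pool.Agent.Helper589TypeII
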