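import Pool.Agent.Helper589_TypeII.TheoremI

/-!
Residues modulo 2m for odd m.
-/

namespace Pool.Agent.Helper589TypeII

variable {m : ℕ}

/-- The subgroup of even residues modulo 2m. -/
def ev (m : ℕ) : AddSubgroup (ZMod (2 * m)) := AddSubgroup.zmultiples 2

/-- reduction modulo 2 -/
def par (m : ℕ) : ZMod (2 * m) →+* ZMod 2 := ZMod.castHom (dvd_mul_right 2 m) (ZMod 2)

/-- the residue m -/
def MM (m : ℕ) : ZMod (2 * m) := (m : ZMod (2 * m))

lemma two_mul_MM : (2 : ZMod (2 * m)) * MM m = 0 := by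
  have : ((2 * m : ℕ) : ZMod (2 * m)) = 0 := ZMod.natCast_self _
  rwa [Nat.cast_mul, Nat.cast_ofNat] at this

lemma par_two : par m 2 = 0 := by
  have h2 : par m ((2 : ℕ) : ZMod (2 * m)) = ((2 : ℕ) : ZMod 2) := map_natCast _ _
  rw [Nat.cast_ofNat] at h2
  rw [h2]; decide

lemma MM_add : MM m + MM m = 0 := by
  rw [← two_mul]; exact two_mul_MM

lemma neg_MM : - MM m = MM m := neg_eq_of_add_eq_zero_left MM_add

lemma par_MM (hm : Odd m) : par m (MM m) = 1 := by
  rw [MM, map_natCast]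
  exact (ZMod.natCast_eq_one_iff_odd).2 hm

lemma mem_ev (hm : Odd m) (x : ZMod (2 * m)) : x ∈ ev m ↔ par m x = 0 := by
  have : NeZero (2 * m) := ⟨by have := hm.pos; omega⟩
  constructor
  · intro h
    obtain ⟨k, hk⟩ := AddSubgroup.mem_zmultiples_iff.1 h
    rw [← hk, map_zsmul]
    rw [par_two, smul_zero]
  · intro h
    have h1 : x = ((x.val : ℕ) : ZMod (2 * m)) := (ZMod.natCast_zmod_val x).symm
    rw [h1, map_natCast] at h
    have h2 : Even x.val := (ZMod.natCast_eq_zero_iff_even).1 h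
    obtain ⟨k, hk⟩ := h2
    rw [h1, hk]
    refine AddSubgroup.mem_zmultiples_iff.2 ⟨k, ?_⟩
    push_cast
    rw [zsmul_eq_mul]
    push_cast
    ring

lemma not_mem_ev (hm : Odd m) (x : ZMod (2 * m)) : x ∉ ev m ↔ par m x = 1 := by
  rw [mem_ev hm]
  generalize par m x = a
  revert a; decide

lemma two_mul_mem (x : ZMod (2 * m)) (hm : Odd m) : 2 * x ∈ ev m := by
  rw [mem_ev hm, map_mul, par_two, zero_mul]

lemma add_MM_mem (hm : Odd m) (x : ZMod (2 * m)) : x + MM m ∈ ev m ↔ x ∉ ev m := by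
  rw [mem_ev hm, mem_ev hm, map_add, par_MM hm]
  generalize par m x = a
  revert a; decide

lemma MM_not_mem (hm : Odd m) : MM m ∉ ev m := by
  rw [not_mem_ev hm, par_MM hm]

lemma MM_ne (hm : Odd m) : MM m ≠ 0 := by
  intro h
  apply MM_not_mem hm
  rw [h]; exact (ev m).zero_mem

lemma m_smul (hm : Odd m) {x : ZMod (2 * m)} (hx : x ∈ ev m) : m • x = 0 := by
  obtain ⟨k, hk⟩ := AddSubgroup.mem_zmultiples_iff.1 hx
  rw [← hk, smul_comm, nsmul_eq_mul]
  have : (m : ZMod (2 * m)) * 2 = 0 := by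
    have h1 := two_mul_MM (m := m)
    rw [MM] at h1
    linear_combination h1
  rw [this, smul_zero]

lemma two_mul_zero_iff (hm : Odd m) (z : ZMod (2 * m)) :
    2 * z = 0 ↔ z = 0 ∨ z = MM m := by
  have : NeZero (2 * m) := ⟨by have := hm.pos; omega⟩
  constructor
  · intro h
    have h1 : z = ((z.val : ℕ) : ZMod (2 * m)) := (ZMod.natCast_zmod_val z).symm
    have h2 : ((2 * z.val : ℕ) : ZMod (2 * m)) = 0 := by
      push_cast; rw [← h1]; exact h
    rw [ZMod.natCast_eq_zero_iff] at h2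
    have h3 : m ∣ z.val := Nat.dvd_of_mul_dvd_mul_left (by norm_num) h2
    obtain ⟨k, hk⟩ := h3
    have h4 : z.val < 2 * m := ZMod.val_lt z
    have hk2 : k < 2 := by
      by_contra hcon
      push Not at hcon
      have : m * 2 ≤ m * k := Nat.mul_le_mul_left _ hcon
      omega
    interval_cases k
    · left; rw [h1, hk]; simp
    · right; rw [h1, hk, MM]; simp
  · rintro (h | h)
    · rw [h, mul_zero]
    · rw [h]; exact two_mul_MM

lemma exists_half (hm : Odd m) {x : ZMod (2 * m)} (hx : x ∈ ev m) :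
    ∃ y ∈ ev m, 2 * y = x := by
  obtain ⟨k, hk⟩ := AddSubgroup.mem_zmultiples_iff.1 hx
  by_cases h : (k : ZMod (2 * m)) ∈ ev m
  · exact ⟨k, h, by rw [← hk, zsmul_eq_mul]; ring⟩
  · refine ⟨k + MM m, (add_MM_mem hm _).2 h, ?_⟩
    rw [mul_add, two_mul_MM, ← hk, zsmul_eq_mul]; ring

/-- In the even residues, doubling is injective; more generally modulo a subgroup. -/
lemma mem_of_two (hm : Odd m) {Q : AddSubgroup (ZMod (2 * m))} {x : ZMod (2 * m)}
    (hx : x ∈ ev m) (h : 2 * x ∈ Q) : x ∈ Q := by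
  obtain ⟨k, hk⟩ := hm
  have h1 : x = (k + 1) • (2 * x) := by
    have h2 := m_smul ⟨k, hk⟩ hx
    have h3 : (k + 1) • (2 * x) = m • x + x := by
      have h4 : m • x = (2 * k + 1) • x := congrArg (fun n : ℕ => n • x) hk
      rw [h4, nsmul_eq_mul, nsmul_eq_mul]; push_cast; ring
    rw [h3, h2, zero_add]
  rw [h1]
  exact Q.nsmul_mem h _

lemma card_ev (hm : Odd m) : Nat.card (ev m) = m := by
  have h1 : Nat.card (ev m) = addOrderOf (2 : ZMod (2 * m)) := Nat.card_zmultiples _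
  have h2 : addOrderOf (((2 : ℕ) : ZMod (2 * m))) = (2 * m) / (2 * m).gcd 2 :=
    ZMod.addOrderOf_coe 2 (by have := hm.pos; omega)
  rw [h1, show (2 : ZMod (2 * m)) = ((2 : ℕ) : ZMod (2 * m)) from (Nat.cast_ofNat).symm, h2]
  have h3 : (2 * m).gcd 2 = 2 := Nat.gcd_eq_right (dvd_mul_right 2 m)
  rw [h3]; omega

/-- embedding of Z_2 -/
def em (m : ℕ) (ε : ZMod 2) : ZMod (2 * m) := if ε = 0 then 0 else MM m

lemma em_zero : em m 0 = 0 := if_pos rfl

lemma em_one : em m 1 = MM m := if_neg (by decide)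

lemma zmod2_cases (a : ZMod 2) : a = 0 ∨ a = 1 := by revert a; decide

lemma em_add (a b : ZMod 2) : em m (a + b) = em m a + em m b := by
  rcases zmod2_cases a with rfl | rfl <;> rcases zmod2_cases b with rfl | rfl
  · rw [add_zero, em_zero, add_zero]
  · rw [zero_add, em_zero, zero_add]
  · rw [add_zero, em_zero, add_zero]
  · rw [em_one, MM_add, show (1 : ZMod 2) + 1 = 0 from by decide, em_zero]

lemma em_add_self (a : ZMod 2) : em m a + em m a = 0 := by
  rw [← em_add, show a + a = 0 from by revert a; decide, em_zero]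

lemma neg_em (a : ZMod 2) : - em m a = em m a := neg_eq_of_add_eq_zero_left (em_add_self a)

lemma par_em (hm : Odd m) (a : ZMod 2) : par m (em m a) = a := by
  rcases zmod2_cases a with rfl | rfl
  · rw [em_zero, map_zero]
  · rw [em_one, par_MM hm]

end Pool.Agent.Helper589TypeII
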