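import Pool.Agent.Helper589_TypeII.Good

/-!
Theorem I: a structure-preserving twisted permutation with nonzero type can be replaced by one
whose type is constantly one.
-/

namespace Pool.Agent.Helper589TypeII

variable {A : Type} [AddCommGroup A]

/-- Twisted permutations preserving all sets of the family, preserving Q, with type function
constant on Q-classes and preserving E up to the twist. -/
structure PT (F : Set (Set A)) (Q : Set A) (E : ZMod 2 → Set A) (σ : TW A) : Prop where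
  fam : ∀ T ∈ F, Pres σ.g T
  rel : Pres σ.g Q
  wcon : ∀ x y, y - x ∈ Q → σ.w y = σ.w x
  edge : ∀ x y, y - x ∈ Q → ∀ ε, (y - x ∈ E ε ↔ σ.g y - σ.g x ∈ E (ε + σ.w x))

/-- the structure group -/
def ptG (F : Set (Set A)) (Q : Set A) (E : ZMod 2 → Set A) : Subgroup (TW A) where
  carrier := {σ | PT F Q E σ}
  one_mem' :=
    { fam := fun T _ x y => Iff.rfl
      rel := fun x y => Iff.rfl
      wcon := fun x y _ => rfl
      edge := fun x y _ ε => by simp }
  mul_mem' := by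
    intro σ τ hσ hτ
    refine ⟨fun T hT x y => ?_, fun x y => ?_, fun x y hxy => ?_, fun x y hxy ε => ?_⟩
    · rw [hτ.fam T hT x y, hσ.fam T hT (τ.g x) (τ.g y)]; rfl
    · rw [hτ.rel x y, hσ.rel (τ.g x) (τ.g y)]; rfl
    · rw [TW.mul_w, TW.mul_w, hτ.wcon x y hxy, hσ.wcon _ _ ((hτ.rel x y).1 hxy)]
    · rw [hτ.edge x y hxy ε, hσ.edge _ _ ((hτ.rel x y).1 hxy), TW.mul_w, add_assoc]
      rfl
  inv_mem' := by
    intro σ hσ
    have hi : ∀ x, σ.g (σ.g⁻¹ x) = x := fun x => by simp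
    have hrel : ∀ x y, y - x ∈ Q ↔ σ.g⁻¹ y - σ.g⁻¹ x ∈ Q := by
      intro x y
      rw [hσ.rel (σ.g⁻¹ x) (σ.g⁻¹ y), hi, hi]
    refine ⟨fun T hT x y => ?_, hrel, fun x y hxy => ?_, fun x y hxy ε => ?_⟩
    · rw [TW.inv_g, hσ.fam T hT (σ.g⁻¹ x) (σ.g⁻¹ y), hi, hi]
    · rw [TW.inv_w, TW.inv_w, hσ.wcon _ _ ((hrel x y).1 hxy)]
    · rw [TW.inv_w, TW.inv_g, hσ.edge _ _ ((hrel x y).1 hxy), hi, hi, add_assoc, neg_add_cancel,
        add_zero]

lemma mem_ptG {F : Set (Set A)} {Q : Set A} {E : ZMod 2 → Set A} {σ : TW A} :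
    σ ∈ ptG F Q E ↔ PT F Q E σ := Iff.rfl

lemma ptG_tr (F : Set (Set A)) (Q : Set A) (E : ZMod 2 → Set A) (a : A) :
    TW.tr a ∈ ptG F Q E := by
  refine ⟨fun T _ x y => ?_, fun x y => ?_, fun x y _ => rfl, fun x y _ ε => ?_⟩
  · rw [TW.tr_g, TW.tr_g, add_sub_add_left_eq_sub]
  · rw [TW.tr_g, TW.tr_g, add_sub_add_left_eq_sub]
  · rw [TW.tr_g, TW.tr_g, TW.tr_w, add_sub_add_left_eq_sub, add_zero]

lemma exists_minG [Finite A] (P : Subgroup (TW A)) (htr : ∀ a, TW.tr a ∈ P)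
    (hw : ∃ σ ∈ P, ∃ x, σ.w x ≠ 0) :
    ∃ G : Subgroup (TW A), G ≤ P ∧ (∀ a, TW.tr a ∈ G) ∧ (∃ σ ∈ G, ∃ x, σ.w x ≠ 0) ∧ MinG G := by
  let S : Set (Subgroup (TW A)) :=
    {G | G ≤ P ∧ (∀ a, TW.tr a ∈ G) ∧ (∃ σ ∈ G, ∃ x, σ.w x ≠ 0)}
  have hS : S.Nonempty := ⟨P, le_rfl, htr, hw⟩
  obtain ⟨G, hG⟩ := (Set.toFinite S).exists_minimal hS
  refine ⟨G, hG.1.1, hG.1.2.1, hG.1.2.2, ?_⟩
  intro H hH h1 h2
  exact hG.2 ⟨hH.trans hG.1.1, h1, h2⟩ hH

lemma exists_maxC [Finite A] (G : Subgroup (TW A)) (B : AddSubgroup A)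
    (hB : TInv G (B : Set A)) (hne : B ≠ ⊤) :
    ∃ C : AddSubgroup A, B ≤ C ∧ TInv G (C : Set A) ∧ C ≠ ⊤ ∧
      ∀ H : AddSubgroup A, TInv G (H : Set A) → C ≤ H → H = C ∨ H = ⊤ := by
  let S : Set (AddSubgroup A) := {C | B ≤ C ∧ TInv G (C : Set A) ∧ C ≠ ⊤}
  have hS : S.Nonempty := ⟨B, le_rfl, hB, hne⟩
  obtain ⟨C, hC⟩ := (Set.toFinite S).exists_maximal hS
  refine ⟨C, hC.1.1, hC.1.2.1, hC.1.2.2, ?_⟩
  intro H hH hCH
  by_cases h : H = ⊤
  · exact Or.inr h
  · exact Or.inl (le_antisymm (hC.2 ⟨hC.1.1.trans hCH, hH, h⟩ hCH) hCH)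

section Glue

variable {C L : AddSubgroup A} (f : C → C) (hf : Function.Injective f)
  (hfL : ∀ c : C, (f c : A) - c ∈ L)

/-- coset representative -/
noncomputable def rho (C : AddSubgroup A) (y : A) : A := Quotient.out (y : A ⧸ C)

lemma sub_rho (C : AddSubgroup A) (y : A) : y - rho C y ∈ C := by
  have h1 : ((rho C y : A) : A ⧸ C) = (y : A ⧸ C) := QuotientAddGroup.out_eq' _
  rw [QuotientAddGroup.eq] at h1
  convert h1 using 1; abel

lemma rho_congr {C : AddSubgroup A} {x y : A} (h : y - x ∈ C) : rho C y = rho C x := by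
  have h1 : (y : A ⧸ C) = (x : A ⧸ C) := by
    rw [QuotientAddGroup.eq]
    have := C.neg_mem h
    convert this using 1; abel
  rw [rho, h1]; rfl

/-- the glued map -/
noncomputable def glue (f : C → C) (y : A) : A := rho C y + f ⟨y - rho C y, sub_rho C y⟩

lemma glue_sub_self (f : C → C) (y : A) : glue f y - y ∈ C := by
  have h1 := C.sub_mem (f ⟨y - rho C y, sub_rho C y⟩).2 (sub_rho C y)
  rw [glue]
  convert h1 using 1; abel

include hfL in
lemma glue_mem_L (y : A) : glue f y - y ∈ L := by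
  have h1 := hfL ⟨y - rho C y, sub_rho C y⟩
  rw [glue]
  convert h1 using 1
  change _ = (f ⟨y - rho C y, sub_rho C y⟩ : A) - (y - rho C y)
  abel

lemma glue_eq (f : C → C) {x y r : A} (hx : x - r ∈ C) (hr : rho C x = r) :
    glue f x = r + f ⟨x - r, hx⟩ := by
  subst hr; rfl

include hf in
lemma glue_inj : Function.Injective (glue f) := by
  intro x y hxy
  have h1 : y - x ∈ C := by
    have h2 := C.sub_mem (glue_sub_self f x) (glue_sub_self f y)
    rw [hxy] at h2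
    convert h2 using 1; abel
  have h3 : rho C y = rho C x := rho_congr h1
  have hy : y - rho C x ∈ C := by rw [← h3]; exact sub_rho C y
  rw [glue_eq f (y := x) (sub_rho C x) rfl, glue_eq f (y := x) hy h3] at hxy
  have h4 := hf (Subtype.ext (add_left_cancel hxy))
  have h5 := congrArg Subtype.val h4
  exact sub_left_injective h5

lemma glue_sub (f : C → C) {x y : A} (h : y - x ∈ C) :
    ∃ a b : C, (b : A) - a = y - x ∧ glue f y - glue f x = (f b : A) - f a := by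
  have h3 : rho C y = rho C x := rho_congr h
  have hy : y - rho C x ∈ C := by rw [← h3]; exact sub_rho C y
  refine ⟨⟨x - rho C x, sub_rho C x⟩, ⟨y - rho C x, hy⟩, ?_, ?_⟩
  · change y - rho C x - (x - rho C x) = y - x
    abel
  · rw [glue_eq f (y := x) (sub_rho C x) rfl, glue_eq f (y := x) hy h3]; abel

end Glue

theorem theoremI_aux (n : ℕ) : ∀ (A : Type) [AddCommGroup A] [Finite A] [IsAddCyclic A],
    Odd (Nat.card A) → Nat.card A = n → ∀ (F : Set (Set A)) (Q : Set A) (E : ZMod 2 → Set A),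
    (∃ σ, PT F Q E σ ∧ ∃ x, σ.w x ≠ 0) → ∃ g : Equiv.Perm A, PT F Q E ⟨g, fun _ => 1⟩ := by
  induction n using Nat.strong_induction_on with
  | _ n ih =>
  intro A _ _ _ hodd hn F Q E hex
  obtain ⟨σ₀, hσ₀, hσ₀w⟩ := hex
  obtain ⟨G, hGP, htr, hGw, hmin⟩ := exists_minG (ptG F Q E) (ptG_tr F Q E) ⟨σ₀, hσ₀, hσ₀w⟩
  have hdec : ∀ a : ZMod 2, a ≠ 0 → a = 1 := by decide
  by_cases hbt : TW.bsub G = ⊤
  · obtain ⟨σ, hσ, x, hx⟩ := hGw
    refine ⟨σ.g, ?_⟩
    have h1 : (⟨σ.g, fun _ => 1⟩ : TW A) = σ := by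
      ext y
      · rfl
      · change (1 : ZMod 2) = σ.w y
        have h2 : ∀ y, σ.w y = σ.w 0 := by
          intro y
          have h3 : y ∈ TW.bsub G := by rw [hbt]; exact AddSubgroup.mem_top y
          have := h3 σ hσ 0
          rwa [zero_add] at this
        rw [h2 y, ← h2 x, hdec _ hx]
    rw [h1]
    exact hGP hσ
  have hbinv : TInv G (TW.bsub G : Set A) := fun σ hσ => TW.bsub_block G htr hσ
  obtain ⟨C, hbC, hCinv, hCne, hCmax⟩ := exists_maxC G (TW.bsub G) hbinv hbt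
  set L := rad G C with hL
  have hRD : RD G C L :=
    { tr := htr, invC := hCinv, neC := hCne, maxC := hCmax, memL := fun l => Iff.rfl }
  obtain ⟨x₀, hx₀, hg1, hg2⟩ := exists_good hodd hRD hbC hmin
  obtain ⟨x', hx', σ, hσ, h0, h1, h2, h3⟩ :=
    TW.exists_twist hodd G htr (fun h1 => hx₀ (hbC h1))
  have hgood : Good G C L x' := by
    rcases hx' with rfl | rfl
    · exact hg1
    · exact hg2
  set τ : TW A := TW.tr (-x') * σ⁻¹ * TW.tr x' * σ with hτ
  have hτG : τ ∈ G := G.mul_mem (G.mul_mem (G.mul_mem (htr _) (G.inv_mem hσ)) (htr _)) hσ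
  have hσi : σ.g⁻¹ x' = x' := by rw [Equiv.Perm.inv_eq_iff_eq, h1]
  have hτg : ∀ y, τ.g y = -x' + σ.g⁻¹ (x' + σ.g y) := by
    intro y
    rw [hτ]
    simp [TW.mul_g, TW.inv_g]
  have hτ0 : τ.g 0 = 0 := by rw [hτg, h0, add_zero, hσi, neg_add_cancel]
  have hτw : τ.w 0 = 1 := by
    rw [hτ]
    simp [h0, h2, hσi, h3]
  have hτL : ∀ c ∈ C, τ.g c - c ∈ L := by
    intro c hc
    have h4 := hgood σ hσ h0 h1 c hc
    have h5 : x' + σ.g c - σ.g (c + x') ∈ L := by
      have := L.neg_mem h4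
      convert this using 1; abel
    have h6 : σ.g⁻¹ (x' + σ.g c) - σ.g⁻¹ (σ.g (c + x')) ∈ L :=
      (hRD.invL.inv_apply hσ (σ.g (c + x')) (x' + σ.g c)).1 h5
    rw [show σ.g⁻¹ (σ.g (c + x')) = c + x' from by simp] at h6
    rw [hτg]
    convert h6 using 1; abel
  clear_value τ
  have hτP : PT F Q E τ := hGP hτG
  have hτC : ∀ x, τ.g x ∈ C ↔ x ∈ C := by
    intro x
    have h4 : x - 0 ∈ C ↔ τ.g x - τ.g 0 ∈ C := hCinv τ hτG 0 x
    rw [hτ0, sub_zero, sub_zero] at h4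
    exact h4.symm
  -- restriction to C
  let τC : TW C := ⟨τ.g.subtypePerm hτC, fun c => τ.w c⟩
  let FC : Set (Set C) := {T' | (∃ T ∈ F, T' = {c : C | (c : A) ∈ T}) ∨
    (∃ c₀ : C, T' = {c : C | (c : A) - c₀ ∈ L})}
  let QC : Set C := {c : C | (c : A) ∈ Q}
  let EC : ZMod 2 → Set C := fun ε => {c : C | (c : A) ∈ E ε}
  have hτCP : PT FC QC EC τC := by
    refine ⟨?_, ?_, ?_, ?_⟩
    · rintro T' (⟨T, hT, rfl⟩ | ⟨c₀, rfl⟩) x y
      · exact hτP.fam T hT x y
      · change ((y - x : C) : A) - c₀ ∈ L ↔ (τ.g y - τ.g x) - c₀ ∈ L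
        have h4 := hτL x x.2
        have h5 := hτL y y.2
        rw [AddSubgroup.coe_sub]
        have h6 : τ.g y - τ.g x - c₀ = ((y : A) - x - c₀) + ((τ.g y - y) - (τ.g x - x)) := by
          abel
        rw [h6]
        exact (AddSubgroup.add_mem_cancel_right L (L.sub_mem h5 h4)).symm
    · intro x y
      exact hτP.rel x y
    · intro x y hxy
      exact hτP.wcon x y hxy
    · intro x y hxy ε
      exact hτP.edge x y hxy ε
  have hCcard : Nat.card C < n := by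
    rw [← hn]
    have h4 := AddSubgroup.card_mul_index C
    have h5 : C.index ≠ 1 := fun h => hCne (AddSubgroup.index_eq_one.1 h)
    have h6 : C.index ≠ 0 := AddSubgroup.index_ne_zero_of_finite
    have h7 : 0 < Nat.card C := Nat.card_pos
    rw [← h4]
    have h8 : 1 < C.index := by omega
    exact (Nat.lt_mul_iff_one_lt_right h7).2 h8
  have hCodd : Odd (Nat.card C) :=
    Odd.of_dvd_nat hodd (AddSubgroup.card_addSubgroup_dvd_card C)
  obtain ⟨g', hg'⟩ := ih (Nat.card C) hCcard C hCodd rfl FC QC EC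
    ⟨τC, hτCP, 0, by
      change τ.w ((0 : C) : A) ≠ 0
      rw [AddSubgroup.coe_zero, hτw]; decide⟩
  -- gluing
  let f : C → C := fun c => g' c - g' 0
  have hf : Function.Injective f := fun a b hab => g'.injective (sub_left_injective hab)
  have hfs : ∀ a b : C, (f b : A) - f a = ((g' b - g' a : C) : A) := by
    intro a b
    rw [← AddSubgroup.coe_sub]
    congr 1
    change (g' b - g' 0) - (g' a - g' 0) = g' b - g' a
    abel
  have hfL : ∀ c : C, (f c : A) - c ∈ L := by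
    intro c
    have h4 := (hg'.fam {c' : C | (c' : A) - c ∈ L} (Or.inr ⟨c, rfl⟩) 0 c).1 (by
      change ((c - 0 : C) : A) - c ∈ L
      rw [sub_zero, sub_self]; exact L.zero_mem)
    exact h4
  let g : Equiv.Perm A := Equiv.ofBijective (glue f)
    (Finite.injective_iff_bijective.1 (glue_inj f hf))
  have hg : ∀ y, g y = glue f y := fun y => rfl
  have hQC : ∀ q ∈ Q, q ∈ C := by
    intro q hq
    apply hbC
    intro ρ hρ y
    exact (hGP hρ).wcon y (y + q) (by rw [add_sub_cancel_left]; exact hq)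
  have key : ∀ U : Set A, TInv G U → Pres g' {c : C | (c : A) ∈ U} → Pres g U := by
    intro U hU hg'U x y
    rw [hg, hg]
    by_cases hxy : y - x ∈ C
    · obtain ⟨a, b, hab, hab2⟩ := glue_sub f hxy
      rw [hab2, hfs, ← hab, ← AddSubgroup.coe_sub]
      exact hg'U a b
    · have h4 := glue_mem_L f hfL x
      have h5 := glue_mem_L f hfL y
      have h6 : glue f y - glue f x = (y - x) + ((glue f y - y) - (glue f x - x)) := by abel
      rw [h6]
      exact ((hRD.memL _).1 (L.sub_mem h5 h4)).2 U hU (y - x) hxy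
  refine ⟨g, ⟨?_, ?_, fun _ _ _ => rfl, ?_⟩⟩
  · intro T hT
    exact key T (fun ρ hρ => (hGP hρ).fam T hT)
      (hg'.fam {c : C | (c : A) ∈ T} (Or.inl ⟨T, hT, rfl⟩))
  · exact key Q (fun ρ hρ => (hGP hρ).rel) hg'.rel
  · intro x y hxy ε
    change y - x ∈ E ε ↔ g y - g x ∈ E (ε + 1)
    rw [hg, hg]
    obtain ⟨a, b, hab, hab2⟩ := glue_sub f (hQC _ hxy)
    rw [hab2, hfs, ← hab, ← AddSubgroup.coe_sub]
    refine hg'.edge a b ?_ ε
    change ((b - a : C) : A) ∈ Q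
    rw [AddSubgroup.coe_sub, hab]; exact hxy

/-- Theorem I. -/
theorem theoremI [Finite A] [IsAddCyclic A] (hodd : Odd (Nat.card A)) (F : Set (Set A))
    (Q : Set A) (E : ZMod 2 → Set A) (h : ∃ σ, PT F Q E σ ∧ ∃ x, σ.w x ≠ 0) :
    ∃ g : Equiv.Perm A, PT F Q E ⟨g, fun _ => 1⟩ :=
  theoremI_aux (Nat.card A) A hodd rfl F Q E h

end Pool.Agent.Helper589TypeII
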